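import Pool.Agent.Work.MP_c07f0d_lc.Defs
import Mathlib.Algebra.MvPolynomial.Degrees
import Mathlib.Algebra.MvPolynomial.Eval
import Mathlib.Data.Real.Basic

/-!
# Sum-of-squares refutations: definitions
-/

namespace FregeEF

open Classical in
/-- The number of formulas of the list `Γ` which are false under the truth assignment `x`. -/
noncomputable def falsified {ι : Type} (Γ : List (Fm ι)) (x : ι → Bool) : ℕ :=
  Γ.countP fun φ => ¬ φ.eval fun i => x i = true

/-- `Γ` has a sum-of-squares refutation of degree `2 * d`: there are a real number `c` and real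
polynomials `f₁, f₂, ...` of degree at most `d`, such that `c` times the number of falsified
formulas equals `1 + f₁ ^ 2 + f₂ ^ 2 + ...` at every point of the cube. -/
def SosRefutes {ι : Type} (Γ : List (Fm ι)) (d : ℕ) : Prop :=
  ∃ (c : ℝ) (L : List (MvPolynomial ι ℝ)), (∀ f ∈ L, f.totalDegree ≤ d) ∧
    ∀ x : ι → Bool, c * falsified Γ x =
      1 + (L.map fun f => (MvPolynomial.eval (fun i => if x i then (1 : ℝ) else 0) f) ^ 2).sum

end FregeEF
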