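import Pool.Agent.Work.MP_c07f0d_lc.SD.Main
import Pool.Agent.Work.MP_c07f0d_lc.SD.SosDefs
import Mathlib.Analysis.Convex.Cone.Extension

/-!
# Duality between pseudo-expectations and sum-of-squares refutations
-/

set_option linter.unusedSectionVars false

namespace GridLine

open Finset LineSize FregeEF

variable {ι : Type} [Fintype ι] [DecidableEq ι]

/-- Sums of squares of functions of degree at most `d`. -/
def SS (d : ℕ) (g : (ι → Bool) → ℝ) : Prop :=
  ∃ L : List ((ι → Bool) → ℝ), (∀ f ∈ L, LowDeg d f) ∧ ∀ x, g x = (L.map fun f => f x ^ 2).sum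

lemma SS.add {d : ℕ} {g h : (ι → Bool) → ℝ} (hg : SS d g) (hh : SS d h) :
    SS d (fun x => g x + h x) := by
  obtain ⟨L, h1, h2⟩ := hg
  obtain ⟨L', h1', h2'⟩ := hh
  refine ⟨L ++ L', fun f hf => ?_, fun x => ?_⟩
  · rcases List.mem_append.mp hf with h | h
    · exact h1 f h
    · exact h1' f h
  · show g x + h x = _
    rw [h2, h2', List.map_append, List.sum_append]

lemma SS.zero (d : ℕ) : SS d (fun _ : ι → Bool => 0) := ⟨[], by simp, by simp⟩

lemma SS.sq {d : ℕ} {f : (ι → Bool) → ℝ} (hf : LowDeg d f) : SS d (fun x => f x ^ 2) :=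
  ⟨[f], by simpa using hf, by simp⟩

lemma SS.smul {d : ℕ} {g : (ι → Bool) → ℝ} {a : ℝ} (ha : 0 ≤ a) (hg : SS d g) :
    SS d (fun x => a * g x) := by
  obtain ⟨L, h1, h2⟩ := hg
  refine ⟨L.map fun f => fun x => Real.sqrt a * f x, fun f hf => ?_, fun x => ?_⟩
  · obtain ⟨f', hf', rfl⟩ := List.mem_map.mp hf
    exact (h1 f' hf').const_mul _
  · show a * g x = _
    rw [h2, List.map_map, ← List.sum_map_mul_left]
    congr 1
    refine List.map_congr_left fun f _ => ?_
    simp only [Function.comp]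
    rw [mul_pow, Real.sq_sqrt ha]

lemma SS.congr' {d : ℕ} {g h : (ι → Bool) → ℝ} (hg : SS d g) (he : ∀ x, g x = h x) : SS d h := by
  have : g = h := funext he
  rwa [← this]

/-- Every Walsh function of degree at most `2 d` is dominated by a constant. -/
lemma exists_dom_chi {d : ℕ} (a : ℝ) {S : Finset ι} (hS : S.card ≤ 2 * d) :
    SS d (fun x => |a| + a * chi S x) := by
  obtain ⟨A, hAS, hA⟩ := Finset.exists_subset_card_eq (s := S) (n := min d S.card)
    (min_le_right _ _)
  have hA1 : A.card ≤ d := by rw [hA]; exact min_le_left _ _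
  have hB1 : (S \ A).card ≤ d := by
    rw [Finset.card_sdiff_of_subset hAS, hA]
    omega
  have hmul : ∀ x, chi A x * chi (S \ A) x = chi S x := by
    intro x
    rw [chi_mul]
    congr 1
    ext i
    simp only [Finset.mem_symmDiff, Finset.mem_sdiff]
    constructor
    · rintro (⟨h, _⟩ | ⟨⟨h, _⟩, _⟩)
      · exact hAS h
      · exact h
    · intro h
      by_cases hi : i ∈ A
      · exact Or.inl ⟨hi, fun h' => h'.2 hi⟩
      · exact Or.inr ⟨⟨h, hi⟩, hi⟩
  have hsq : ∀ (T : Finset ι) (x : ι → Bool), chi T x ^ 2 = 1 := by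
    intro T x
    rw [sq]
    exact chi_sq T x
  have hdA : LowDeg d (chi A) := (LowDeg.chi A).mono hA1
  have hdB : LowDeg d (chi (S \ A)) := (LowDeg.chi (S \ A)).mono hB1
  rcases le_total 0 a with ha | ha
  · have h1 := (SS.sq (hdA.add hdB)).smul (a := a / 2) (by linarith)
    refine h1.congr' fun x => ?_
    rw [abs_of_nonneg ha]
    have e1 := hsq A x
    have e2 := hsq (S \ A) x
    have e3 := hmul x
    linear_combination (a / 2) * e1 + (a / 2) * e2 + a * e3
  · have h1 := (SS.sq (hdA.sub hdB)).smul (a := -a / 2) (by linarith)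
    refine h1.congr' fun x => ?_
    rw [abs_of_nonpos ha]
    have e1 := hsq A x
    have e2 := hsq (S \ A) x
    have e3 := hmul x
    linear_combination (-a / 2) * e1 + (-a / 2) * e2 + a * e3

lemma exists_dom {d : ℕ} {y : (ι → Bool) → ℝ} (hy : LowDeg (2 * d) y) :
    ∃ t : ℝ, SS d (fun x => t + y x) := by
  have key : ∀ s : Finset (Finset ι), (∀ S ∈ s, S.card ≤ 2 * d) →
      SS d (fun x => ∑ S ∈ s, (|fc y S| + fc y S * chi S x)) := by
    intro s
    induction s using Finset.induction_on with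
    | empty => intro _; simpa using SS.zero (ι := ι) d
    | insert S s hS ih =>
      intro h
      have h1 := exists_dom_chi (fc y S) (h S (mem_insert_self _ _))
      have h2 := ih fun T hT => h T (mem_insert_of_mem hT)
      exact (h1.add h2).congr' fun x => by rw [sum_insert hS]
  set s := (Finset.univ : Finset (Finset ι)).filter fun S => S.card ≤ 2 * d with hs
  refine ⟨∑ S ∈ s, |fc y S|, (key s fun S hS => (mem_filter.mp hS).2).congr' fun x => ?_⟩
  rw [Finset.sum_add_distrib]
  congr 1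
  rw [← walsh y x, hs, Finset.sum_filter]
  refine Finset.sum_congr rfl fun S _ => ?_
  split_ifs with h
  · rfl
  · rw [hy S (by omega), zero_mul]

/-- The polynomial of a function. -/
noncomputable def polyOf (f : (ι → Bool) → ℝ) : MvPolynomial ι ℝ :=
  ∑ S : Finset ι, MvPolynomial.C (fc f S) * ∏ i ∈ S, (1 - 2 * MvPolynomial.X i)

lemma eval_polyOf (f : (ι → Bool) → ℝ) (x : ι → Bool) :
    MvPolynomial.eval (fun i => if x i then (1 : ℝ) else 0) (polyOf f) = f x := by
  unfold polyOf
  rw [map_sum, ← walsh f x]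
  refine Finset.sum_congr rfl fun S _ => ?_
  rw [map_mul, MvPolynomial.eval_C, map_prod]
  congr 1
  unfold chi
  refine Finset.prod_congr rfl fun i _ => ?_
  simp only [map_sub, map_one, map_mul, MvPolynomial.eval_X, map_ofNat]
  cases x i
  · simp [sg]
  · simp [sg]
    norm_num

lemma degree_polyOf {f : (ι → Bool) → ℝ} {d : ℕ} (hf : LowDeg d f) :
    (polyOf f).totalDegree ≤ d := by
  unfold polyOf
  refine MvPolynomial.totalDegree_finsetSum_le fun S _ => ?_
  by_cases hS : d < S.card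
  · rw [hf S hS]
    simp
  · refine (MvPolynomial.totalDegree_mul _ _).trans ?_
    rw [MvPolynomial.totalDegree_C, zero_add]
    refine (MvPolynomial.totalDegree_finsetProd _ _).trans ?_
    have : ∀ i ∈ S, (1 - 2 * MvPolynomial.X i : MvPolynomial ι ℝ).totalDegree ≤ 1 := by
      intro i _
      refine (MvPolynomial.totalDegree_sub _ _).trans (max_le ?_ ?_)
      · simp
      · have h2 : (2 : MvPolynomial ι ℝ) = MvPolynomial.C 2 := (map_ofNat MvPolynomial.C 2).symm
        rw [h2]
        refine (MvPolynomial.totalDegree_mul _ _).trans ?_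
        rw [MvPolynomial.totalDegree_C, zero_add]
        exact (MvPolynomial.totalDegree_X i).le
    calc ∑ i ∈ S, (1 - 2 * MvPolynomial.X i : MvPolynomial ι ℝ).totalDegree
        ≤ ∑ _i ∈ S, 1 := Finset.sum_le_sum this
      _ = S.card := by simp
      _ ≤ d := by omega

/-- The indicator of falsity. -/
noncomputable def wf (φ : Fm ι) : (ι → Bool) → ℝ := fun x => 1 - bv ((nf true φ).ev x)

lemma wf_sq (φ : Fm ι) (x : ι → Bool) : wf φ x ^ 2 = wf φ x := by
  unfold wf
  cases (nf true φ).ev x <;> simp [bv]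

lemma wf_deg {φ : Fm ι} {d : ℕ} (h : φ.size ≤ d) : LowDeg d (wf φ) :=
  (LowDeg.const d 1).sub ((lowDeg_exactA (nf true φ)).mono ((nf_leaves φ true).trans h))

lemma sum_wf (Γ : List (Fm ι)) (x : ι → Bool) :
    (Γ.map fun φ => wf φ x).sum = falsified Γ x := by
  classical
  unfold falsified
  induction Γ with
  | nil => simp
  | cons φ Γ ih =>
    rw [List.map_cons, List.sum_cons, ih, List.countP_cons]
    have h := (nf_ev x φ).1
    unfold wf
    cases hy : (nf true φ).ev x with
    | true =>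
      have h1 : φ.eval (fun i => x i = true) := h.mp hy
      simp [h1, bv]
    | false =>
      have h1 : ¬ φ.eval (fun i => x i = true) := fun h2 => by
        rw [h.mpr h2] at hy
        exact Bool.noConfusion hy
      simp [h1, bv]
      ring

/-- The functions of degree at most `D`. -/
noncomputable def lowSub (ι : Type) [Fintype ι] [DecidableEq ι] (D : ℕ) :
    Submodule ℝ ((ι → Bool) → ℝ) where
  carrier := {f | LowDeg D f}
  add_mem' := fun {a b} ha hb => by
    have := LowDeg.add ha hb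
    exact this
  zero_mem' := LowDeg.const D 0
  smul_mem' := fun c f hf => by
    have := LowDeg.const_mul c hf
    exact this

/-- The cone. -/
noncomputable def ssCone (Γ : List (Fm ι)) (d : ℕ) : PointedCone ℝ (lowSub ι (2 * d)) where
  carrier := {g | ∃ c : ℝ, SS d (fun x => g.1 x + c * falsified Γ x)}
  add_mem' := by
    rintro a b ⟨c, hc⟩ ⟨c', hc'⟩
    refine ⟨c + c', (hc.add hc').congr' fun x => ?_⟩
    simp only [Submodule.coe_add, Pi.add_apply]
    ring
  zero_mem' := ⟨0, (SS.zero d).congr' fun x => by simp⟩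
  smul_mem' := by
    rintro ⟨r, hr⟩ a ⟨c, hc⟩
    refine ⟨r * c, (hc.smul hr).congr' fun x => ?_⟩
    have : ((⟨r, hr⟩ : {c : ℝ // 0 ≤ c}) • a).1 x = r * a.1 x := rfl
    rw [this]
    ring

lemma mem_ssCone {Γ : List (Fm ι)} {d : ℕ} {g : lowSub ι (2 * d)} :
    g ∈ ssCone Γ d ↔ ∃ c : ℝ, SS d (fun x => g.1 x + c * falsified Γ x) := Iff.rfl

/-- A negative constant in the cone gives a refutation. -/
lemma sos_of_neg {Γ : List (Fm ι)} {d : ℕ} {t c : ℝ} (ht : t < 0)
    (h : SS d (fun x => t + c * falsified Γ x)) : SosRefutes Γ d := by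
  obtain ⟨L, h1, h2⟩ := h.smul (a := (-t)⁻¹) (by
    rw [inv_nonneg]
    linarith)
  refine ⟨(-t)⁻¹ * c, L.map polyOf, fun f hf => ?_, fun x => ?_⟩
  · obtain ⟨f', hf', rfl⟩ := List.mem_map.mp hf
    exact degree_polyOf (h1 f' hf')
  · have h3 := h2 x
    rw [List.map_map]
    have h4 : (L.map ((fun f => (MvPolynomial.eval (fun i => if x i then (1 : ℝ) else 0) f) ^ 2)
        ∘ polyOf)) = L.map fun f => f x ^ 2 := by
      refine List.map_congr_left fun f _ => ?_
      simp only [Function.comp]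
      rw [eval_polyOf]
    rw [h4, ← h3]
    have h5 : (-t)⁻¹ * t = -1 := by
      rw [inv_neg, neg_mul, inv_mul_cancel₀ ht.ne]
    show (-t)⁻¹ * c * falsified Γ x = 1 + (-t)⁻¹ * (t + c * falsified Γ x)
    linear_combination -h5

lemma sum_nonneg_zero {l : List ℝ} (h : ∀ a ∈ l, 0 ≤ a) (hs : l.sum ≤ 0) : ∀ a ∈ l, a = 0 := by
  induction l with
  | nil => simp
  | cons b l ih =>
    intro a ha
    rw [List.sum_cons] at hs
    have hb := h b (by simp)
    have hl : 0 ≤ l.sum := List.sum_nonneg fun a ha => h a (by simp [ha])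
    rcases List.mem_cons.mp ha with rfl | ha
    · linarith
    · exact ih (fun a ha => h a (by simp [ha])) (by linarith) a ha

/-- Duality. -/
theorem exists_pe_of_not_sos {Γ : List (Fm ι)} {d : ℕ} (hΓ : ∀ φ ∈ Γ, φ.size ≤ d)
    (hno : ¬ SosRefutes Γ d) : ∃ P : PE ι, P.cap = d ∧ P.E (fun _ => 1) = 1 ∧
      ∀ φ ∈ Γ, P.N (fun x => bv ((nf true φ).ev x) - 1) = 0 := by
  set W := lowSub ι (2 * d) with hW
  set one : W := ⟨fun _ => 1, LowDeg.const _ 1⟩ with hone
  have hne : one ≠ 0 := by
    intro h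
    have h1 : one.1 (fun _ => true) = (0 : W).1 (fun _ => true) := by rw [h]
    simp [hone] at h1
  set f : W →ₗ.[ℝ] ℝ := LinearPMap.mkSpanSingleton one (1 : ℝ) hne with hf
  have hdom : f.domain = ℝ ∙ one := rfl
  have hval : ∀ (t : ℝ) (h : t • one ∈ f.domain), f ⟨t • one, h⟩ = t := by
    intro t h
    have := LinearPMap.mkSpanSingleton'_apply one (1 : ℝ)
      (fun c hc => smul_eq_zero.2 ((smul_eq_zero.1 hc).imp id fun h' => absurd h' hne)) t h
    rw [smul_eq_mul, mul_one] at this
    exact this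
  obtain ⟨g, hg1, hg2⟩ := riesz_extension (ssCone Γ d) f (by
      rintro ⟨z, hz⟩ hzK
      obtain ⟨t, rfl⟩ := Submodule.mem_span_singleton.mp hz
      rw [hval]
      by_contra hneg
      rw [not_le] at hneg
      obtain ⟨c, hc⟩ := hzK
      refine hno (sos_of_neg (c := c) hneg (hc.congr' fun x => ?_))
      have : (t • one).1 x = t * 1 := rfl
      show (t • one).1 x + c * falsified Γ x = _
      rw [this, mul_one]) (by
      intro y
      obtain ⟨t, ht⟩ := exists_dom y.2
      refine ⟨⟨t • one, Submodule.mem_span_singleton.mpr ⟨t, rfl⟩⟩, 0, ht.congr' fun x => ?_⟩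
      have : (t • one + y).1 x = t * 1 + y.1 x := rfl
      rw [this]
      ring)
  obtain ⟨g', hg'⟩ := LinearMap.exists_extend g
  have hgW : ∀ w : W, g' w.1 = g w := fun w => by
    rw [← hg']
    rfl
  have hg1' : g' (fun _ => 1) = 1 := by
    have h1 := hgW one
    have h2 := (hg1 ⟨(1 : ℝ) • one, Submodule.mem_span_singleton.mpr ⟨1, rfl⟩⟩).trans
      (hval 1 _)
    have h3 : g ((1 : ℝ) • one) = 1 := h2
    rw [one_smul] at h3
    exact h1.trans h3
  have hpos : ∀ h : (ι → Bool) → ℝ, LowDeg d h → 0 ≤ g' (fun x => h x ^ 2) := by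
    intro h hh
    have hw : LowDeg (2 * d) (fun x => h x ^ 2) := hh.pow 2
    have h1 := hgW ⟨fun x => h x ^ 2, hw⟩
    rw [h1]
    refine hg2 _ ⟨0, (SS.sq hh).congr' fun x => ?_⟩
    simp
  refine ⟨⟨fun h => g' h, d, fun a b => ?_, fun a b => ?_, hpos⟩, rfl, hg1', ?_⟩
  · exact g'.map_add a b
  · exact g'.map_smul a b
  · have hw0 : ∀ φ ∈ Γ, 0 ≤ g' (wf φ) := by
      intro φ hφ
      have h1 := hpos (wf φ) (wf_deg (hΓ φ hφ))
      have h2 : (fun x => wf φ x ^ 2) = wf φ := funext (wf_sq φ)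
      rwa [h2] at h1
    have hsum : (Γ.map fun φ => g' (wf φ)).sum = g' (fun x => (falsified Γ x : ℝ)) := by
      have h1 : (fun x => (falsified Γ x : ℝ)) = (Γ.map wf).sum := by
        funext x
        rw [← sum_wf]
        clear hΓ hno hw0 hg2
        induction Γ with
        | nil => simp
        | cons φ Γ ih => simp [ih]
      rw [h1, map_list_sum, List.map_map]
      rfl
    have hdv : LowDeg (2 * d) (fun x => (falsified Γ x : ℝ)) := by
      have h1 : ∀ l : List (Fm ι), (∀ φ ∈ l, φ.size ≤ d) →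
          LowDeg (2 * d) (fun x => (l.map fun φ => wf φ x).sum) := by
        intro l
        induction l with
        | nil => intro _; simpa using LowDeg.const (2 * d) 0
        | cons φ l ih =>
          intro h
          simp only [List.map_cons, List.sum_cons]
          exact ((wf_deg (h φ (by simp))).mono (by omega)).add (ih fun ψ hψ => h ψ (by simp [hψ]))
      have h2 := h1 Γ hΓ
      simp only [sum_wf] at h2
      exact h2
    have hneg : g' (fun x => (falsified Γ x : ℝ)) ≤ 0 := by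
      have h1 := hg2 (-⟨fun x => (falsified Γ x : ℝ), hdv⟩) ⟨1, (SS.zero d).congr' fun x => by
        simp⟩
      rw [map_neg, ← hgW] at h1
      linarith
    have hall := sum_nonneg_zero (l := Γ.map fun φ => g' (wf φ)) (by
      intro a ha
      obtain ⟨φ, hφ, rfl⟩ := List.mem_map.mp ha
      exact hw0 φ hφ) (by rw [hsum]; exact hneg)
    intro φ hφ
    have h1 := hall _ (List.mem_map.mpr ⟨φ, hφ, rfl⟩)
    unfold PE.N
    rw [Real.sqrt_eq_zero']
    have h2 : (fun x => (bv ((nf true φ).ev x) - 1) ^ 2) = wf φ := by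
      funext x
      rw [← wf_sq]
      unfold wf
      ring
    show g' (fun x => (bv ((nf true φ).ev x) - 1) ^ 2) ≤ 0
    rw [h2, h1]

/-- Frege refutations with small memory give sum-of-squares refutations of small degree. -/
theorem space_sos (F : FregeSystem) (ε : ℝ) (hε : 0 < ε) :
    ∃ C : ℕ, ∀ (ι : Type) [Fintype ι] [DecidableEq ι] (Γ : List (Fm ι)) (a s T : ℕ)
      (M : List (Fm ι)), (∀ φ ∈ Γ, φ.size ≤ a) → Run F.rules Γ s T M → Fm.bot ∈ M →
      ∃ d : ℕ, (d : ℝ) ≤ (s : ℝ) ^ (1 / 2 + ε) * ((a + 2) * Real.log (T + 2)) ^ C ∧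
        SosRefutes Γ d := by
  obtain ⟨C, hC⟩ := space_degree F ε hε
  refine ⟨C + 2, ?_⟩
  intro ι _ _ Γ a s T M ha hrun hbot
  obtain ⟨hs1, hT1⟩ := sd_run_pos hrun hbot
  have hsR : (1 : ℝ) ≤ s := by exact_mod_cast hs1
  have haR : (0 : ℝ) ≤ a := Nat.cast_nonneg a
  have hL1 := sd_one_le_log hT1
  set X : ℝ := (a + 2) * Real.log (T + 2) with hX
  have hXa : (a : ℝ) + 2 ≤ X := le_mul_of_one_le_right (by linarith) hL1
  have hX2 : 2 ≤ X := by linarith
  set Y : ℝ := (s : ℝ) ^ (1 / 2 + ε) with hY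
  have hY1 : 1 ≤ Y := Real.one_le_rpow hsR (by linarith)
  have hXC : 1 ≤ X ^ C := one_le_pow₀ (by linarith)
  have hYX : 1 ≤ Y * X ^ C := one_le_mul_of_one_le_of_one_le hY1 hXC
  set d : ℕ := ⌈Y * X ^ (C + 1)⌉₊ with hd
  have hd1 : Y * X ^ (C + 1) ≤ (d : ℝ) := Nat.le_ceil _
  have hd2 : (d : ℝ) ≤ Y * X ^ (C + 1) + 1 :=
    (Nat.ceil_lt_add_one (by positivity)).le
  have hXX : X ≤ Y * X ^ (C + 1) := by
    rw [pow_succ, ← mul_assoc]
    exact le_mul_of_one_le_left (by linarith) hYX
  refine ⟨d, ?_, ?_⟩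
  · have h1 : Y * X ^ (C + 2) = Y * X ^ (C + 1) * X := by rw [pow_succ X (C + 1)]; ring
    rw [h1]
    have h2 : Y * X ^ (C + 1) * 2 ≤ Y * X ^ (C + 1) * X :=
      mul_le_mul_of_nonneg_left hX2 (by positivity)
    linarith
  · by_contra hno
    have had : ∀ φ ∈ Γ, φ.size ≤ d := by
      intro φ hφ
      have h1 : (a : ℝ) ≤ d := by linarith
      exact (ha φ hφ).trans (by exact_mod_cast h1)
    obtain ⟨P, hcap, hone, hax⟩ := exists_pe_of_not_sos had hno
    have h2 := hC ι P hone Γ a s T M ha hax hrun hbot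
    rw [hcap] at h2
    have h3 : Y * X ^ C ≤ Y * X ^ (C + 1) := by
      rw [pow_succ, ← mul_assoc]
      exact le_mul_of_one_le_right (by linarith) (by linarith)
    linarith

end GridLine
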