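import Pool.Agent.Work.MP_c07f0d_lc.SD.XorInst
import Pool.Agent.Work.MP_c07f0d_lc.LS.Upper3

/-!
# Short Frege refutations of contradictory systems of linear equations with three variables
-/

set_option linter.unusedSectionVars false

namespace GridLine

open Finset LineSize FregeEF

namespace Xor

variable {n m : ℕ}

/-- The tree of an equation. -/
def xT (c : Cl n) : XT (Fin n) :=
  .node (.node (.leaf (some (c.1 0))) (.leaf (some (c.1 1)))) (.leaf (some (c.1 2)))

lemma xT_fm (c : Cl n) : (xT c).fm = xF c := rfl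

lemma xorF_eq (c : Cl n) : xorF c = LineSize.litF (clRhs c) (xT c).fm := by
  rw [xT_fm]
  rfl

lemma valB_sg {V : Type} (b : V → Bool) (l : List V) :
    sg (valB b l) = (l.map fun i => sg (b i)).prod := by
  induction l with
  | nil => simp [valB, sg]
  | cons i l ih =>
    have h : valB b (i :: l) = xor (b i) (valB b l) := rfl
    rw [h, sg_xor, ih]
    simp

/-- The tree of a contradictory sum of equations. -/
lemma big_spec (A : Fin m → Cl n)
    (h : ¬ ∃ x : Fin n → Bool, ∀ i, chi (clSup (A i)) x = sg (clRhs (A i))) :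
    1 ≤ m ∧ 1 ≤ n ∧ ∃ us : List (Fin m), us.length ≤ 2 ^ Nat.clog 2 m ∧
      (XT.ofList (Nat.clog 2 m) (us.map fun i => xT (A i))).fm.size ≤ 108 * m ^ 2 ∧
      (∀ y, (XT.ofList (Nat.clog 2 m) (us.map fun i => xT (A i))).par y = false) ∧
      valB (fun i => clRhs (A i)) us = true := by
  classical
  obtain ⟨S, hS1, hS2⟩ := exists_contradictory (fun i => clSup (A i)) (fun i => clRhs (A i)) h
  have hm : 1 ≤ m := by
    by_contra hc
    have : m = 0 := by omega
    subst this
    exact h ⟨fun _ => false, fun i => i.elim0⟩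
  have hn : 1 ≤ n := by
    have := (A ⟨0, by omega⟩).1 0
    exact Nat.one_le_iff_ne_zero.2 (fun h0 => by subst h0; exact this.elim0)
  refine ⟨hm, hn, S.toList, ?_, ?_, ?_, ?_⟩
  · rw [Finset.length_toList]
    exact ((Finset.card_le_univ S).trans (by simp)).trans (Nat.le_pow_clog (by norm_num) _)
  · have hkm : 2 ^ Nat.clog 2 m ≤ 2 * m := two_pow_clog_le hm
    rw [XT.fm_ofList]
    have h1 := size_xorList 25 (by omega) (Nat.clog 2 m)
      ((S.toList.map fun i => xT (A i)).map XT.fm) (by
      intro φ hφ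
      obtain ⟨T, hT, rfl⟩ := List.mem_map.mp hφ
      obtain ⟨u, _, rfl⟩ := List.mem_map.mp hT
      rw [xT_fm, xF_size])
    have h5 := Nat.pow_le_pow_left hkm 2
    rw [← LineSize.four_pow] at h5
    have h6 : 4 ^ Nat.clog 2 m * (25 + 2) ≤ (2 * m) ^ 2 * 27 := Nat.mul_le_mul h5 (by omega)
    have h7 : (2 * m) ^ 2 * 27 = 108 * m ^ 2 := by ring
    omega
  · have hsv : ∀ x : Fin n → Bool,
        sv x (XT.ofList (Nat.clog 2 m) (S.toList.map fun i => xT (A i))).fm = 1 := by
      intro x
      rw [XT.fm_ofList, sv_xorList x _ _ (by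
        simp only [List.length_map]
        rw [Finset.length_toList]
        exact ((Finset.card_le_univ S).trans (by simp)).trans (Nat.le_pow_clog (by norm_num) _)),
        List.map_map, List.map_map]
      have h1 : (sv x ∘ XT.fm) ∘ (fun i => xT (A i)) = fun i => chi (clSup (A i)) x := by
        funext i
        simp only [Function.comp]
        rw [xT_fm, sv_xF]
      rw [h1, Finset.prod_map_toList]
      exact hS1 x
    intro y
    have h1 := XT.sv_flip (fun _ : Fin n => false) y
      (XT.ofList (Nat.clog 2 m) (S.toList.map fun i => xT (A i)))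
    rw [hsv, hsv] at h1
    by_contra hcon
    have hcon' : (XT.ofList (Nat.clog 2 m) (S.toList.map fun i => xT (A i))).par y = true := by
      simpa using hcon
    rw [hcon'] at h1
    norm_num at h1
  · have h1 := valB_sg (fun i => clRhs (A i)) S.toList
    rw [Finset.prod_map_toList] at h1
    have h2 : sg (valB (fun i => clRhs (A i)) S.toList) = -1 := h1.trans hS2
    by_contra hcon
    have hcon' : valB (fun i => clRhs (A i)) S.toList = false := by simpa using hcon
    rw [hcon'] at h2
    norm_num [sg] at h2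

lemma size_killAll {α : Type} [DecidableEq α] (ys : List α) : ∀ t : XT α,
    (killAll ys t).fm.size = t.fm.size := by
  induction ys with
  | nil => exact fun t => rfl
  | cons y ys ih =>
    intro t
    have := ih (t.kill y)
    rw [XT.size_kill] at this
    exact this

/-- Short refutations of contradictory systems. -/
theorem upper_xor (F : FregeSystem) (A : Fin m → Cl n)
    (h : ¬ ∃ x : Fin n → Bool, ∀ i, chi (clSup (A i)) x = sg (clRhs (A i))) :
    ∃ L : List (Fm (Fin n)), IsDeriv F.rules (xors A) L ∧ Fm.bot ∈ L ∧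
      L.length ≤ 400 * F.K * (m ^ 2 * n) ∧ ∀ φ ∈ L, φ.size ≤ 400 * F.K * m ^ 2 := by
  classical
  obtain ⟨hm, hn, us, huslen, hbig, hpar, hval⟩ := big_spec A h
  have hK := F.K_pos
  set k := Nat.clog 2 m with hk
  have hkm : 2 ^ k ≤ 2 * m := two_pow_clog_le hm
  set big : XT (Fin n) := XT.ofList k (us.map fun i => xT (A i)) with hbigdef
  set W := 108 * m ^ 2 with hW
  have hm2 : 1 ≤ m ^ 2 := Nat.one_le_pow _ _ hm
  have hW1 : 1 ≤ W := by omega
  -- the axioms
  have hL0 : IsDeriv F.rules (xors A) (xors A) := deriv_hyps _ _ _ fun _ h => h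
  have hKW : W ≤ F.K * W := Nat.le_mul_of_pos_left _ hK
  have hs0 : ∀ ψ ∈ xors A, ψ.size ≤ F.K * W := by
    intro ψ hψ
    obtain ⟨u, rfl⟩ := List.mem_ofFn.mp hψ
    have h1 := xorF_size (A u)
    omega
  have e1 := ext_ofList (F := F) (Γ := xors A) hW1 (fun i => xT (A i)) (fun i => clRhs (A i))
    k us huslen hbig
  obtain ⟨L1, a1, b1, c1, d1, f1⟩ := e1 _ hL0 hs0 (by
    intro ψ hψ
    obtain ⟨u, _, rfl⟩ := List.mem_map.mp hψ
    rw [← xorF_eq]
    exact List.mem_ofFn.mpr ⟨u, rfl⟩)
  rw [hval] at d1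
  -- kill all the variables
  set xs := (Finset.univ : Finset (Fin n)).toList with hxs
  have hxslen : xs.length = n := by
    rw [hxs, Finset.length_toList, Finset.card_univ, Fintype.card_fin]
  have e2 := ext_killAll (F := F) (Γ := xors A) hW1 xs big hbig hpar
  obtain ⟨L2, a2, b2, c2, d2, f2⟩ := e2 L1 a1 b1 (by
    intro ψ hψ
    exact d1 ψ hψ)
  have hsz : (killAll xs big).fm.size ≤ W := by
    rw [size_killAll]
    exact hbig
  have e3 := ext_neg (F := F) (Γ := xors A) hW1 (killAll xs big) hsz (by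
    intro x hx
    exact occ_killAll xs big x hx (Finset.mem_toList.mpr (Finset.mem_univ _)))
  obtain ⟨L3, a3, b3, c3, d3, f3⟩ := e3 L2 a2 b2 (by simp)
  have e4 := Ext.rule (F := F) (Γ := xors A) hW1 [.var 0, .neg (.var 0)] .bot
    [(killAll xs big).fm] (by decide) (by
      intro v h
      simp only [List.mem_cons, List.not_mem_nil, or_false, forall_eq_or_imp, forall_eq,
        Fm.eval] at h
      exact absurd h.1 h.2) (by simpa using hsz)
  obtain ⟨L4, a4, b4, c4, d4, f4⟩ := e4 L3 a3 b3 (by
    intro ψ hψ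
    simp only [List.map_cons, List.map_nil, List.mem_cons, List.not_mem_nil, or_false] at hψ
    rcases hψ with rfl | rfl
    · exact c3 _ (d2 _ (by simp [sub, Fm.subst]))
    · exact d3 _ (by simp [sub, Fm.subst]))
  refine ⟨L4, a4, d4 _ (by simp [Fm.subst]), ?_, ?_⟩
  · have hL0len : (xors A).length = m := by simp [xors]
    have hnodes := (XT.nodes_le (killAll xs big)).trans hsz
    have g0 : 2 ^ (k + 1) ≤ 4 * m := by
      rw [pow_succ]
      omega
    have g1 : F.K * (2 ^ (k + 1) - 1) ≤ 4 * (F.K * m) := by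
      calc F.K * (2 ^ (k + 1) - 1) ≤ F.K * (4 * m) := Nat.mul_le_mul_left _ (by omega)
        _ = 4 * (F.K * m) := by ring
    have g3 : F.K * (killAll xs big).nodes ≤ F.K * W := Nat.mul_le_mul_left _ hnodes
    rw [hxslen] at f2
    set T := F.K * (m ^ 2 * n) with hT
    have g2 : n * (2 * F.K * W + F.K) = 216 * T + F.K * n := by
      rw [hW, hT]
      ring
    have mm : m ≤ m ^ 2 := by
      calc m = m ^ 1 := (pow_one m).symm
        _ ≤ m ^ 2 := Nat.pow_le_pow_right hm (by norm_num)
    have k2 : m ^ 2 ≤ m ^ 2 * n := Nat.le_mul_of_pos_right _ hn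
    have k3 : n ≤ m ^ 2 * n := Nat.le_mul_of_pos_left _ hm2
    have g4 : F.K * W ≤ 108 * T := by
      rw [hW, hT]
      calc F.K * (108 * m ^ 2) = 108 * (F.K * m ^ 2) := by ring
        _ ≤ 108 * (F.K * (m ^ 2 * n)) :=
            Nat.mul_le_mul_left _ (Nat.mul_le_mul_left _ k2)
    have k0 : F.K * n ≤ T := Nat.mul_le_mul_left _ k3
    have k1 : F.K * m ≤ T := Nat.mul_le_mul_left _ (mm.trans k2)
    have k4 : F.K ≤ F.K * m := Nat.le_mul_of_pos_right _ hm
    have k5 : m ≤ F.K * m := Nat.le_mul_of_pos_left _ hK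
    have k6 : 400 * F.K * (m ^ 2 * n) = 400 * T := by rw [hT]; ring
    rw [k6]
    omega
  · intro φ hφ
    have h1 := b4 φ hφ
    have h2 : F.K * W = 108 * (F.K * m ^ 2) := by
      rw [hW]
      ring
    have k5 : 400 * F.K * m ^ 2 = 400 * (F.K * m ^ 2) := by ring
    omega

end Xor

end GridLine
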