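import Pool.Agent.Work.MP_c07f0d_lc.SD.RunEDef
import Pool.Agent.Work.MP_c07f0d_lc.SD.XorUp

/-!
# Extended Frege refutations of linear space of linear equations with three variables
-/

set_option linter.unusedSectionVars false

namespace GridLine

open Finset LineSize FregeEF

namespace Xor

section Calc

variable {F : FregeSystem} {α : Type} {Γ Φ Ψ X : List (Fm (α ⊕ ℕ))} {k S S' N N' : ℕ}

lemma runE_lsize {R : List Rule} {s T : ℕ} {M : List (Fm (α ⊕ ℕ))} (h : RunE R Γ s T k M) :
    lsize M ≤ s := by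
  cases h with
  | start => simp [lsize]
  | erase _ _ h => exact h
  | step _ _ _ _ _ h => exact h
  | ext _ _ _ _ h => exact h

lemma below_bot : Below k (.bot : Fm (α ⊕ ℕ)) := fun _ h => h.elim

lemma below_subst {σ : ℕ → Fm (α ⊕ ℕ)} (h : ∀ x, Below k (σ x)) (φ : Fm ℕ) :
    Below k (φ.subst σ) := by
  induction φ with
  | var x => exact h x
  | bot => exact fun _ h => h.elim
  | neg φ ih => exact fun j hj => ih j hj
  | and φ ψ ih1 ih2 => exact fun j hj => hj.elim (ih1 j) (ih2 j)
  | or φ ψ ih1 ih2 => exact fun j hj => hj.elim (ih1 j) (ih2 j)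
  | imp φ ψ ih1 ih2 => exact fun j hj => hj.elim (ih1 j) (ih2 j)

/-- With `S` free symbols and `N` steps one can add `Ψ` to every memory which contains `Φ`. -/
def Ae (F : FregeSystem) {α : Type} (Γ : List (Fm (α ⊕ ℕ))) (k : ℕ)
    (Φ Ψ : List (Fm (α ⊕ ℕ))) (S N : ℕ) : Prop :=
  ∀ s T M, RunE F.rules Γ s T k M → (∀ ψ ∈ Φ, ψ ∈ M) → lsize M + S ≤ s →
    ∃ T', T' ≤ T + N ∧ RunE F.rules Γ s T' k (Ψ ++ M)

lemma Ae.mono (h : Ae F Γ k Φ Ψ S N) (hΦ : ∀ ψ ∈ Φ, ψ ∈ X) (hS : S ≤ S') (hN : N ≤ N') :
    Ae F Γ k X Ψ S' N' := by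
  intro s T M hM hX hs
  obtain ⟨T', h1, h2⟩ := h s T M hM (fun ψ hψ => hX ψ (hΦ ψ hψ)) (by omega)
  exact ⟨T', by omega, h2⟩

/-- Replacing `Ψ` by `X`. -/
lemma Ae.trans (h1 : Ae F Γ k Φ Ψ S N) (h2 : Ae F Γ k (Ψ ++ Φ) X S' N') {U : ℕ} (hS : S ≤ U)
    (hS' : lsize Ψ + S' ≤ U) : Ae F Γ k Φ X U (N + N' + 1) := by
  intro s T M hM hΦ hs
  obtain ⟨T1, a1, b1⟩ := h1 s T M hM hΦ (by omega)
  obtain ⟨T2, a2, b2⟩ := h2 s T1 _ b1 (fun ψ hψ => by
    rcases List.mem_append.1 hψ with h | h
    · exact List.mem_append_left _ h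
    · exact List.mem_append_right _ (hΦ ψ h)) (by
    rw [lsize_append]
    omega)
  have h3 := runE_lsize b2
  refine ⟨T2 + 1, by omega, b2.erase ?_ ?_⟩
  · intro ψ hψ
    simp only [List.mem_append] at hψ ⊢
    tauto
  · rw [lsize_append, lsize_append] at h3
    rw [lsize_append]
    omega

/-- Downloading a hypothesis. -/
lemma Ae.hyp {φ : Fm (α ⊕ ℕ)} (hφ : φ ∈ Γ) (hb : Below k φ) : Ae F Γ k [] [φ] φ.size 1 := by
  intro s T M hM _ hs
  refine ⟨T + 1, le_rfl, hM.step φ hb (Or.inl hφ) (fun ψ hψ => ?_) ?_⟩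
  · simpa using hψ
  · simp only [List.cons_append, List.nil_append, lsize_cons]
    omega

/-- Small rules. -/
lemma Ae.rule (prem : List (Fm ℕ)) (concl : Fm ℕ) (θ : List (Fm (α ⊕ ℕ)))
    (ht : smallTest prem concl = true)
    (hv : ∀ v : ℕ → Prop, (∀ p ∈ prem, p.eval v) → concl.eval v)
    (hθ : ∀ x ∈ θ, x.size ≤ 1) (hk : ∀ x ∈ θ, Below k x) :
    Ae F Γ k (prem.map fun p => p.subst (sub θ)) [concl.subst (sub θ)] F.K (2 * F.K) := by
  obtain ⟨L₀, h1, h2, h3⟩ := F.K_spec prem concl ht hv
  have hb : ∀ x, (sub θ x).size ≤ 1 := by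
    intro x
    unfold sub
    by_cases hx : x < θ.length
    · rw [List.getD_eq_getElem?_getD, List.getElem?_eq_getElem hx]
      exact hθ _ (List.getElem_mem hx)
    · rw [List.getD_eq_getElem?_getD, List.getElem?_eq_none (by omega)]
      simp [Fm.size]
  have hbk : ∀ x, Below k (sub θ x) := by
    intro x
    unfold sub
    by_cases hx : x < θ.length
    · rw [List.getD_eq_getElem?_getD, List.getElem?_eq_getElem hx]
      exact hk _ (List.getElem_mem hx)
    · rw [List.getD_eq_getElem?_getD, List.getElem?_eq_none (by omega)]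
      exact below_bot
  intro s T Mem hMem hΦ hs
  have key : ∀ Q : List (Fm ℕ), IsDeriv F.rules prem Q → lsize Mem + lsize Q * 1 ≤ s →
      RunE F.rules Γ s (T + Q.length) k (Q.map (Fm.subst (sub θ)) ++ Mem) := by
    intro Q hQ
    induction hQ with
    | nil => exact fun _ => hMem
    | @hyp Q φ _ hφ ih =>
      intro hsz
      have hsub := lsize_map_subst_le (sub θ) 1 le_rfl (φ :: Q) hb
      rw [lsize_cons, Nat.add_mul] at hsz
      have h5 := ih (by omega)
      have h6 : T + (φ :: Q).length = (T + Q.length) + 1 := by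
        rw [List.length_cons]
        omega
      rw [h6]
      refine h5.erase ?_ ?_
      · intro ψ hψ
        rw [List.map_cons, List.cons_append, List.mem_cons] at hψ
        rcases hψ with rfl | hψ
        · exact List.mem_append_right _ (hΦ _ (List.mem_map_of_mem
            (f := fun p => p.subst (sub θ)) hφ))
        · exact hψ
      · rw [lsize_append]
        rw [lsize_cons, Nat.add_mul] at hsub
        omega
    | @step Q φ _ hi ih =>
      intro hsz
      have hsub := lsize_map_subst_le (sub θ) 1 le_rfl (φ :: Q) hb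
      rw [lsize_cons, Nat.add_mul] at hsz
      have h5 := ih (by omega)
      have h6 : T + (φ :: Q).length = (T + Q.length) + 1 := by
        rw [List.length_cons]
        omega
      rw [h6]
      refine h5.step (φ.subst (sub θ)) (below_subst hbk φ) (Or.inr ?_) ?_ ?_
      · exact (hi.subst (sub θ)).mono (by
          intro x hx
          exact List.mem_append_left _ hx)
      · intro ψ hψ
        rw [List.map_cons, List.cons_append, List.mem_cons] at hψ
        exact hψ
      · rw [lsize_append]
        rw [lsize_cons, Nat.add_mul] at hsub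
        omega
  have h5 := key L₀ h1 (by omega)
  have h6 := FregeEF.length_le_lsize L₀
  have h7 := F.K_pos
  have h8 : (concl.subst (sub θ)).size ≤ F.K * 1 :=
    (Fm.size_subst_le (sub θ) 1 le_rfl concl fun x _ => hb x).trans
      (Nat.mul_le_mul_right _ ((size_le_lsize h2).trans h3))
  refine ⟨T + L₀.length + 1, by omega, h5.erase ?_ ?_⟩
  · intro ψ hψ
    rw [List.cons_append, List.nil_append, List.mem_cons] at hψ
    rcases hψ with rfl | hψ
    · exact List.mem_append_left _ (List.mem_map_of_mem h2)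
    · exact List.mem_append_right _ hψ
  · rw [lsize_append, lsize_cons, lsize_nil]
    omega

end Calc

/-! ### Chains -/

section Chains

variable {n : ℕ}

/-- The variable with index `i`. -/
def vX (n i : ℕ) : Fm (Fin n ⊕ ℕ) := if h : i < n then .var (.inl ⟨i, h⟩) else .bot

/-- The formula for the exclusive or of the first `i` variables, in the chain with base `b`. -/
def vQ (n b : ℕ) : ℕ → Fm (Fin n ⊕ ℕ)
  | 0 => .bot
  | i + 1 => .var (.inr (b + i))

/-- The right hand side of an extension axiom. -/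
def cRh (n b : ℕ) (S : ℕ → Bool) (i : ℕ) : Fm (Fin n ⊕ ℕ) :=
  if S i then xor2 (vQ n b i) (vX n i) else vQ n b i

/-- An extension axiom of the chain with base `b` for the set `S` of variables. -/
def cAx (n b : ℕ) (S : ℕ → Bool) (i : ℕ) : Fm (Fin n ⊕ ℕ) :=
  Fm.iff (.var (.inr (b + i))) (cRh n b S i)

/-- The chain. -/
def chain (n b : ℕ) (S : ℕ → Bool) : ℕ → List (Fm (Fin n ⊕ ℕ))
  | 0 => []
  | i + 1 => cAx n b S i :: chain n b S i

lemma vX_size (n i : ℕ) : (vX n i).size = 1 := by
  unfold vX
  split_ifs <;> rfl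

lemma vQ_size (n b i : ℕ) : (vQ n b i).size = 1 := by
  cases i <;> rfl

lemma cAx_size (n b : ℕ) (S : ℕ → Bool) (i : ℕ) : (cAx n b S i).size ≤ 23 := by
  have h1 := vX_size n i
  have h2 := vQ_size n b i
  unfold cAx cRh
  split_ifs
  · simp only [Fm.iff, xor2, Fm.size]
    omega
  · simp only [Fm.iff, Fm.size]
    omega

lemma lsize_chain (n b : ℕ) (S : ℕ → Bool) (i : ℕ) : lsize (chain n b S i) ≤ 23 * i := by
  induction i with
  | zero => simp [chain, lsize]
  | succ i ih =>
    have := cAx_size n b S i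
    rw [chain, lsize_cons]
    omega

lemma mem_chain {n b : ℕ} {S : ℕ → Bool} {i j : ℕ} (h : i < j) : cAx n b S i ∈ chain n b S j := by
  induction j with
  | zero => omega
  | succ j ih =>
    rw [chain, List.mem_cons]
    rcases Nat.lt_or_ge i j with h1 | h1
    · exact Or.inr (ih h1)
    · left
      have : i = j := by omega
      rw [this]

lemma vX_below (n i k : ℕ) : Below k (vX n i) := by
  unfold vX
  split_ifs
  · intro j hj
    exact absurd hj (by simp [Fm.Occurs])
  · exact below_bot

lemma vQ_below {n b i k : ℕ} (h : b + i ≤ k) : Below k (vQ n b i) := by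
  cases i with
  | zero => exact below_bot
  | succ i =>
    intro j hj
    have h1 : (Sum.inr (b + i) : Fin n ⊕ ℕ) = Sum.inr j := hj
    have h2 := Sum.inr.inj h1
    omega

lemma cRh_below {n b i k : ℕ} {S : ℕ → Bool} (h : b + i ≤ k) : Below k (cRh n b S i) := by
  have h1 := vQ_below (n := n) h
  have h2 := vX_below n i k
  unfold cRh
  split_ifs
  · intro j hj
    rcases hj with (hj | hj) | (hj | hj)
    · exact h1 j hj
    · exact h2 j hj
    · exact h1 j hj
    · exact h2 j hj
  · exact h1

variable {F : FregeSystem} {Γ : List (Fm (Fin n ⊕ ℕ))}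

/-- Introducing a chain. -/
lemma run_chain {s T k : ℕ} {M : List (Fm (Fin n ⊕ ℕ))} (S : ℕ → Bool)
    (h : RunE F.rules Γ s T k M) (i : ℕ) (hs : lsize M + 23 * i ≤ s) :
    RunE F.rules Γ s (T + i) (k + i) (chain n k S i ++ M) := by
  induction i with
  | zero => exact h
  | succ i ih =>
    have h1 := ih (by omega)
    refine h1.ext (cRh n k S i) (cRh_below le_rfl) ?_ ?_
    · intro ψ hψ
      rw [chain, List.cons_append, List.mem_cons] at hψ
      exact hψ
    · have h2 := lsize_chain n k S (i + 1)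
      rw [lsize_append]
      omega

/-- Schematic right hand side. -/
def sRh (σ : Bool) (i j : ℕ) : Fm ℕ := if σ then xor2 (.var i) (.var j) else .var i

lemma zero_valid (v : ℕ → Prop)
    (h : ∀ p ∈ [Fm.neg (.var 0), Fm.iff (.var 1) (.var 0)], p.eval v) :
    (Fm.neg (.var 1)).eval v := by
  simp only [List.mem_cons, List.not_mem_nil, or_false, forall_eq_or_imp, forall_eq,
    Fm.eval, Fm.iff] at h ⊢
  tauto

/-- The last formula of the chain of the empty set is false. -/
lemma ae_zero {k b : ℕ} (S : ℕ → Bool) (N : ℕ) (hb : b + N ≤ k) (hS : ∀ i < N, S i = false) :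
    ∀ i ≤ N, Ae F Γ k (chain n b S N) [.neg (vQ n b i)] (F.K + 2) (i * (3 * F.K) + 2 * F.K) := by
  have hK := F.K_pos
  intro i
  induction i with
  | zero =>
    intro _
    have h := Ae.rule (F := F) (Γ := Γ) (k := k) [] (.neg .bot) [] (by decide)
      (by intro v _; exact fun h => h) (by simp) (by simp)
    exact h.mono (by simp) (by omega) (by omega)
  | succ i ih =>
    intro hi
    have h1 := ih (by omega)
    have h2 := Ae.rule (F := F) (Γ := Γ) (k := k) [.neg (.var 0), Fm.iff (.var 1) (.var 0)]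
      (.neg (.var 1)) [vQ n b i, vQ n b (i + 1)] (by decide) zero_valid (by
        intro y hy
        simp only [List.mem_cons, List.not_mem_nil, or_false] at hy
        rcases hy with rfl | rfl
        · exact (vQ_size _ _ _).le
        · exact (vQ_size _ _ _).le) (by
        intro y hy
        simp only [List.mem_cons, List.not_mem_nil, or_false] at hy
        rcases hy with rfl | rfl
        · exact vQ_below (by omega)
        · exact vQ_below (by omega))
    have e1 : ([.neg (.var 0), Fm.iff (.var 1) (.var 0)] : List (Fm ℕ)).map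
        (fun p => p.subst (sub [vQ n b i, vQ n b (i + 1)]))
        = [.neg (vQ n b i), cAx n b S i] := by
      simp [cAx, cRh, hS i (by omega), Fm.subst, sub, Fm.iff, vQ]
    have e2 : (Fm.neg (.var 1) : Fm ℕ).subst (sub [vQ n b i, vQ n b (i + 1)])
        = .neg (vQ n b (i + 1)) := by
      simp [Fm.subst, sub]
    rw [e1, e2] at h2
    have h3 := Ae.trans (U := F.K + 2) h1 (h2.mono (X := [.neg (vQ n b i)] ++ chain n b S N) (by
      intro ψ hψ
      simp only [List.mem_cons, List.not_mem_nil, or_false] at hψ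
      rcases hψ with rfl | rfl
      · simp
      · exact List.mem_append_right _ (mem_chain (by omega))) le_rfl le_rfl) le_rfl (by
      simp only [lsize_cons, lsize_nil, Fm.size, vQ_size]
      omega)
    refine h3.mono (fun _ h => h) le_rfl ?_
    rw [Nat.add_mul]
    omega

/-- The schematic premises of a step of a toggle. -/
def tPrem (τ σ σ' : Bool) (y : ℕ) : List (Fm ℕ) :=
  [Fm.iff (.var 0) (sRh τ 1 y), Fm.iff (.var 3) (sRh σ 1 4), Fm.iff (.var 2) (sRh σ' 0 4)]

lemma t_test1 (τ σ : Bool) :
    smallTest (tPrem τ σ σ 5) (Fm.iff (.var 2) (sRh τ 3 5)) = true := by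
  cases τ <;> cases σ <;> decide

lemma t_test2 (σ : Bool) :
    smallTest (tPrem false σ (!σ) 4) (Fm.iff (.var 2) (sRh true 3 4)) = true := by
  cases σ <;> decide

lemma t_valid1 (τ σ : Bool) (v : ℕ → Prop) (h : ∀ p ∈ tPrem τ σ σ 5, p.eval v) :
    (Fm.iff (.var 2) (sRh τ 3 5)).eval v := by
  simp only [tPrem, List.mem_cons, List.not_mem_nil, or_false, forall_eq_or_imp, forall_eq] at h
  obtain ⟨h1, h2, h3⟩ := h
  cases τ <;> cases σ <;>
    simp only [sRh, Fm.iff, xor2, Fm.eval, Bool.false_eq_true, if_false, if_true] at h1 h2 h3 ⊢ <;>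
    (by_cases a1 : v 1 <;> by_cases a4 : v 4 <;> by_cases a5 : v 5 <;> simp_all)

lemma t_valid2 (σ : Bool) (v : ℕ → Prop) (h : ∀ p ∈ tPrem false σ (!σ) 4, p.eval v) :
    (Fm.iff (.var 2) (sRh true 3 4)).eval v := by
  simp only [tPrem, List.mem_cons, List.not_mem_nil, or_false, forall_eq_or_imp, forall_eq] at h
  obtain ⟨h1, h2, h3⟩ := h
  cases σ <;>
    simp only [sRh, Fm.iff, xor2, Fm.eval, Bool.false_eq_true, if_false, if_true, Bool.not_true,
      Bool.not_false] at h1 h2 h3 ⊢ <;>
    (by_cases a1 : v 1 <;> by_cases a4 : v 4 <;> simp_all)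

/-- The formula `B`, or the exclusive or of `B` and the variable `a`. -/
def tt (n : ℕ) (τ : Bool) (a : ℕ) (B : Fm (Fin n ⊕ ℕ)) : Fm (Fin n ⊕ ℕ) :=
  if τ then xor2 B (vX n a) else B

/-- The relation between two chains. -/
def tE (n b b' a i : ℕ) : Fm (Fin n ⊕ ℕ) :=
  Fm.iff (vQ n b' i) (tt n (decide (a < i)) a (vQ n b i))

/-- Toggling the membership of `a`. -/
def tog (S : ℕ → Bool) (a : ℕ) : ℕ → Bool := fun i => xor (S i) (decide (i = a))

lemma tE_size (n b b' a i : ℕ) : (tE n b b' a i).size ≤ 23 := by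
  have h1 := vX_size n a
  have h2 := vQ_size n b i
  have h3 := vQ_size n b' i
  unfold tE tt
  split_ifs
  · simp only [Fm.iff, xor2, Fm.size]
    omega
  · simp only [Fm.iff, Fm.size]
    omega

lemma ae_toggle {k b b' : ℕ} (S : ℕ → Bool) (a N : ℕ) (hb : b + N ≤ k) (hb' : b' + N ≤ k) :
    ∀ i ≤ N, Ae F Γ k (chain n b S N ++ chain n b' (tog S a) N) [tE n b b' a i] (F.K + 23)
      (i * (3 * F.K) + 2 * F.K) := by
  have hK := F.K_pos
  intro i
  induction i with
  | zero =>
    intro _
    have h := Ae.rule (F := F) (Γ := Γ) (k := k) [] (Fm.iff .bot .bot) [] (by decide)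
      (by intro v _; exact ⟨fun h => h, fun h => h⟩) (by simp) (by simp)
    exact h.mono (by simp) (by omega) (by omega)
  | succ i ih =>
    intro hi
    have h1 := ih (by omega)
    have hθ : ∀ y ∈ [vQ n b' i, vQ n b i, vQ n b' (i + 1), vQ n b (i + 1), vX n i, vX n a],
        y.size ≤ 1 ∧ Below k y := by
      intro y hy
      simp only [List.mem_cons, List.not_mem_nil, or_false] at hy
      rcases hy with rfl | rfl | rfl | rfl | rfl | rfl
      · exact ⟨(vQ_size _ _ _).le, vQ_below (by omega)⟩
      · exact ⟨(vQ_size _ _ _).le, vQ_below (by omega)⟩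
      · exact ⟨(vQ_size _ _ _).le, vQ_below (by omega)⟩
      · exact ⟨(vQ_size _ _ _).le, vQ_below (by omega)⟩
      · exact ⟨(vX_size _ _).le, vX_below _ _ _⟩
      · exact ⟨(vX_size _ _).le, vX_below _ _ _⟩
    have h2 : Ae F Γ k [tE n b b' a i, cAx n b S i, cAx n b' (tog S a) i]
        [tE n b b' a (i + 1)] F.K (2 * F.K) := by
      by_cases hia : i = a
      · subst hia
        have h := Ae.rule (F := F) (Γ := Γ) (k := k) (tPrem false (S i) (!(S i)) 4)
          (Fm.iff (.var 2) (sRh true 3 4)) _ (t_test2 (S i)) (t_valid2 (S i))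
          (fun y hy => (hθ y hy).1) (fun y hy => (hθ y hy).2)
        have e1 : (tPrem false (S i) (!(S i)) 4).map (fun p => p.subst
            (sub [vQ n b' i, vQ n b i, vQ n b' (i + 1), vQ n b (i + 1), vX n i, vX n i]))
            = [tE n b b' i i, cAx n b S i, cAx n b' (tog S i) i] := by
          unfold tPrem tE cAx cRh sRh tt tog
          rcases Bool.eq_false_or_eq_true (S i) with h1 | h1 <;>
            simp [h1, Fm.subst, sub, xor2, Fm.iff, vQ]
        have e2 : (Fm.iff (.var 2) (sRh true 3 4) : Fm ℕ).subst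
            (sub [vQ n b' i, vQ n b i, vQ n b' (i + 1), vQ n b (i + 1), vX n i, vX n i])
            = tE n b b' i (i + 1) := by
          unfold tE sRh tt
          simp [Fm.subst, sub, xor2, Fm.iff]
        rw [e1, e2] at h
        exact h
      · have h := Ae.rule (F := F) (Γ := Γ) (k := k) (tPrem (decide (a < i)) (S i) (S i) 5)
          (Fm.iff (.var 2) (sRh (decide (a < i)) 3 5)) _ (t_test1 _ (S i)) (t_valid1 _ (S i))
          (fun y hy => (hθ y hy).1) (fun y hy => (hθ y hy).2)
        have e0 : decide (a < i + 1) = decide (a < i) := by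
          rw [decide_eq_decide]
          omega
        have e1 : (tPrem (decide (a < i)) (S i) (S i) 5).map (fun p => p.subst
            (sub [vQ n b' i, vQ n b i, vQ n b' (i + 1), vQ n b (i + 1), vX n i, vX n a]))
            = [tE n b b' a i, cAx n b S i, cAx n b' (tog S a) i] := by
          unfold tPrem tE cAx cRh sRh tt tog
          rcases Bool.eq_false_or_eq_true (S i) with h1 | h1 <;>
            rcases Bool.eq_false_or_eq_true (decide (a < i)) with h2 | h2 <;>
            simp [h1, h2, hia, Fm.subst, sub, xor2, Fm.iff, vQ]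
        have e2 : (Fm.iff (.var 2) (sRh (decide (a < i)) 3 5) : Fm ℕ).subst
            (sub [vQ n b' i, vQ n b i, vQ n b' (i + 1), vQ n b (i + 1), vX n i, vX n a])
            = tE n b b' a (i + 1) := by
          unfold tE sRh tt
          rw [e0]
          rcases Bool.eq_false_or_eq_true (decide (a < i)) with h2 | h2 <;>
            simp [h2, Fm.subst, sub, xor2, Fm.iff]
        rw [e1, e2] at h
        exact h
    have h3 := Ae.trans (U := F.K + 23) h1 (h2.mono
      (X := [tE n b b' a i] ++ (chain n b S N ++ chain n b' (tog S a) N)) (by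
      intro ψ hψ
      simp only [List.mem_cons, List.not_mem_nil, or_false] at hψ
      rcases hψ with rfl | rfl | rfl
      · simp
      · exact List.mem_append_right _ (List.mem_append_left _ (mem_chain (by omega)))
      · exact List.mem_append_right _ (List.mem_append_right _ (mem_chain (by omega))))
      le_rfl le_rfl) le_rfl (by
      have := tE_size n b b' a i
      simp only [lsize_cons, lsize_nil]
      omega)
    refine h3.mono (fun _ h => h) le_rfl ?_
    rw [Nat.add_mul]
    omega

/-- One toggle. -/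
lemma run_toggle {s T k b : ℕ} {L : List (Fm (Fin n ⊕ ℕ))} (S : ℕ → Bool) (a : ℕ)
    (h : RunE F.rules Γ s T k (L ++ chain n b S n)) (hb : b + n ≤ k)
    (hs : lsize L + 46 * n + F.K + 50 ≤ s) :
    ∃ T', T' ≤ T + (n + n * (3 * F.K) + 2 * F.K + 1) ∧
      RunE F.rules Γ s T' (k + n) ((tE n b k a n :: L) ++ chain n k (tog S a) n) := by
  have l1 := lsize_chain n b S n
  have l2 := lsize_chain n k (tog S a) n
  have h1 := run_chain (tog S a) h n (by
    rw [lsize_append]
    omega)
  obtain ⟨T1, a1, b1⟩ := ae_toggle (F := F) (Γ := Γ) (k := k + n) (b := b) (b' := k) S a n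
    (by omega) le_rfl n le_rfl s _ _ h1 (by
      intro ψ hψ
      simp only [List.mem_append] at hψ ⊢
      tauto) (by
      rw [lsize_append, lsize_append]
      omega)
  have l3 := tE_size n b k a n
  refine ⟨T1 + 1, by omega, b1.erase ?_ ?_⟩
  · intro ψ hψ
    simp only [List.mem_append, List.mem_cons, List.not_mem_nil, or_false] at hψ ⊢
    tauto
  · rw [lsize_append, lsize_cons]
    omega

/-- The schematic premises of the use of an equation. -/
def eqPrem (v r : Bool) : List (Fm ℕ) :=
  [LineSize.litF v (.var 0), Fm.iff (.var 1) (xor2 (.var 0) (.var 4)),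
    Fm.iff (.var 2) (xor2 (.var 1) (.var 5)), Fm.iff (.var 3) (xor2 (.var 2) (.var 6)),
    LineSize.litF r (xor2 (xor2 (.var 4) (.var 5)) (.var 6))]

lemma eq_test (v r : Bool) :
    smallTest (eqPrem v r) (LineSize.litF (xor v r) (.var 3)) = true := by
  cases v <;> cases r <;> decide

lemma eq_valid (v r : Bool) (w : ℕ → Prop) (h : ∀ p ∈ eqPrem v r, p.eval w) :
    (LineSize.litF (xor v r) (.var 3) : Fm ℕ).eval w := by
  simp only [eqPrem, List.mem_cons, List.not_mem_nil, or_false, forall_eq_or_imp, forall_eq] at h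
  obtain ⟨h1, h2, h3, h4, h5⟩ := h
  cases v <;> cases r <;>
    simp only [LineSize.litF, Fm.iff, xor2, Fm.eval, Bool.false_eq_true, if_false, if_true,
      Bool.xor_false, Bool.xor_true, Bool.not_true, Bool.not_false] at h1 h2 h3 h4 h5 ⊢ <;>
    (by_cases a4 : w 4 <;> by_cases a5 : w 5 <;> by_cases a6 : w 6 <;> simp_all)

lemma litF_subst (p : Bool) (φ : Fm ℕ) (σ : ℕ → Fm (Fin n ⊕ ℕ)) :
    (LineSize.litF p φ).subst σ = LineSize.litF p (φ.subst σ) := by
  cases p <;> simp [LineSize.litF, Fm.subst]

lemma tE_full {b b' a : ℕ} (ha : a < n) :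
    tE n b b' a n = Fm.iff (vQ n b' n) (xor2 (vQ n b n) (vX n a)) := by
  unfold tE tt
  simp [ha]

lemma xorF_lift (c : Cl n) : (xorF c).subst (fun i => (.var (Sum.inl i) : Fm (Fin n ⊕ ℕ)))
    = LineSize.litF (clRhs c)
      (xor2 (xor2 (vX n (c.1 0)) (vX n (c.1 1))) (vX n (c.1 2))) := by
  unfold xorF LineSize.litF xF
  split_ifs <;> simp [Fm.subst, xor2, vX]

lemma litF_lsize (v : Bool) (b : ℕ) : (LineSize.litF v (vQ n b n)).size ≤ 2 := by
  have := vQ_size n b n
  unfold LineSize.litF
  split_ifs
  · omega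
  · simp only [Fm.size]
    omega

/-- Adding an equation. -/
lemma run_eq {s T k b : ℕ} (S : ℕ → Bool) (v : Bool) (c : Cl n)
    (hc : (xorF c).subst (fun i => (.var (Sum.inl i) : Fm (Fin n ⊕ ℕ))) ∈ Γ)
    (h : RunE F.rules Γ s T k ([LineSize.litF v (vQ n b n)] ++ chain n b S n)) (hb : b + n ≤ k)
    (hn : 1 ≤ n) (hs : 46 * n + 200 + F.K ≤ s) :
    ∃ T' k' b', T' ≤ T + 25 * (F.K * n) ∧ b' + n ≤ k' ∧
      RunE F.rules Γ s T' k' ([LineSize.litF (xor v (clRhs c)) (vQ n b' n)]
        ++ chain n b' (tog (tog (tog S (c.1 0)) (c.1 1)) (c.1 2)) n) := by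
  have hK := F.K_pos
  have l0 := litF_lsize (n := n) v b
  obtain ⟨T1, a1, b1⟩ := run_toggle S (c.1 0) h hb (by
    rw [lsize_cons, lsize_nil]
    omega)
  have l1 := tE_size n b k (c.1 0) n
  obtain ⟨T2, a2, b2⟩ := run_toggle (tog S (c.1 0)) (c.1 1) b1 le_rfl (by
    rw [lsize_cons, lsize_cons, lsize_nil]
    omega)
  have l2 := tE_size n k (k + n) (c.1 1) n
  obtain ⟨T3, a3, b3⟩ := run_toggle (tog (tog S (c.1 0)) (c.1 1)) (c.1 2) b2 le_rfl (by
    rw [lsize_cons, lsize_cons, lsize_cons, lsize_nil]
    omega)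
  have l3 := tE_size n (k + n) (k + n + n) (c.1 2) n
  have l4 := lsize_chain n (k + n + n) (tog (tog (tog S (c.1 0)) (c.1 1)) (c.1 2)) n
  set φ := (xorF c).subst (fun i => (.var (Sum.inl i) : Fm (Fin n ⊕ ℕ))) with hφ
  have l5 : φ.size ≤ 27 := by
    rw [hφ, xorF_lift]
    have e1 := vX_size n (c.1 0)
    have e2 := vX_size n (c.1 1)
    have e3 := vX_size n (c.1 2)
    unfold LineSize.litF
    split_ifs
    · simp only [xor2, Fm.size]
      omega
    · simp only [xor2, Fm.size]
      omega
  have hφb : Below (k + n + n + n) φ := by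
    rw [hφ]
    intro j hj
    exfalso
    revert hj
    unfold xorF xF
    split_ifs <;> simp [Fm.subst, xor2, Fm.Occurs]
  obtain ⟨T4, a4, b4⟩ := (Ae.hyp (F := F) hc hφb) s T3 _ b3 (by simp) (by
    simp only [lsize_append, lsize_cons, lsize_nil]
    omega)
  have hr := Ae.rule (F := F) (Γ := Γ) (k := k + n + n + n) (eqPrem v (clRhs c))
    (LineSize.litF (xor v (clRhs c)) (.var 3))
    [vQ n b n, vQ n k n, vQ n (k + n) n, vQ n (k + n + n) n, vX n (c.1 0), vX n (c.1 1),
      vX n (c.1 2)] (eq_test _ _) (eq_valid _ _) (by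
      intro y hy
      simp only [List.mem_cons, List.not_mem_nil, or_false] at hy
      rcases hy with rfl | rfl | rfl | rfl | rfl | rfl | rfl
      · exact (vQ_size _ _ _).le
      · exact (vQ_size _ _ _).le
      · exact (vQ_size _ _ _).le
      · exact (vQ_size _ _ _).le
      · exact (vX_size _ _).le
      · exact (vX_size _ _).le
      · exact (vX_size _ _).le) (by
      intro y hy
      simp only [List.mem_cons, List.not_mem_nil, or_false] at hy
      rcases hy with rfl | rfl | rfl | rfl | rfl | rfl | rfl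
      · exact vQ_below (by omega)
      · exact vQ_below (by omega)
      · exact vQ_below (by omega)
      · exact vQ_below (by omega)
      · exact vX_below _ _ _
      · exact vX_below _ _ _
      · exact vX_below _ _ _)
  have e1 : (eqPrem v (clRhs c)).map (fun p => p.subst
      (sub [vQ n b n, vQ n k n, vQ n (k + n) n, vQ n (k + n + n) n, vX n (c.1 0), vX n (c.1 1),
      vX n (c.1 2)])) = [LineSize.litF v (vQ n b n), tE n b k (c.1 0) n,
        tE n k (k + n) (c.1 1) n, tE n (k + n) (k + n + n) (c.1 2) n, φ] := by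
    rw [tE_full (c.1 0).2, tE_full (c.1 1).2, tE_full (c.1 2).2, hφ, xorF_lift]
    unfold eqPrem
    simp [litF_subst, Fm.subst, sub, xor2, Fm.iff]
  have e2 : (LineSize.litF (xor v (clRhs c)) (.var 3) : Fm ℕ).subst
      (sub [vQ n b n, vQ n k n, vQ n (k + n) n, vQ n (k + n + n) n, vX n (c.1 0), vX n (c.1 1),
      vX n (c.1 2)]) = LineSize.litF (xor v (clRhs c)) (vQ n (k + n + n) n) := by
    rw [litF_subst]
    simp [Fm.subst, sub]
  rw [e1, e2] at hr
  obtain ⟨T5, a5, b5⟩ := hr s T4 _ b4 (by
    intro ψ hψ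
    simp only [List.mem_append, List.mem_cons, List.not_mem_nil, or_false] at hψ ⊢
    tauto) (by
    simp only [lsize_append, lsize_cons, lsize_nil]
    omega)
  have l6 := litF_lsize (n := n) (xor v (clRhs c)) (k + n + n)
  refine ⟨T5 + 1, k + n + n + n, k + n + n, ?_, le_rfl, b5.erase ?_ ?_⟩
  · have k1 : n ≤ F.K * n := Nat.le_mul_of_pos_left _ hK
    have k2 : F.K ≤ F.K * n := Nat.le_mul_of_pos_right _ hn
    have k3 : n * (3 * F.K) = 3 * (F.K * n) := by ring
    rw [k3] at a1 a2 a3
    omega
  · intro ψ hψ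
    simp only [List.mem_append, List.mem_cons, List.not_mem_nil, or_false] at hψ ⊢
    tauto
  · simp only [lsize_append, lsize_cons, lsize_nil]
    omega

/-- The variable with index `i` occurs in the clause. -/
noncomputable def memF (c : Cl n) (i : ℕ) : Bool := decide (∃ h : i < n, (⟨i, h⟩ : Fin n) ∈ clSup c)

lemma tog3 (S : ℕ → Bool) (c : Cl n) :
    tog (tog (tog S (c.1 0)) (c.1 1)) (c.1 2) = fun i => xor (S i) (memF c i) := by
  funext i
  have h01 : ((c.1 0 : Fin n) : ℕ) ≠ (c.1 1 : Fin n) := fun h => by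
    have := c.1.injective (Fin.ext h)
    exact absurd this (by decide)
  have h02 : ((c.1 0 : Fin n) : ℕ) ≠ (c.1 2 : Fin n) := fun h => by
    have := c.1.injective (Fin.ext h)
    exact absurd this (by decide)
  have h12 : ((c.1 1 : Fin n) : ℕ) ≠ (c.1 2 : Fin n) := fun h => by
    have := c.1.injective (Fin.ext h)
    exact absurd this (by decide)
  have hmem : memF c i = decide (i = (c.1 0 : Fin n) ∨ i = (c.1 1 : Fin n) ∨ i = (c.1 2 : Fin n)) := by
    unfold memF
    rw [decide_eq_decide]
    constructor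
    · rintro ⟨h, hi⟩
      unfold clSup at hi
      rw [Finset.mem_map] at hi
      obtain ⟨j, _, hj⟩ := hi
      have hj' : ((c.1 j : Fin n) : ℕ) = i := congrArg Fin.val hj
      fin_cases j
      · exact Or.inl hj'.symm
      · exact Or.inr (Or.inl hj'.symm)
      · exact Or.inr (Or.inr hj'.symm)
    · rintro (h | h | h)
      · subst h
        exact ⟨(c.1 0).2, Finset.mem_map_of_mem _ (Finset.mem_univ 0)⟩
      · subst h
        exact ⟨(c.1 1).2, Finset.mem_map_of_mem _ (Finset.mem_univ 1)⟩
      · subst h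
        exact ⟨(c.1 2).2, Finset.mem_map_of_mem _ (Finset.mem_univ 2)⟩
  rw [hmem]
  unfold tog
  by_cases e0 : i = (c.1 0 : Fin n)
  · subst e0
    simp [h01, h02]
  · by_cases e1 : i = (c.1 1 : Fin n)
    · subst e1
      simp [e0, h12]
    · by_cases e2 : i = (c.1 2 : Fin n)
      · subst e2
        simp [e0, e1]
      · simp [e0, e1, e2]

/-- Adding all the equations of a list. -/
lemma run_eqs {m s : ℕ} (A : Fin m → Cl n)
    (hA : ∀ u, (xorF (A u)).subst (fun i => (.var (Sum.inl i) : Fm (Fin n ⊕ ℕ))) ∈ Γ)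
    (hn : 1 ≤ n) (hs : 46 * n + 200 + F.K ≤ s) (us : List (Fin m)) :
    ∀ (T k b : ℕ) (S : ℕ → Bool) (v : Bool),
      RunE F.rules Γ s T k ([LineSize.litF v (vQ n b n)] ++ chain n b S n) → b + n ≤ k →
      ∃ T' k' b', T' ≤ T + us.length * (25 * (F.K * n)) ∧ b' + n ≤ k' ∧
        RunE F.rules Γ s T' k' ([LineSize.litF (xor v (valB (fun u => clRhs (A u)) us))
          (vQ n b' n)] ++ chain n b' (fun i => xor (S i) (valB (fun u => memF (A u) i) us)) n) := by
  induction us with
  | nil =>
    intro T k b S v h hb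
    refine ⟨T, k, b, by simp, hb, ?_⟩
    simpa [valB] using h
  | cons u us ih =>
    intro T k b S v h hb
    obtain ⟨T1, k1, b1, e1, e2, e3⟩ := run_eq S v (A u) (hA u) h hb hn hs
    rw [tog3] at e3
    obtain ⟨T2, k2, b2, f1, f2, f3⟩ := ih T1 k1 b1 _ _ e3 e2
    refine ⟨T2, k2, b2, ?_, f2, ?_⟩
    · rw [List.length_cons, Nat.add_mul]
      omega
    · have g1 : xor v (valB (fun u => clRhs (A u)) (u :: us))
          = xor (xor v (clRhs (A u))) (valB (fun u => clRhs (A u)) us) := by
        have : valB (fun u => clRhs (A u)) (u :: us)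
            = xor (clRhs (A u)) (valB (fun u => clRhs (A u)) us) := rfl
        rw [this, Bool.xor_assoc]
      have g2 : (fun i => xor (S i) (valB (fun u => memF (A u) i) (u :: us)))
          = fun i => xor (xor (S i) (memF (A u) i)) (valB (fun u => memF (A u) i) us) := by
        funext i
        have : valB (fun u => memF (A u) i) (u :: us)
            = xor (memF (A u) i) (valB (fun u => memF (A u) i) us) := rfl
        rw [this, Bool.xor_assoc]
      rw [g1, g2]
      exact f3

lemma valB_false {V : Type} (us : List V) : valB (fun _ : V => false) us = false := by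
  induction us with
  | nil => rfl
  | cons u us ih =>
    have : valB (fun _ : V => false) (u :: us) = xor false (valB (fun _ : V => false) us) := rfl
    rw [this, ih]
    rfl

/-- The contradictory sum, as a list. -/
lemma list_spec {m : ℕ} (A : Fin m → Cl n)
    (h : ¬ ∃ x : Fin n → Bool, ∀ i, chi (clSup (A i)) x = sg (clRhs (A i))) :
    1 ≤ m ∧ 1 ≤ n ∧ ∃ us : List (Fin m), us.length ≤ m ∧
      (∀ i, valB (fun u => memF (A u) i) us = false) ∧
      valB (fun i => clRhs (A i)) us = true := by
  classical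
  obtain ⟨hm, hn, -⟩ := big_spec A h
  obtain ⟨S, hS1, hS2⟩ := exists_contradictory (fun i => clSup (A i)) (fun i => clRhs (A i)) h
  refine ⟨hm, hn, S.toList, ?_, ?_, ?_⟩
  · rw [Finset.length_toList]
    exact (Finset.card_le_univ S).trans (by simp)
  · intro i
    by_cases hi : i < n
    · set x : Fin n → Bool := fun j => decide (j = ⟨i, hi⟩) with hx
      have h1 := valB_sg (fun u => memF (A u) i) S.toList
      have h2 : (fun u => sg (memF (A u) i)) = fun u => chi (clSup (A u)) x := by
        funext u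
        have h3 : chi (clSup (A u)) x = if (⟨i, hi⟩ : Fin n) ∈ clSup (A u) then -1 else 1 := by
          unfold chi
          by_cases hmem : (⟨i, hi⟩ : Fin n) ∈ clSup (A u)
          · rw [if_pos hmem, Finset.prod_eq_single_of_mem _ hmem]
            · simp [hx, sg]
            · intro j _ hj
              simp [hx, hj, sg]
          · rw [if_neg hmem]
            apply Finset.prod_eq_one
            intro j hj
            have hj' : j ≠ ⟨i, hi⟩ := fun h => hmem (h ▸ hj)
            simp [hx, hj', sg]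
        rw [h3]
        unfold memF
        by_cases hmem : (⟨i, hi⟩ : Fin n) ∈ clSup (A u)
        · simp [hmem, hi, sg]
        · simp [hmem, sg]
      rw [h2, Finset.prod_map_toList, hS1 x] at h1
      by_contra hcon
      have hcon' : valB (fun u => memF (A u) i) S.toList = true := by simpa using hcon
      rw [hcon'] at h1
      norm_num [sg] at h1
    · have h1 : (fun u => memF (A u) i) = fun _ : Fin m => false := by
        funext u
        unfold memF
        simp [hi]
      rw [h1, valB_false]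
  · have h1 := valB_sg (fun i => clRhs (A i)) S.toList
    rw [Finset.prod_map_toList] at h1
    have h2 : sg (valB (fun i => clRhs (A i)) S.toList) = -1 := h1.trans hS2
    by_contra hcon
    have hcon' : valB (fun i => clRhs (A i)) S.toList = false := by simpa using hcon
    rw [hcon'] at h2
    norm_num [sg] at h2

end Chains

variable {n m : ℕ}

/-- Extended Frege refutations of linear space of contradictory systems. -/
theorem ef_xor (F : FregeSystem) (A : Fin m → Cl n)
    (h : ¬ ∃ x : Fin n → Bool, ∀ i, chi (clSup (A i)) x = sg (clRhs (A i))) :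
    ∃ T k M, T ≤ 300 * F.K * (m * n) ∧ RunE F.rules (lift (xors A)) (300 * F.K * n) T k M ∧
      Fm.bot ∈ M := by
  classical
  obtain ⟨hm, hn, us, hus, hmemF, hval⟩ := list_spec A h
  have hK := F.K_pos
  have k1 : n ≤ F.K * n := Nat.le_mul_of_pos_left _ hK
  have k2 : F.K ≤ F.K * n := Nat.le_mul_of_pos_right _ hn
  have k0 : 300 * F.K * n = 300 * (F.K * n) := by ring
  set s := 300 * F.K * n with hs
  have hs1 : 46 * n + 200 + F.K ≤ s := by
    rw [k0]
    omega
  have hA : ∀ u, (xorF (A u)).subst (fun i => (.var (Sum.inl i) : Fm (Fin n ⊕ ℕ)))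
      ∈ lift (xors A) := fun u =>
    List.mem_map_of_mem (f := Fm.subst fun i => (.var (Sum.inl i) : Fm (Fin n ⊕ ℕ)))
      (List.mem_ofFn.mpr ⟨u, rfl⟩)
  have h0 : RunE F.rules (lift (xors A)) s 0 0 [] := .start
  have h1 := run_chain (n := n) (fun _ => false) h0 n (by
    rw [lsize_nil]
    omega)
  rw [Nat.zero_add, List.append_nil] at h1
  have l1 := lsize_chain n 0 (fun _ => false) n
  obtain ⟨T2, a2, b2⟩ := ae_zero (F := F) (Γ := lift (xors A)) (k := n) (b := 0)
    (fun _ => false) n (by omega) (fun _ _ => rfl) n le_rfl s _ _ h1 (fun _ h => h) (by omega)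
  obtain ⟨T3, k3, b3, a3, c3, d3⟩ := run_eqs A hA hn hs1 us T2 n 0 (fun _ => false) false b2
    (by omega)
  rw [hval] at d3
  have hS : (fun i => xor false (valB (fun u => memF (A u) i) us)) = fun _ : ℕ => false := by
    funext i
    rw [hmemF i]
    rfl
  rw [hS] at d3
  have l3 := lsize_chain n b3 (fun _ => false) n
  have l4 := litF_lsize (n := n) (xor false true) b3
  obtain ⟨T4, a4, b4⟩ := ae_zero (F := F) (Γ := lift (xors A)) (k := k3) (b := b3)
    (fun _ => false) n c3 (fun _ _ => rfl) n le_rfl s _ _ d3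
    (fun ψ hψ => List.mem_append_right _ hψ) (by
      rw [lsize_append, lsize_cons, lsize_nil]
      omega)
  have hr := Ae.rule (F := F) (Γ := lift (xors A)) (k := k3) [.var 0, .neg (.var 0)] .bot
    [vQ n b3 n] (by decide) (by
      intro v h
      simp only [List.mem_cons, List.not_mem_nil, or_false, forall_eq_or_imp, forall_eq,
        Fm.eval] at h
      exact absurd h.1 h.2) (by
      intro y hy
      simp only [List.mem_cons, List.not_mem_nil, or_false] at hy
      subst hy
      exact (vQ_size _ _ _).le) (by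
      intro y hy
      simp only [List.mem_cons, List.not_mem_nil, or_false] at hy
      subst hy
      exact vQ_below c3)
  obtain ⟨T5, a5, b5⟩ := hr s T4 _ b4 (by
    intro ψ hψ
    simp only [List.map_cons, List.map_nil, List.mem_cons, List.not_mem_nil, or_false] at hψ
    rcases hψ with rfl | rfl
    · simp [sub, Fm.subst, LineSize.litF]
    · simp [sub, Fm.subst]) (by
    have := vQ_size n b3 n
    simp only [lsize_append, lsize_cons, lsize_nil, Fm.size]
    omega)
  refine ⟨T5, k3, _, ?_, b5, by simp [Fm.subst]⟩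
  have k3 : n * (3 * F.K) = 3 * (F.K * n) := by ring
  have k4 : F.K * n ≤ F.K * (m * n) := Nat.mul_le_mul_left _ (Nat.le_mul_of_pos_left _ hm)
  have k5 : us.length * (25 * (F.K * n)) ≤ 25 * (F.K * (m * n)) := by
    calc us.length * (25 * (F.K * n)) ≤ m * (25 * (F.K * n)) := Nat.mul_le_mul_right _ hus
      _ = _ := by ring
  have k6 : 300 * F.K * (m * n) = 300 * (F.K * (m * n)) := by ring
  rw [k3] at a2 a4
  rw [k6]
  omega

end Xor

end GridLine
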