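import Pool.Agent.Work.MP_c07f0d_lc.TL.HierB

/-!
# Approximants of all formulas of bounded size, as operators
-/

set_option linter.unusedSectionVars false

namespace GridLine

open Finset LineSize FregeEF

variable {ι : Type} [Fintype ι] [DecidableEq ι]

/-- A family of approximants of the formulas of size at most `B`: they have degree at most `d`,
they are idempotent and compatible with the connectives up to `e`, as operators on the functions
of degree at most `T`. -/
structure FmFam (P : PE ι) (p : Fm ι → (ι → Bool) → ℝ) (B d T : ℕ) (e : ℝ) : Prop where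
  deg : ∀ φ : Fm ι, φ.size ≤ B → LowDeg d (p φ)
  idem : ∀ φ : Fm ι, φ.size ≤ B → P.Bd T (fun x => p φ x ^ 2 - p φ x) e
  bot' : ∀ x, p .bot x = 0
  top' : ∀ x, p (.neg .bot) x = 1
  neg' : ∀ φ : Fm ι, (Fm.neg φ).size ≤ B → P.Bd T (fun x => p (.neg φ) x - (1 - p φ x)) e
  and' : ∀ φ ψ : Fm ι, (Fm.and φ ψ).size ≤ B →
    P.Bd T (fun x => p (.and φ ψ) x - p φ x * p ψ x) e
  or' : ∀ φ ψ : Fm ι, (Fm.or φ ψ).size ≤ B →
    P.Bd T (fun x => p (.or φ ψ) x - (p φ x + p ψ x - p φ x * p ψ x)) e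
  imp' : ∀ φ ψ : Fm ι, (Fm.imp φ ψ).size ≤ B →
    P.Bd T (fun x => p (.imp φ ψ) x - (1 - p φ x + p φ x * p ψ x)) e

/-- The family of approximants of the formulas of size at most `m ^ (J + 1)`. -/
theorem fm_fam (P : PE ι) {m q J T : ℕ} (hm : 2 ≤ m)
    (hq : 400 * (m : ℝ) ^ (J + 2) * eJ m q J ≤ 1)
    (hcap : T + dJ m q J + (J + 1) * (18 * m * dJ m q J) ≤ P.cap) :
    ∃ p : Fm ι → (ι → Bool) → ℝ,
      FmFam P p (m ^ (J + 1)) (dJ m q J) T (10 * m ^ (J + 1) * eJ m q J) ∧
      (∀ φ : Fm ι, φ.size < m → p φ = fun x => bv ((nf true φ).ev x)) := by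
  set d := dJ m q J with hd
  set ε := eJ m q J with hεdef
  set S := m ^ (J + 1) with hS
  have hε : 0 ≤ ε := by
    rw [hεdef]
    unfold eJ
    positivity
  have hmR : (2 : ℝ) ≤ m := by exact_mod_cast hm
  have hSR : ((S : ℕ) : ℝ) = (m : ℝ) ^ (J + 1) := by rw [hS]; push_cast; ring
  have hS1 : (1 : ℝ) ≤ (m : ℝ) ^ (J + 1) := one_le_pow₀ (by linarith)
  have hq0 : 400 * (m : ℝ) * ((m : ℝ) ^ (J + 1)) * ε ≤ 1 := by
    have : 400 * (m : ℝ) ^ (J + 2) * ε = 400 * (m : ℝ) * ((m : ℝ) ^ (J + 1)) * ε := by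
      rw [pow_succ]; ring
    rw [← this]
    exact hq
  have hq1 : 400 * (m : ℝ) * ε ≤ 1 := by
    have : 400 * (m : ℝ) * ε * 1 ≤ 400 * (m : ℝ) * ε * ((m : ℝ) ^ (J + 1)) :=
      mul_le_mul_of_nonneg_left hS1 (by positivity)
    nlinarith
  have hSε : 800 * ((m : ℝ) ^ (J + 1) * ε) ≤ 1 := by
    have h3 : ((m : ℝ) ^ (J + 1) * ε) * 2 ≤ ((m : ℝ) ^ (J + 1) * ε) * m :=
      mul_le_mul_of_nonneg_left hmR (by positivity)
    nlinarith
  have hε1 : 800 * ε ≤ 1 := by nlinarith
  obtain ⟨A, hA, hAex⟩ := hier P (m := m) (q := q) (J := J) (t := T + d) hm hq1 hcap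
  have hcap2 : T + d + 2 * d ≤ P.cap := by
    refine le_trans ?_ hcap
    have : 2 * d ≤ (J + 1) * (18 * m * d) := by
      calc 2 * d ≤ m * d := Nat.mul_le_mul_right _ hm
        _ ≤ 18 * m * d := by rw [mul_assoc]; omega
        _ ≤ (J + 1) * (18 * m * d) := Nat.le_mul_of_pos_left _ (by omega)
    omega
  have lt : ∀ φ : Fm ι, φ.size ≤ S → ∀ s, (nf s φ).leaves ≤ S := fun φ hφ s =>
    (nf_leaves φ s).trans hφ
  have hdef := dfc_bd (t1 := T) hA hε le_rfl hcap2
  have hle1 : ε ≤ 10 * (m : ℝ) ^ (J + 1) * ε := by nlinarith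
  have hpow : ∀ φ : Fm ι, φ.size ≤ S → (1 + ε) ^ φ.size ≤ 5 / 4 := by
    intro φ hφ
    apply one_add_pow_le hε
    have : (φ.size : ℝ) ≤ (m : ℝ) ^ (J + 1) := by
      rw [← hSR]; exact_mod_cast hφ
    nlinarith
  have hdef' : ∀ φ : Fm ι, φ.size ≤ S →
      P.Bd T (dfc A φ) (5 / 2 * ((m : ℝ) ^ (J + 1) * ε)) := by
    intro φ hφ
    refine (hdef φ hφ).mono le_rfl ?_
    have h2 : (φ.size : ℝ) ≤ (m : ℝ) ^ (J + 1) := by
      rw [← hSR]; exact_mod_cast hφ
    have h3 := hpow φ hφ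
    calc 2 * ε * φ.size * (1 + ε) ^ φ.size ≤ 2 * ε * (m : ℝ) ^ (J + 1) * (5 / 4) :=
          mul_le_mul (mul_le_mul_of_nonneg_left h2 (by positivity)) h3 (by positivity)
            (by positivity)
      _ = _ := by ring
  refine ⟨fun φ => A (nf true φ), ⟨?_, ?_, ?_, ?_, ?_, ?_, ?_, ?_⟩, ?_⟩
  · intro φ hφ
    exact hA.deg _ (lt φ hφ _)
  · intro φ hφ
    exact (hA.idem _ (lt φ hφ true)).mono (by omega) hle1
  · intro x
    simp only [nf, hA.leaf, Lit.ev]
    simp [bv]
  · intro x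
    simp only [nf, hA.leaf, Lit.ev, Bool.not_true, Bool.not_false]
    simp [bv]
  · intro φ hφ
    simp only [Fm.size] at hφ
    refine ((hdef' φ (by omega)).congr' fun x => ?_).mono le_rfl ?_
    · simp only [dfc, nf, Bool.not_true]
      ring
    · nlinarith [mul_nonneg (zero_le_one.trans hS1) hε]
  · intro φ ψ hφ
    simp only [Fm.size] at hφ
    have l1 := nf_leaves φ true
    have l2 := nf_leaves ψ true
    exact (hA.and' (nf true φ) (nf true ψ) (by omega)).mono (by omega) hle1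
  · intro φ ψ hφ
    simp only [Fm.size] at hφ
    have l1 := nf_leaves φ true
    have l2 := nf_leaves ψ true
    exact (hA.or' (nf true φ) (nf true ψ) (by omega)).mono (by omega) hle1
  · intro φ ψ hφ
    simp only [Fm.size] at hφ
    have l1 := nf_leaves φ false
    have l2 := nf_leaves ψ true
    have l3 := nf_leaves φ true
    have e := hA.or' (nf false φ) (nf true ψ) (by omega)
    have de : LowDeg (2 * d) (fun x => A (.or (nf false φ) (nf true ψ)) x
        - (A (nf false φ) x + A (nf true ψ) x - A (nf false φ) x * A (nf true ψ) x)) :=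
      ((hA.deg (.or (nf false φ) (nf true ψ))
        (by simp only [Tr.leaves]; omega)).mono (by omega)).sub
        ((((hA.deg (nf false φ) (by omega)).mono (by omega)).add
          ((hA.deg (nf true ψ) (by omega)).mono (by omega))).sub (by
          rw [two_mul]
          exact (hA.deg _ (by omega)).mul (hA.deg _ (by omega))))
    have hD := hdef' φ (by omega)
    have hdD : LowDeg d (dfc A φ) := dfc_deg hA (by omega)
    have hg : P.Bd (T + d) (fun x => 1 - A (nf true ψ) x) (1 + ε) :=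
      (PE.Bd.one_sub_idem (hA.deg _ (by omega)) (hA.idem _ (by omega)) hε hcap2)
    have h3 : P.Bd T (fun x => (1 - A (nf true ψ) x) * dfc A φ x)
        ((1 + ε) * (5 / 2 * ((m : ℝ) ^ (J + 1) * ε))) := hg.mul hD hdD (by linarith)
    have d3 : LowDeg (2 * d) (fun x => (1 - A (nf true ψ) x) * dfc A φ x) := by
      rw [two_mul]
      exact ((LowDeg.const d 1).sub (hA.deg _ (by omega))).mul hdD
    have h4 := (e.mono (t' := T) (by omega) le_rfl).add h3 de d3 (by omega)
    refine (h4.congr' fun x => ?_).mono le_rfl ?_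
    · simp only [dfc, nf]
      ring
    · have : 0 ≤ (m : ℝ) ^ (J + 1) * ε := by positivity
      nlinarith
  · intro φ hφ
    show A (nf true φ) = _
    rw [hAex _ ((nf_leaves φ true).trans_lt hφ)]
    rfl

end GridLine
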