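import Pool.Agent.Work.MP_c07f0d_lc.SD.Inst

/-!
# Random clauses with three variables: the final arithmetic
-/

set_option linter.unusedSectionVars false

namespace GridLine

open Finset LineSize FregeEF

namespace Xor

/-- The arithmetic of the comparison of the two bounds. -/
lemma fin3_arith {ε : ℝ} (hε : 0 < ε) (C K a : ℕ) (hK : 1 ≤ K) :
    ∃ δ : ℝ, 0 < δ ∧ ∃ n₀ : ℕ, 768 * K ≤ n₀ ∧ ∀ n : ℕ, n₀ ≤ n → ∀ s T : ℕ,
      (s : ℝ) ≤ (n : ℝ) ^ (2 - ε) → (T : ℝ) ≤ 2 ^ ((n : ℝ) ^ δ) →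
      (s : ℝ) ^ (1 / 2 + ε / 8) * ((a + 2) * Real.log (T + 2)) ^ C ≤ ((n / (256 * K) : ℕ) : ℝ) := by
  set δ : ℝ := ε / (8 * (C + 1)) with hδ
  have hδ0 : 0 < δ := by positivity
  have ha0 : (0 : ℝ) ≤ a := Nat.cast_nonneg a
  set B : ℝ := 2 * (a + 2) with hB
  have hB1 : 1 ≤ B := by linarith
  have hB0 : 0 ≤ B := by linarith
  set X : ℝ := 512 * K * B ^ C with hX
  have hX1 : 1 ≤ X := by
    have h1 : (1 : ℝ) ≤ K := by exact_mod_cast hK
    have h2 : (1 : ℝ) ≤ B ^ C := one_le_pow₀ hB1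
    nlinarith
  refine ⟨δ, hδ0, max (768 * K) ⌈X ^ (8 / ε)⌉₊, le_max_left _ _, ?_⟩
  intro n hn s T hs hT
  have hnK : 768 * K ≤ n := (le_max_left _ _).trans hn
  have hnX : X ^ (8 / ε) ≤ n := by
    have h1 : ⌈X ^ (8 / ε)⌉₊ ≤ n := (le_max_right _ _).trans hn
    exact (Nat.le_ceil _).trans (by exact_mod_cast h1)
  have hn1 : 1 ≤ n := by omega
  have hnR : (1 : ℝ) ≤ n := by exact_mod_cast hn1
  have hn0 : (0 : ℝ) < n := by linarith
  -- the space
  have h1 : (s : ℝ) ^ (1 / 2 + ε / 8) ≤ (n : ℝ) ^ (1 - ε / 4) := by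
    calc (s : ℝ) ^ (1 / 2 + ε / 8) ≤ ((n : ℝ) ^ (2 - ε)) ^ (1 / 2 + ε / 8) :=
          Real.rpow_le_rpow (by positivity) hs (by positivity)
      _ = (n : ℝ) ^ ((2 - ε) * (1 / 2 + ε / 8)) := by rw [← Real.rpow_mul hn0.le]
      _ ≤ (n : ℝ) ^ (1 - ε / 4) := Real.rpow_le_rpow_of_exponent_le hnR (by nlinarith)
  -- the time
  have hnd : (1 : ℝ) ≤ (n : ℝ) ^ δ := Real.one_le_rpow hnR hδ0.le
  have h2 : Real.log (T + 2) ≤ 2 * (n : ℝ) ^ δ := by
    have hp : (1 : ℝ) ≤ 2 ^ ((n : ℝ) ^ δ) := Real.one_le_rpow (by norm_num) (by linarith)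
    have h3 : (T : ℝ) + 2 ≤ 3 * 2 ^ ((n : ℝ) ^ δ) := by linarith
    have h4 : Real.log (T + 2) ≤ Real.log (3 * 2 ^ ((n : ℝ) ^ δ)) :=
      Real.log_le_log (by positivity) h3
    rw [Real.log_mul (by norm_num) (by positivity), Real.log_rpow (by norm_num)] at h4
    have h5 : Real.log 2 ≤ 0.7 := by
      have := Real.log_two_lt_d9
      linarith
    have h6 : Real.log 3 ≤ 1.3 := by
      have h7 : Real.log 3 ≤ Real.log (2 * 2) := Real.log_le_log (by norm_num) (by norm_num)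
      rw [Real.log_mul (by norm_num) (by norm_num)] at h7
      have := Real.log_two_lt_d9
      have h8 : Real.log 3 ≤ 1.4 := by linarith
      have h9 : Real.log (3 ^ 2) ≤ Real.log (2 ^ 3 * (9 / 8)) := by
        apply Real.log_le_log <;> norm_num
      rw [Real.log_pow, Real.log_mul (by norm_num) (by norm_num), Real.log_pow] at h9
      have h10 : Real.log (9 / 8) ≤ 9 / 8 - 1 := Real.log_le_sub_one_of_pos (by norm_num)
      push_cast at h9
      linarith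
    nlinarith
  have hlog0 : 0 ≤ Real.log ((T : ℝ) + 2) := Real.log_nonneg (by
    have : (0 : ℝ) ≤ T := Nat.cast_nonneg T
    linarith)
  have h3 : ((a + 2) * Real.log (T + 2)) ^ C ≤ B ^ C * (n : ℝ) ^ (ε / 8) := by
    calc ((a + 2) * Real.log (T + 2)) ^ C ≤ (B * (n : ℝ) ^ δ) ^ C :=
          pow_le_pow_left₀ (by positivity) (by rw [hB]; nlinarith) C
      _ = B ^ C * (n : ℝ) ^ (δ * C) := by
          rw [mul_pow, ← Real.rpow_natCast ((n : ℝ) ^ δ) C, ← Real.rpow_mul hn0.le]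
      _ ≤ B ^ C * (n : ℝ) ^ (ε / 8) := by
          apply mul_le_mul_of_nonneg_left _ (by positivity)
          apply Real.rpow_le_rpow_of_exponent_le hnR
          rw [hδ, div_mul_eq_mul_div, div_le_div_iff₀ (by positivity) (by norm_num)]
          nlinarith
  -- the capacity
  have h4 : (n : ℝ) / (512 * K) ≤ ((n / (256 * K) : ℕ) : ℝ) := by
    have hK0 : 0 < 256 * K := by omega
    have h5 : n < (n / (256 * K) + 1) * (256 * K) := by
      have := Nat.lt_div_mul_add (a := n) hK0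
      calc n < n / (256 * K) * (256 * K) + 256 * K := this
        _ = _ := by ring
    have h6 : (n : ℝ) ≤ (((n / (256 * K) : ℕ) : ℝ) + 1) * (256 * K) := by
      have : ((n : ℕ) : ℝ) ≤ (((n / (256 * K) + 1) * (256 * K) : ℕ) : ℝ) := by
        exact_mod_cast h5.le
      push_cast at this
      linarith
    have h7 : (768 : ℝ) * K ≤ n := by exact_mod_cast hnK
    have hKR : (1 : ℝ) ≤ K := by exact_mod_cast hK
    rw [div_le_iff₀ (by positivity)]
    nlinarith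
  refine le_trans ?_ h4
  have h5 : X ≤ (n : ℝ) ^ (ε / 8) := by
    have h6 : (X ^ (8 / ε)) ^ (ε / 8) ≤ (n : ℝ) ^ (ε / 8) :=
      Real.rpow_le_rpow (by positivity) hnX (by positivity)
    rw [← Real.rpow_mul (by linarith)] at h6
    have h7 : 8 / ε * (ε / 8) = 1 := by field_simp
    rw [h7, Real.rpow_one] at h6
    exact h6
  have hK0 : (0 : ℝ) < 512 * K := by
    have : (1 : ℝ) ≤ K := by exact_mod_cast hK
    linarith
  rw [le_div_iff₀ hK0]
  have e8 : (n : ℝ) = (n : ℝ) ^ (1 - ε / 4) * (n : ℝ) ^ (ε / 8) * (n : ℝ) ^ (ε / 8) := by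
    rw [← Real.rpow_add hn0, ← Real.rpow_add hn0]
    have : 1 - ε / 4 + ε / 8 + ε / 8 = 1 := by ring
    rw [this, Real.rpow_one]
  calc (s : ℝ) ^ (1 / 2 + ε / 8) * ((a + 2) * Real.log (T + 2)) ^ C * (512 * K)
      ≤ (n : ℝ) ^ (1 - ε / 4) * (B ^ C * (n : ℝ) ^ (ε / 8)) * (512 * K) := by
        apply mul_le_mul_of_nonneg_right _ hK0.le
        exact mul_le_mul h1 h3 (by positivity) (by positivity)
    _ = (n : ℝ) ^ (1 - ε / 4) * (n : ℝ) ^ (ε / 8) * X := by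
        rw [hX]
        ring
    _ ≤ (n : ℝ) ^ (1 - ε / 4) * (n : ℝ) ^ (ε / 8) * (n : ℝ) ^ (ε / 8) :=
        mul_le_mul_of_nonneg_left h5 (by positivity)
    _ = n := e8.symm

end Xor

end GridLine
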