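import Pool.Agent.Work.MP_c07f0d_lc.SD.Hyb

/-!
# Following a derivation with bounded memory
-/

set_option linter.unusedSectionVars false

namespace GridLine

open Finset LineSize FregeEF

variable {ι : Type} [Fintype ι] [DecidableEq ι]

/-- Bounds on the rules. -/
structure RuleBd (R : List Rule) (n a k : ℕ) : Prop where
  occ : ∀ r ∈ R, ∀ A ∈ r.prem, ∀ i, A.Occurs i → i < n
  occ' : ∀ r ∈ R, ∀ i, r.concl.Occurs i → i < n
  size : ∀ r ∈ R, ∀ A ∈ r.prem, A.size ≤ a
  size' : ∀ r ∈ R, r.concl.size ≤ a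
  len : ∀ r ∈ R, r.prem.length ≤ k

/-- A bound on the variables of a formula. -/
def vbd : Fm ℕ → ℕ
  | .var i => i + 1
  | .bot => 0
  | .neg φ => vbd φ
  | .and φ ψ => max (vbd φ) (vbd ψ)
  | .or φ ψ => max (vbd φ) (vbd ψ)
  | .imp φ ψ => max (vbd φ) (vbd ψ)

lemma lt_vbd (φ : Fm ℕ) (i : ℕ) (h : φ.Occurs i) : i < vbd φ := by
  induction φ with
  | var j =>
    simp only [Fm.Occurs] at h
    simp only [vbd]
    omega
  | bot => exact absurd h (by simp [Fm.Occurs])
  | neg φ ih => exact ih h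
  | and φ ψ ih1 ih2 =>
    simp only [vbd]
    rcases h with h | h
    · exact lt_max_of_lt_left (ih1 h)
    · exact lt_max_of_lt_right (ih2 h)
  | or φ ψ ih1 ih2 =>
    simp only [vbd]
    rcases h with h | h
    · exact lt_max_of_lt_left (ih1 h)
    · exact lt_max_of_lt_right (ih2 h)
  | imp φ ψ ih1 ih2 =>
    simp only [vbd]
    rcases h with h | h
    · exact lt_max_of_lt_left (ih1 h)
    · exact lt_max_of_lt_right (ih2 h)

lemma exists_fmBd (l : List (Fm ℕ)) : ∃ n a, ∀ A ∈ l, (∀ i, A.Occurs i → i < n) ∧ A.size ≤ a := by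
  induction l with
  | nil => exact ⟨0, 0, by simp⟩
  | cons φ l ih =>
    obtain ⟨n, a, h⟩ := ih
    refine ⟨max n (vbd φ), max a φ.size, fun A hA => ?_⟩
    rcases List.mem_cons.mp hA with rfl | hA
    · exact ⟨fun i hi => lt_max_of_lt_right (lt_vbd A i hi), le_max_right _ _⟩
    · exact ⟨fun i hi => lt_max_of_lt_left ((h A hA).1 i hi), (h A hA).2.trans (le_max_left _ _)⟩

lemma exists_ruleBd (R : List Rule) : ∃ n a k, RuleBd R n a k := by
  induction R with
  | nil => exact ⟨0, 0, 0, by simp, by simp, by simp, by simp, by simp⟩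
  | cons r R ih =>
    obtain ⟨n, a, k, h⟩ := ih
    obtain ⟨n', a', h'⟩ := exists_fmBd (r.concl :: r.prem)
    have hn : n ≤ max n n' := le_max_left _ _
    have hn' : n' ≤ max n n' := le_max_right _ _
    have ha : a ≤ max a a' := le_max_left _ _
    have ha' : a' ≤ max a a' := le_max_right _ _
    refine ⟨max n n', max a a', max k r.prem.length, ?_, ?_, ?_, ?_, ?_⟩
    · intro r' hr A hA i hi
      rcases List.mem_cons.mp hr with rfl | hr
      · exact ((h' A (by simp [hA])).1 i hi).trans_le hn'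
      · exact (h.occ r' hr A hA i hi).trans_le hn
    · intro r' hr i hi
      rcases List.mem_cons.mp hr with rfl | hr
      · exact ((h' r'.concl (by simp)).1 i hi).trans_le hn'
      · exact (h.occ' r' hr i hi).trans_le hn
    · intro r' hr A hA
      rcases List.mem_cons.mp hr with rfl | hr
      · exact ((h' A (by simp [hA])).2).trans ha'
      · exact (h.size r' hr A hA).trans ha
    · intro r' hr
      rcases List.mem_cons.mp hr with rfl | hr
      · exact ((h' r'.concl (by simp)).2).trans ha'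
      · exact (h.size' r' hr).trans ha
    · intro r' hr
      rcases List.mem_cons.mp hr with rfl | hr
      · exact le_max_right _ _
      · exact (h.len r' hr).trans (le_max_left _ _)

variable {P : PE ι} {p : Fm ι → (ι → Bool) → ℝ} {B d T n a k s : ℕ} {e : ℝ}

/-- The error of one step. -/
noncomputable def stepErr (n a k s : ℕ) (e : ℝ) : ℝ :=
  6 * s * e + (k * (2 * (6 * s * e) + (2 * ((8 * n + 9 : ℝ) ^ a * e) + 8 * n * e) * 2) +
    (8 * n + 9 : ℝ) ^ a * e * 2)

lemma le_stepErr (he : 0 ≤ e) : 6 * (s : ℝ) * e ≤ stepErr n a k s e := by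
  unfold stepErr
  have : 0 ≤ (k : ℝ) * (2 * (6 * s * e) + (2 * ((8 * n + 9 : ℝ) ^ a * e) + 8 * n * e) * 2) +
    (8 * n + 9 : ℝ) ^ a * e * 2 := by positivity
  linarith

lemma stepErr_nonneg (he : 0 ≤ e) : 0 ≤ stepErr n a k s e := by
  unfold stepErr
  positivity

/-- Following the derivation. -/
theorem follow (h : World P p B d T e) {R : List Rule} (hR : RuleBd R n a k)
    (hsound : ∀ r ∈ R, ∀ v : ℕ → Prop, (∀ A ∈ r.prem, A.eval v) → r.concl.eval v)
    (hT : (4 + 2 * a) * ((n + 1) * d) ≤ T) (he1 : e ≤ 1 / 800) (hn : (n : ℝ) * e ≤ 1 / 800)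
    (hB : 2 + 2 * s ≤ B) (hs : (1 + e) ^ s ≤ 2) {Γ : List (Fm ι)}
    (hΓ : ∀ φ ∈ Γ, P.N (fun x => p φ x - 1) = 0) :
    ∀ (τ : ℕ) (M : List (Fm ι)), Run R Γ s τ M →
      lsize M ≤ s ∧
      P.N (fun x => 1 - p (mconj M) x) ≤
        τ * (1 + e) ^ τ * (s * ((1 + e) * (stepErr n a k s e + e))) := by
  have he := h.he
  intro τ M hrun
  induction hrun with
  | start =>
    refine ⟨by simp [lsize], ?_⟩
    have : (fun x => 1 - p (mconj ([] : List (Fm ι))) x) = fun _ => 0 := by
      funext x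
      simp only [mconj]
      rw [h.fam.top']
      ring
    rw [this, PE.N_zero]
    simp
  | @step τ M M' hM hstep hs' ih =>
    obtain ⟨hMs, ih⟩ := ih
    refine ⟨hs', ?_⟩
    have hMB : (mconj M).size ≤ B := (size_mconj M).trans (by omega)
    have hMB' : (mconj M').size ≤ B := (size_mconj M').trans (by omega)
    have hlen : (M.length : ℝ) ≤ s := by exact_mod_cast (length_le_lsize M).trans hMs
    have hlen' : (M'.length : ℝ) ≤ s := by exact_mod_cast (length_le_lsize M').trans hs'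
    have hold : ∀ ψ ∈ M, P.N (fun x => (1 - p ψ x) * p (mconj M) x) ≤ 6 * s * e := by
      intro ψ hψ
      refine (h.mem_bound M hMB ψ hψ).trans ?_
      have h1 : (1 + e) ^ M.length ≤ 2 := by
        refine le_trans (pow_le_pow_right₀ (by linarith) ?_) hs
        exact (length_le_lsize M).trans hMs
      calc 3 * (M.length : ℝ) * e * (1 + e) ^ M.length
          ≤ 3 * (M.length : ℝ) * e * 2 := mul_le_mul_of_nonneg_left h1 (by positivity)
        _ = 6 * e * M.length := by ring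
        _ ≤ 6 * e * s := mul_le_mul_of_nonneg_left hlen (by positivity)
        _ = 6 * s * e := by ring
    have hnew : ∀ ψ ∈ M', P.N (fun x => (1 - p ψ x) * p (mconj M) x) ≤ stepErr n a k s e := by
      intro ψ hψ
      rcases hstep with hsub | ⟨φ, hφ, hsub⟩
      · exact (hold ψ (hsub hψ)).trans (le_stepErr he)
      · rcases hsub ψ hψ with rfl | hψM
        · have hψs : ψ.size ≤ B := ((size_le_lsize hψ).trans hs').trans (by omega)
          rcases hφ with hφ | ⟨r, hr, σ, hpr, hc⟩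
          · rw [h.ax_bound hψs (hΓ ψ hφ) (h.d1 hMB)]
            exact stepErr_nonneg he
          · have hN := h.N_p hMB
            have hN2 : P.N (p (mconj M)) ≤ 2 := by linarith
            have hrb := rule_bound (σ := σ) h.fam he he1 hn h.hcap hT (h.d1 hMB)
              (δ := 6 * s * e) (by positivity) r (hsound r hr) (hR.len r hr) (hR.occ r hr)
              (hR.occ' r hr) (hR.size r hr) (hR.size' r hr)
              (fun A hA => ((size_le_lsize (hpr A hA)).trans hMs).trans (by omega))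
              (by rw [hc]; exact hψs) (fun A hA => hold _ (hpr A hA))
            rw [hc] at hrb
            refine hrb.trans ?_
            unfold stepErr
            have h1 : (k : ℝ) * (2 * (6 * s * e) + (2 * ((8 * n + 9 : ℝ) ^ a * e) + 8 * n * e)
                * P.N (p (mconj M))) ≤
                (k : ℝ) * (2 * (6 * s * e) + (2 * ((8 * n + 9 : ℝ) ^ a * e) + 8 * n * e) * 2) := by
              refine mul_le_mul_of_nonneg_left ?_ (Nat.cast_nonneg _)
              have : 0 ≤ 2 * ((8 * n + 9 : ℝ) ^ a * e) + 8 * n * e := by positivity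
              have := mul_le_mul_of_nonneg_left hN2 this
              linarith
            have h2 : (8 * n + 9 : ℝ) ^ a * e * P.N (p (mconj M)) ≤
                (8 * n + 9 : ℝ) ^ a * e * 2 := mul_le_mul_of_nonneg_left hN2 (by positivity)
            have h3 : 0 ≤ 6 * (s : ℝ) * e := by positivity
            linarith
        · exact (hold ψ hψM).trans (le_stepErr he)
    have hp := h.pass_bound hMB hMB' hnew
    set X := (s : ℝ) * ((1 + e) * (stepErr n a k s e + e)) with hX
    have hY0 : 0 ≤ (1 + e) * (stepErr n a k s e + e) := by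
      have := stepErr_nonneg (n := n) (a := a) (k := k) (s := s) he
      positivity
    have hX0 : 0 ≤ X := by positivity
    have hX1 : (M'.length : ℝ) * ((1 + e) * (stepErr n a k s e + e)) ≤ X :=
      mul_le_mul_of_nonneg_right hlen' hY0
    have hpow : (1 : ℝ) ≤ (1 + e) ^ (τ + 1) := one_le_pow₀ (by linarith)
    have h4 : (1 + e) * P.N (fun x => 1 - p (mconj M) x) ≤ (1 + e) * (τ * (1 + e) ^ τ * X) :=
      mul_le_mul_of_nonneg_left ih (by linarith)
    have h5 : (1 + e) * (τ * (1 + e) ^ τ * X) = τ * (1 + e) ^ (τ + 1) * X := by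
      rw [pow_succ]; ring
    have h6 : X ≤ (1 + e) ^ (τ + 1) * X := le_mul_of_one_le_left hX0 hpow
    have h7 : ((τ + 1 : ℕ) : ℝ) * (1 + e) ^ (τ + 1) * X
        = τ * (1 + e) ^ (τ + 1) * X + (1 + e) ^ (τ + 1) * X := by
      push_cast; ring
    rw [h7]
    linarith

/-- The arithmetic of the last step, first part. -/
lemma nr_arith1 {K N κ S E τ e : ℝ} (hK : 0 ≤ K) (hN : 0 ≤ N) (hκ : 1 ≤ κ) (hS : 0 ≤ S)
    (hτ : 0 ≤ τ) (he : 0 ≤ e)
    (hE : E = (K + 1) * (N + 1) * κ * ((S + 1) ^ 2 * (τ + 1)) * e) :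
    e ≤ E ∧ N * e ≤ E ∧ S * e ≤ E ∧ τ * e ≤ E := by
  have hK1 : 1 ≤ K + 1 := by linarith
  have hN1 : 1 ≤ N + 1 := by linarith
  have hS1 : 1 ≤ (S + 1) ^ 2 := one_le_pow₀ (by linarith)
  have hT1 : 1 ≤ τ + 1 := by linarith
  have hS2 : S ≤ (S + 1) ^ 2 := by
    have : S + 1 ≤ (S + 1) ^ 2 := le_self_pow₀ (by linarith) two_ne_zero
    linarith
  have key : ∀ y c, 0 ≤ y → y ≤ c → c ≤ (K + 1) * (N + 1) * κ * ((S + 1) ^ 2 * (τ + 1)) →
      y * e ≤ E := fun y c _ h1 h2 => by
    rw [hE]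
    exact mul_le_mul_of_nonneg_right (h1.trans h2) he
  have hKN : 1 ≤ (K + 1) * (N + 1) := one_le_mul_of_one_le_of_one_le hK1 hN1
  have hG : 1 ≤ (K + 1) * (N + 1) * κ := one_le_mul_of_one_le_of_one_le hKN hκ
  have hST : 1 ≤ (S + 1) ^ 2 * (τ + 1) := one_le_mul_of_one_le_of_one_le hS1 hT1
  have hGS : (K + 1) * (N + 1) * κ ≤ (K + 1) * (N + 1) * κ * ((S + 1) ^ 2 * (τ + 1)) :=
    le_mul_of_one_le_right (by linarith) hST
  have hSG : (S + 1) ^ 2 * (τ + 1) ≤ (K + 1) * (N + 1) * κ * ((S + 1) ^ 2 * (τ + 1)) :=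
    le_mul_of_one_le_left (by linarith) hG
  refine ⟨?_, key N _ hN (le_refl N) ?_, key S _ hS (le_refl S) ?_, key τ _ hτ (le_refl τ) ?_⟩
  · have := key 1 1 (by norm_num) le_rfl (hG.trans hGS)
    linarith
  · refine le_trans ?_ hGS
    calc N ≤ N + 1 := by linarith
      _ ≤ (K + 1) * (N + 1) := le_mul_of_one_le_left (by linarith) hK1
      _ ≤ (K + 1) * (N + 1) * κ := le_mul_of_one_le_right (by linarith) hκ
  · refine le_trans ?_ hSG
    exact hS2.trans (le_mul_of_one_le_right (by linarith) hT1)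
  · refine le_trans ?_ hSG
    exact (show τ ≤ τ + 1 by linarith).trans (le_mul_of_one_le_left (by linarith) hS1)

/-- The arithmetic of the last step, second part. -/
lemma nr_arith2 {K N κ S : ℝ} (hK : 0 ≤ K) (hN : 0 ≤ N) (hκ : 1 ≤ κ) (hS : 0 ≤ S) :
    6 * S + 12 * K * S + 4 * K * κ + 16 * K * N + 2 * κ + 1 ≤
      41 * ((K + 1) * (N + 1) * κ * (S + 1)) := by
  have hK1 : 1 ≤ K + 1 := by linarith
  have hN1 : 1 ≤ N + 1 := by linarith
  have hS1 : 1 ≤ S + 1 := by linarith
  have hKN : 1 ≤ (K + 1) * (N + 1) := one_le_mul_of_one_le_of_one_le hK1 hN1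
  have hG : 1 ≤ (K + 1) * (N + 1) * κ := one_le_mul_of_one_le_of_one_le hKN hκ
  have hKNG : (K + 1) * (N + 1) ≤ (K + 1) * (N + 1) * κ :=
    le_mul_of_one_le_right (by linarith) hκ
  have hGS : (K + 1) * (N + 1) * κ ≤ (K + 1) * (N + 1) * κ * (S + 1) :=
    le_mul_of_one_le_right (by linarith) hS1
  have g1 : S ≤ (K + 1) * (N + 1) * κ * (S + 1) :=
    (show S ≤ S + 1 by linarith).trans (le_mul_of_one_le_left (by linarith) hG)
  have gK : K ≤ (K + 1) * (N + 1) * κ :=
    (show K ≤ K + 1 by linarith).trans ((le_mul_of_one_le_right (by linarith) hN1).trans hKNG)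
  have g2 : K * S ≤ (K + 1) * (N + 1) * κ * (S + 1) :=
    mul_le_mul gK (by linarith) hS (by linarith)
  have g3 : K * κ ≤ (K + 1) * (N + 1) * κ * (S + 1) := by
    refine le_trans ?_ hGS
    refine mul_le_mul_of_nonneg_right ?_ (by linarith)
    exact (show K ≤ K + 1 by linarith).trans (le_mul_of_one_le_right (by linarith) hN1)
  have g4 : K * N ≤ (K + 1) * (N + 1) * κ * (S + 1) := by
    refine le_trans ?_ (hKNG.trans hGS)
    exact mul_le_mul (by linarith) (by linarith) hN (by linarith)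
  have g5 : κ ≤ (K + 1) * (N + 1) * κ * (S + 1) :=
    (le_mul_of_one_le_left (by linarith) hKN).trans hGS
  have g6 : 1 ≤ (K + 1) * (N + 1) * κ * (S + 1) := hG.trans hGS
  linarith

/-- The arithmetic of the last step, third part. -/
lemma nr_arith3 {G S τ e D p : ℝ} (hG : 0 ≤ G) (hS : 0 ≤ S) (hτ : 0 ≤ τ) (he : 0 ≤ e)
    (he1 : e ≤ 1) (hD : 0 ≤ D) (hD1 : D ≤ 41 * (G * (S + 1)) * e) (hp0 : 0 ≤ p) (hp : p ≤ 2) :
    τ * p * (S * ((1 + e) * D)) ≤ 164 * (G * ((S + 1) ^ 2 * (τ + 1)) * e) := by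
  have hX : S * ((1 + e) * D) ≤ (S + 1) * (2 * (41 * (G * (S + 1)) * e)) := by
    refine mul_le_mul (by linarith) ?_ (by positivity) (by linarith)
    exact mul_le_mul (by linarith) hD1 hD (by norm_num)
  calc τ * p * (S * ((1 + e) * D))
      ≤ (τ + 1) * 2 * ((S + 1) * (2 * (41 * (G * (S + 1)) * e))) := by
        refine mul_le_mul ?_ hX (by positivity) (by positivity)
        exact mul_le_mul (by linarith) hp hp0 (by linarith)
    _ = 164 * (G * ((S + 1) ^ 2 * (τ + 1)) * e) := by ring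

/-- There is no refutation. -/
theorem no_run (h : World P p B d T e) {R : List Rule} (hR : RuleBd R n a k)
    (hsound : ∀ r ∈ R, ∀ v : ℕ → Prop, (∀ A ∈ r.prem, A.eval v) → r.concl.eval v)
    (hT : (4 + 2 * a) * ((n + 1) * d) ≤ T)
    (hB : 2 + 2 * s ≤ B) {Γ : List (Fm ι)}
    (hΓ : ∀ φ ∈ Γ, P.N (fun x => p φ x - 1) = 0) {τ : ℕ} {M : List (Fm ι)}
    (hrun : Run R Γ s τ M) (hbot : Fm.bot ∈ M)
    (hsmall : 1000 * ((k + 1) * (n + 1) * (8 * n + 9 : ℝ) ^ a) * ((s + 1) ^ 2 * (τ + 1)) * e ≤ 1) :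
    False := by
  have he := h.he
  have hk0 : (0 : ℝ) ≤ k := Nat.cast_nonneg k
  have hn0 : (0 : ℝ) ≤ n := Nat.cast_nonneg n
  have hs0 : (0 : ℝ) ≤ s := Nat.cast_nonneg s
  have hτ0 : (0 : ℝ) ≤ τ := Nat.cast_nonneg τ
  have hκ1 : (1 : ℝ) ≤ (8 * n + 9 : ℝ) ^ a := one_le_pow₀ (by linarith)
  obtain ⟨a1, a2, a3, a4⟩ := nr_arith1 hk0 hn0 hκ1 hs0 hτ0 he rfl
  have hE1 : 1000 * ((k + 1) * (n + 1) * (8 * n + 9 : ℝ) ^ a * ((s + 1) ^ 2 * (τ + 1)) * e) ≤ 1 := by
    linarith
  have he1 : e ≤ 1 / 800 := by linarith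
  have hn1 : (n : ℝ) * e ≤ 1 / 800 := by linarith
  have hse : (s : ℝ) * e ≤ 1 / 100 := by linarith
  have hτe : (τ : ℝ) * e ≤ 1 / 100 := by linarith
  have hps := one_add_pow_le he hse
  have hpτ := one_add_pow_le he hτe
  obtain ⟨hMs, hfin⟩ := follow h hR hsound hT he1 hn1 hB (by linarith) hΓ τ M hrun
  have hMB : (mconj M).size ≤ B := (size_mconj M).trans (by omega)
  have hmem := h.mem_bound M hMB _ hbot
  have hu : (fun x => (1 - p .bot x) * p (mconj M) x) = p (mconj M) := by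
    funext x
    rw [h.fam.bot']
    ring
  rw [hu] at hmem
  have hlen : (M.length : ℝ) ≤ s := by exact_mod_cast (length_le_lsize M).trans hMs
  have hmem2 : P.N (p (mconj M)) ≤ 6 * s * e := by
    refine hmem.trans ?_
    have h1 : (1 + e) ^ M.length ≤ 2 := by
      refine le_trans (pow_le_pow_right₀ (by linarith) ?_) (hps.trans (by norm_num))
      exact (length_le_lsize M).trans hMs
    calc 3 * (M.length : ℝ) * e * (1 + e) ^ M.length
        ≤ 3 * (M.length : ℝ) * e * 2 := mul_le_mul_of_nonneg_left h1 (by positivity)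
      _ = 6 * e * M.length := by ring
      _ ≤ 6 * e * s := mul_le_mul_of_nonneg_left hlen (by positivity)
      _ = 6 * s * e := by ring
  have hN1 := h.N_one
  have hsum := PE.N_add_le (P := P) (f := fun x => 1 - p (mconj M) x) (g := p (mconj M))
    ((h.d2 hMB).mono (by have := h.hcap; omega)) ((h.d1 hMB).mono (by have := h.hcap; omega))
  have hone : (fun x => 1 - p (mconj M) x + p (mconj M) x) = fun _ => (1 : ℝ) := by
    funext x; ring
  rw [hone, hN1] at hsum
  have hδ : stepErr n a k s e + e ≤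
      41 * ((k + 1) * (n + 1) * (8 * n + 9 : ℝ) ^ a * (s + 1)) * e := by
    have e1 : stepErr n a k s e + e =
        (6 * s + 12 * k * s + 4 * k * (8 * n + 9 : ℝ) ^ a + 16 * k * n
          + 2 * (8 * n + 9 : ℝ) ^ a + 1) * e := by
      unfold stepErr
      ring
    rw [e1]
    exact mul_le_mul_of_nonneg_right (nr_arith2 hk0 hn0 hκ1 hs0) he
  have hδ0 : 0 ≤ stepErr n a k s e + e := by
    have := stepErr_nonneg (n := n) (a := a) (k := k) (s := s) he
    linarith
  have hmain := nr_arith3 (G := (k + 1) * (n + 1) * (8 * n + 9 : ℝ) ^ a) (p := (1 + e) ^ τ)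
    (by positivity) hs0 hτ0 he (by linarith) hδ0 hδ (by positivity) (by linarith)
  linarith

end GridLine
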