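import Pool.Agent.Work.MP_c07f0d_lc.Defs

/-!
# Frege proofs with memory
-/

namespace FregeEF

/-- One step of a proof with memory: the memory `M'` arises from the memory `M` by erasing
formulas and adding at most one formula, which is a hypothesis from `Γ` or follows from formulas
of `M` by one application of a rule of `R`. -/
def Step {α : Type} (R : List Rule) (Γ M M' : List (Fm α)) : Prop :=
  M' ⊆ M ∨ ∃ φ, (φ ∈ Γ ∨ Infers R M φ) ∧ ∀ ψ ∈ M', ψ = φ ∨ ψ ∈ M

/-- `Run R Γ s T M`: starting from the empty memory, `T` steps lead to the memory `M`, and no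
memory on the way has more than `s` symbols. -/
inductive Run {α : Type} (R : List Rule) (Γ : List (Fm α)) (s : ℕ) : ℕ → List (Fm α) → Prop
  | start : Run R Γ s 0 []
  | step {T : ℕ} {M M' : List (Fm α)} : Run R Γ s T M → Step R Γ M M' → lsize M' ≤ s →
      Run R Γ s (T + 1) M'

end FregeEF
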