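import Pool.Agent.Work.MP_c07f0d_lc.SD.Sound
import Pool.Agent.Work.MP_c07f0d_lc.SD.RunDef

/-!
# Following a derivation with the approximant of the conjunction of the memory
-/

set_option linter.unusedSectionVars false

namespace GridLine

open Finset LineSize FregeEF

variable {ι : Type} [Fintype ι] [DecidableEq ι]

/-- The conjunction of the formulas of a list. -/
def mconj {α : Type} : List (Fm α) → Fm α
  | [] => .neg .bot
  | φ :: M => .and (mconj M) φ

lemma fm_size_pos {α : Type} (φ : Fm α) : 1 ≤ φ.size := by cases φ <;> simp [Fm.size]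

lemma lsize_cons {α : Type} (φ : Fm α) (M : List (Fm α)) :
    lsize (φ :: M) = φ.size + lsize M := by
  simp [lsize]

lemma length_le_lsize {α : Type} (M : List (Fm α)) : M.length ≤ lsize M := by
  induction M with
  | nil => simp [lsize]
  | cons φ M ih =>
    rw [lsize_cons, List.length_cons]
    have := fm_size_pos φ
    omega

lemma size_mconj {α : Type} (M : List (Fm α)) : (mconj M).size ≤ 2 + 2 * lsize M := by
  induction M with
  | nil => simp [mconj, Fm.size, lsize]
  | cons φ M ih =>
    rw [lsize_cons]
    simp only [mconj, Fm.size]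
    have := fm_size_pos φ
    omega

lemma size_le_lsize {α : Type} {φ : Fm α} {M : List (Fm α)} (h : φ ∈ M) : φ.size ≤ lsize M := by
  induction M with
  | nil => simp at h
  | cons ψ M ih =>
    rw [lsize_cons]
    rcases List.mem_cons.mp h with rfl | h
    · omega
    · have := ih h
      omega

variable {P : PE ι} {p : Fm ι → (ι → Bool) → ℝ} {B d T : ℕ} {e : ℝ}

/-- The hypotheses on the world. -/
structure World (P : PE ι) (p : Fm ι → (ι → Bool) → ℝ) (B d T : ℕ) (e : ℝ) : Prop where
  fam : FmFam P p B d T e
  he : 0 ≤ e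
  hcap : T + 2 * d ≤ P.cap
  hT : 4 * d ≤ T
  one : P.E (fun _ => 1) = 1

namespace World

lemma N_one (h : World P p B d T e) : P.N (fun _ => 1) = 1 := by
  unfold PE.N
  simp [h.one]

lemma N_p (h : World P p B d T e) {φ : Fm ι} (hφ : φ.size ≤ B) : P.N (p φ) ≤ 1 + e := by
  have h1 := p_bd h.fam h.he h.hcap (t := 0) (by omega) hφ (fun _ => 1) (LowDeg.const 0 1)
  rw [h.N_one, mul_one] at h1
  simpa using h1

lemma N_one_sub (h : World P p B d T e) {φ : Fm ι} (hφ : φ.size ≤ B) :
    P.N (fun x => 1 - p φ x) ≤ 1 + e := by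
  have h1 := p_bd' h.fam h.he h.hcap (t := 0) (by omega) hφ (fun _ => 1) (LowDeg.const 0 1)
  rw [h.N_one, mul_one] at h1
  simpa using h1

lemma d1 (h : World P p B d T e) {φ : Fm ι} (hφ : φ.size ≤ B) : LowDeg d (p φ) := h.fam.deg φ hφ

lemma d2 (h : World P p B d T e) {φ : Fm ι} (hφ : φ.size ≤ B) : LowDeg d (fun x => 1 - p φ x) :=
  (LowDeg.const d 1).sub (h.fam.deg φ hφ)

/-- The error of a conjunction. -/
noncomputable def er (p : Fm ι → (ι → Bool) → ℝ) (φ ψ : Fm ι) : (ι → Bool) → ℝ :=
  fun x => p (.and φ ψ) x - p φ x * p ψ x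

lemma er_deg (h : World P p B d T e) {φ ψ : Fm ι} (hφ : (Fm.and φ ψ).size ≤ B) :
    LowDeg (2 * d) (er p φ ψ) := by
  simp only [Fm.size] at hφ
  refine ((h.fam.deg (.and φ ψ) hφ).mono (by omega)).sub ?_
  rw [two_mul]
  exact (h.fam.deg φ (by omega)).mul (h.fam.deg ψ (by omega))

/-- All formulas in memory hold where the conjunction of the memory does. -/
lemma mem_bound (h : World P p B d T e) : ∀ M : List (Fm ι), (mconj M).size ≤ B →
    ∀ a ∈ M, P.N (fun x => (1 - p a x) * p (mconj M) x) ≤ 3 * M.length * e * (1 + e) ^ M.length := by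
  intro M
  induction M with
  | nil => intro _ a ha; simp at ha
  | cons φ M ih =>
    intro hs a ha
    have hsz := hs
    simp only [mconj, Fm.size] at hs
    have he := h.he
    have hcap := h.hcap
    have hT := h.hT
    have hu := h.d1 (φ := mconj M) (by omega)
    have hφd := h.d1 (φ := φ) (by omega)
    have hφd' := h.d2 (φ := φ) (by omega)
    have hNu := h.N_p (φ := mconj M) (by omega)
    have herd := h.er_deg (φ := mconj M) (ψ := φ) hsz
    have hpow : (1 : ℝ) ≤ (1 + e) ^ (M.length + 1) := one_le_pow₀ (by linarith)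
    have hpow' : (1 : ℝ) ≤ (1 + e) ^ M.length := one_le_pow₀ (by linarith)
    have hp1 : (1 + e) ^ (M.length + 1) = (1 + e) ^ M.length * (1 + e) := pow_succ _ _
    have haB : a.size ≤ B := by
      rcases List.mem_cons.mp ha with rfl | h'
      · omega
      · have h1 := size_le_lsize h'
        have h2 : lsize M ≤ (mconj M).size := by
          clear ih ha hs hsz hu hφd hφd' hNu herd hpow hpow' hp1 h1 h'
          induction M with
          | nil => simp [lsize]
          | cons ψ M ih =>
            rw [lsize_cons]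
            simp only [mconj, Fm.size]
            omega
        omega
    have had := h.d2 (φ := a) haB
    have hNa := h.N_one_sub (φ := a) haB
    have hE := (h.fam.and' (mconj M) φ hsz) (fun x => 1 - p a x) (had.mono (by omega))
    have hE' : P.N (fun x => er p (mconj M) φ x * (1 - p a x)) ≤ e * (1 + e) :=
      hE.trans (mul_le_mul_of_nonneg_left hNa he)
    have hrw : ∀ x, (1 - p a x) * p (mconj (φ :: M)) x
        = (1 - p a x) * (p (mconj M) x * p φ x) + er p (mconj M) φ x * (1 - p a x) := by
      intro x
      simp only [er, mconj]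
      ring
    have hdA : LowDeg P.cap (fun x => (1 - p a x) * (p (mconj M) x * p φ x)) :=
      (had.mul (hu.mul hφd)).mono (by omega)
    have hdB : LowDeg P.cap (fun x => er p (mconj M) φ x * (1 - p a x)) :=
      (herd.mul had).mono (by omega)
    have hsum := PE.N_add_le hdA hdB
    have hfun : (fun x => (1 - p a x) * p (mconj (φ :: M)) x) = fun x =>
        (1 - p a x) * (p (mconj M) x * p φ x) + er p (mconj M) φ x * (1 - p a x) :=
      funext hrw
    rw [hfun, List.length_cons]
    have key : P.N (fun x => (1 - p a x) * (p (mconj M) x * p φ x)) ≤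
        3 * M.length * e * (1 + e) ^ (M.length + 1) + e * (1 + e) := by
      rcases List.mem_cons.mp ha with rfl | h'
      · have h1 := (h.fam.idem a (by omega)).mono (t' := d) (by omega) le_rfl
          (p (mconj M)) hu
        have h2 : (fun x => (1 - p a x) * (p (mconj M) x * p a x)) =
            fun x => -((p a x ^ 2 - p a x) * p (mconj M) x) := by
          funext x; ring
        rw [h2, PE.N_neg]
        have h3 : e * P.N (p (mconj M)) ≤ e * (1 + e) := mul_le_mul_of_nonneg_left hNu he
        have h4 : 0 ≤ 3 * (M.length : ℝ) * e * (1 + e) ^ (M.length + 1) := by positivity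
        linarith
      · have h1 := ih (by omega) a h'
        have h2 := (p_bd h.fam he hcap (t := 2 * d) (by omega) (φ := φ) (by omega))
          (fun x => (1 - p a x) * p (mconj M) x) (by rw [two_mul]; exact had.mul hu)
        have h3 : (fun x => (1 - p a x) * (p (mconj M) x * p φ x)) =
            fun x => p φ x * ((1 - p a x) * p (mconj M) x) := by
          funext x; ring
        rw [h3]
        have h4 : (1 + e) * P.N (fun x => (1 - p a x) * p (mconj M) x) ≤
            (1 + e) * (3 * M.length * e * (1 + e) ^ M.length) :=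
          mul_le_mul_of_nonneg_left h1 (by linarith)
        have h5 : (1 + e) * (3 * M.length * e * (1 + e) ^ M.length)
            = 3 * M.length * e * (1 + e) ^ (M.length + 1) := by
          rw [hp1]; ring
        have h6 : 0 ≤ e * (1 + e) := by positivity
        linarith
    have hfin : e * (1 + e) ≤ e * (1 + e) ^ (M.length + 1) := by
      refine mul_le_mul_of_nonneg_left ?_ he
      calc 1 + e = (1 + e) ^ 1 := (pow_one _).symm
        _ ≤ (1 + e) ^ (M.length + 1) := pow_le_pow_right₀ (by linarith) (by omega)
    have hcast : ((M.length + 1 : ℕ) : ℝ) = M.length + 1 := by push_cast; ring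
    rw [hcast]
    have hlast : 3 * (M.length : ℝ) * e * (1 + e) ^ (M.length + 1) + e * (1 + e) + e * (1 + e) ≤
        3 * (M.length + 1) * e * (1 + e) ^ (M.length + 1) := by
      have h7 : 0 ≤ e * (1 + e) ^ (M.length + 1) := by positivity
      linarith
    linarith

/-- Where the conjunction of the old memory holds, the conjunction of the new memory holds. -/
lemma step_bound (h : World P p B d T e) {u : (ι → Bool) → ℝ} (hu : LowDeg d u) {δ : ℝ} :
    ∀ M' : List (Fm ι), (mconj M').size ≤ B →
    (∀ ψ ∈ M', P.N (fun x => (1 - p ψ x) * u x) ≤ δ) →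
    P.N (fun x => (1 - p (mconj M') x) * u x) ≤ M'.length * ((1 + e) * δ + e * P.N u) := by
  intro M'
  induction M' with
  | nil =>
    intro _ _
    have : (fun x => (1 - p (mconj []) x) * u x) = fun _ => 0 := by
      funext x
      simp only [mconj]
      rw [h.fam.top']
      ring
    rw [this, PE.N_zero]
    simp
  | cons ψ M ih =>
    intro hs hM
    have hsz := hs
    simp only [mconj, Fm.size] at hs
    have he := h.he
    have hcap := h.hcap
    have hT := h.hT
    have ih' := ih (by omega) (fun a ha => hM a (by simp [ha]))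
    have hψ := hM ψ (by simp)
    have dM := h.d1 (φ := mconj M) (by omega)
    have dM' := h.d2 (φ := mconj M) (by omega)
    have dψ := h.d2 (φ := ψ) (by omega)
    have herd := h.er_deg (φ := mconj M) (ψ := ψ) hsz
    have hE := (h.fam.and' (mconj M) ψ hsz) u (hu.mono (by omega))
    have h2 := (p_bd h.fam he hcap (t := 2 * d) (by omega) (φ := mconj M) (by omega))
      (fun x => (1 - p ψ x) * u x) (by rw [two_mul]; exact dψ.mul hu)
    have hfun : (fun x => (1 - p (mconj (ψ :: M)) x) * u x) = fun x =>
        ((1 - p (mconj M) x) * u x + p (mconj M) x * ((1 - p ψ x) * u x))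
          - er p (mconj M) ψ x * u x := by
      funext x
      simp only [er, mconj]
      ring
    have dA : LowDeg P.cap (fun x => (1 - p (mconj M) x) * u x) := (dM'.mul hu).mono (by omega)
    have dB : LowDeg P.cap (fun x => p (mconj M) x * ((1 - p ψ x) * u x)) :=
      (dM.mul (dψ.mul hu)).mono (by omega)
    have dC : LowDeg P.cap (fun x => er p (mconj M) ψ x * u x) := (herd.mul hu).mono (by omega)
    have s1 := PE.N_sub_le (dA.add dB) dC
    have s2 := PE.N_add_le dA dB
    rw [hfun, List.length_cons]
    push_cast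
    have h3 : (1 + e) * P.N (fun x => (1 - p ψ x) * u x) ≤ (1 + e) * δ :=
      mul_le_mul_of_nonneg_left hψ (by linarith)
    have h4 : P.N (fun x => er p (mconj M) ψ x * u x) ≤ e * P.N u := hE
    have h5 : ((M.length : ℝ) + 1) * ((1 + e) * δ + e * P.N u)
        = M.length * ((1 + e) * δ + e * P.N u) + ((1 + e) * δ + e * P.N u) := by ring
    rw [h5]
    linarith

/-- Passing from the old memory to the new memory. -/
lemma pass_bound (h : World P p B d T e) {M M' : List (Fm ι)} (hM : (mconj M).size ≤ B)
    (hM' : (mconj M').size ≤ B) {δ : ℝ}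
    (hs : ∀ ψ ∈ M', P.N (fun x => (1 - p ψ x) * p (mconj M) x) ≤ δ) :
    P.N (fun x => 1 - p (mconj M') x) ≤ (1 + e) * P.N (fun x => 1 - p (mconj M) x) +
      M'.length * ((1 + e) * (δ + e)) := by
  have he := h.he
  have hcap := h.hcap
  have hT := h.hT
  have dM := h.d1 hM
  have dM1 := h.d2 hM
  have dM' := h.d2 hM'
  have h1 := h.step_bound dM M' hM' hs
  have h2 := (p_bd' h.fam he hcap (t := d) (by omega) hM') (fun x => 1 - p (mconj M) x) dM1
  have hfun : (fun x => 1 - p (mconj M') x) = fun x =>
      (1 - p (mconj M') x) * (1 - p (mconj M) x) + (1 - p (mconj M') x) * p (mconj M) x := by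
    funext x
    ring
  have s1 := PE.N_add_le (P := P) (f := fun x => (1 - p (mconj M') x) * (1 - p (mconj M) x))
    (g := fun x => (1 - p (mconj M') x) * p (mconj M) x)
    ((dM'.mul dM1).mono (by omega)) ((dM'.mul dM).mono (by omega))
  rw [hfun]
  have hNu := h.N_p hM
  have h3 : (M'.length : ℝ) * ((1 + e) * δ + e * P.N (p (mconj M)))
      ≤ M'.length * ((1 + e) * (δ + e)) := by
    refine mul_le_mul_of_nonneg_left ?_ (Nat.cast_nonneg _)
    have := mul_le_mul_of_nonneg_left hNu he
    linarith
  linarith

/-- The hypotheses hold. -/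
lemma ax_bound (h : World P p B d T e) {φ : Fm ι} (hφ : φ.size ≤ B)
    (hax : P.N (fun x => p φ x - 1) = 0) {u : (ι → Bool) → ℝ} (hu : LowDeg d u) :
    P.N (fun x => (1 - p φ x) * u x) = 0 := by
  have hcap := h.hcap
  have hT := h.hT
  have dφ := h.d2 hφ
  have h1 := PE.cs (P := P) (f := fun x => u x * ((1 - p φ x) * u x)) (g := fun x => 1 - p φ x)
    ((hu.mul (dφ.mul hu)).mono (by omega)) (dφ.mono (by omega))
  have h2 : P.N (fun x => 1 - p φ x) = 0 := by rw [PE.N_sub_comm]; exact hax
  rw [h2, mul_zero] at h1
  have h3 : P.E (fun x => u x * ((1 - p φ x) * u x) * (1 - p φ x)) = 0 :=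
    abs_nonpos_iff.mp h1
  unfold PE.N
  rw [Real.sqrt_eq_zero']
  have h4 : (fun x => ((1 - p φ x) * u x) ^ 2) = fun x => u x * ((1 - p φ x) * u x) * (1 - p φ x) := by
    funext x; ring
  rw [h4, h3]

end World

end GridLine
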