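import Pool.Agent.Work.MP_c07f0d_lc.SD.Rand3b
import Pool.Agent.Work.MP_c07f0d_lc.LS.Core

/-!
# Random clauses with three variables: formulas, pseudo-expectations, satisfiability
-/

set_option linter.unusedSectionVars false

namespace GridLine

open Finset LineSize FregeEF

namespace Xor

variable {n m : ℕ}

/-- The literal with the variable `i` which is true when `i` has the value `b`. -/
def litF (i : Fin n) (b : Bool) : Fm (Fin n) := if b then .var i else .neg (.var i)

/-- The formula of a clause. -/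
def clF (c : Cl n) : Fm (Fin n) :=
  .or (.or (litF (c.1 0) (c.2 0)) (litF (c.1 1) (c.2 1))) (litF (c.1 2) (c.2 2))

lemma litF_size (i : Fin n) (b : Bool) : (litF i b).size ≤ 2 := by
  cases b <;> simp [litF, Fm.size]

lemma clF_size (c : Cl n) : (clF c).size ≤ 8 := by
  have h0 := litF_size (c.1 0) (c.2 0)
  have h1 := litF_size (c.1 1) (c.2 1)
  have h2 := litF_size (c.1 2) (c.2 2)
  simp only [clF, Fm.size]
  omega

lemma litF_eval (i : Fin n) (b : Bool) (x : Fin n → Bool) :
    (litF i b).eval (fun j => x j = true) ↔ x i = b := by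
  cases b <;> simp [litF, Fm.eval]

lemma clF_eval (c : Cl n) (x : Fin n → Bool) :
    (clF c).eval (fun j => x j = true) ↔ ∃ i, x (c.1 i) = c.2 i := by
  simp only [clF, Fm.eval, litF_eval, Fin.exists_fin_succ]
  simp [or_assoc]

/-- The indicator that a clause is false. -/
noncomputable def clV (c : Cl n) : (Fin n → Bool) → ℝ :=
  fun x => ∏ i : Fin 3, (1 / 2 + (-(sg (c.2 i)) / 2) * chi {c.1 i} x)

lemma clV_eq (c : Cl n) (x : Fin n → Bool) :
    (bv ((nf true (clF c)).ev x) - 1) ^ 2 = clV c x := by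
  have h1 := (nf_ev x (clF c)).1.trans (clF_eval c x)
  cases hy : (nf true (clF c)).ev x with
  | true =>
    obtain ⟨i, hi⟩ := h1.1 hy
    have h2 : clV c x = 0 := by
      unfold clV
      apply Finset.prod_eq_zero (Finset.mem_univ i)
      have h3 : chi {c.1 i} x = sg (x (c.1 i)) := by simp [chi]
      rw [h3, hi]
      have := sg_mul_self (c.2 i)
      linear_combination (-(1 / 2) : ℝ) * this
    rw [h2]
    simp [bv]
  | false =>
    have h2 : clV c x = 1 := by
      unfold clV
      apply Finset.prod_eq_one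
      intro i _
      have h4 : x (c.1 i) = !(c.2 i) := by
        have h5 : ¬ ∃ i, x (c.1 i) = c.2 i := by
          intro h
          rw [h1.2 h] at hy
          exact Bool.noConfusion hy
        push Not at h5
        have h6 := h5 i
        revert h6
        cases x (c.1 i) <;> cases c.2 i <;> simp
      have h3 : chi {c.1 i} x = sg (x (c.1 i)) := by simp [chi]
      rw [h3, h4]
      cases c.2 i <;> norm_num [sg]
    rw [h2]
    simp [bv]

lemma clV_lowDeg (c : Cl n) : LowDeg 3 (clV c) := by
  have h1 : ∀ i : Fin 3, LowDeg 1 (fun x : Fin n → Bool =>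
      1 / 2 + (-(sg (c.2 i)) / 2) * chi {c.1 i} x) := fun i =>
    (LowDeg.const 1 (1 / 2)).add (by
      have := (LowDeg.chi ({c.1 i} : Finset (Fin n)))
      rw [Finset.card_singleton] at this
      exact this.const_mul _)
  have h2 := LowDeg.prod (s := (Finset.univ : Finset (Fin 3))) (d := fun _ => 1)
    (f := fun i x => 1 / 2 + (-(sg (c.2 i)) / 2) * chi {c.1 i} x) (fun i _ => h1 i)
  have e : (∑ _i : Fin 3, 1) = 3 := by simp
  rw [e] at h2
  exact h2

lemma chi_clSup (c : Cl n) (x : Fin n → Bool) :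
    chi (clSup c) x = sg (x (c.1 0)) * sg (x (c.1 1)) * sg (x (c.1 2)) := by
  unfold chi clSup
  rw [Finset.prod_map, Fin.prod_univ_three]

lemma clV_viol (c : Cl n) (x : Fin n → Bool) :
    clV c x = 0 ∨ chi (clSup c) x = - sg (clRhs c) := by
  by_cases h : ∃ i, x (c.1 i) = c.2 i
  · left
    obtain ⟨i, hi⟩ := h
    unfold clV
    apply Finset.prod_eq_zero (Finset.mem_univ i)
    have h3 : chi {c.1 i} x = sg (x (c.1 i)) := by simp [chi]
    rw [h3, hi]
    have := sg_mul_self (c.2 i)
    linear_combination (-(1 / 2) : ℝ) * this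
  · right
    push Not at h
    rw [chi_clSup]
    have h4 : ∀ i, sg (x (c.1 i)) = - sg (c.2 i) := by
      intro i
      have h6 := h i
      revert h6
      cases x (c.1 i) <;> cases c.2 i <;> simp [sg]
    rw [h4, h4, h4]
    unfold clRhs
    rw [sg_xor, sg_xor]
    ring

/-- The pseudo-expectation of an expanding formula satisfies all its clauses. -/
theorem exists_pe {A : Fin m → Cl n} {s T : ℕ} (h : Expd A s) (hT : 4 * T ≤ s) (h3 : 3 ≤ T) :
    ∃ P : PE (Fin n), P.cap = T ∧ P.E (fun _ => 1) = 1 ∧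
      ∀ φ ∈ List.ofFn (fun i => clF (A i)),
        P.N (fun x => bv ((nf true φ).ev x) - 1) = 0 := by
  have hO := h.ok hT
  refine ⟨pe (fun i => clSup (A i)) (fun i => clRhs (A i)) s T hO, rfl, Ex_one hO, ?_⟩
  intro φ hφ
  obtain ⟨i, rfl⟩ := List.mem_ofFn.1 hφ
  show Real.sqrt (Ex (fun i => clSup (A i)) (fun i => clRhs (A i)) s
    (fun x => (bv ((nf true (clF (A i))).ev x) - 1) ^ 2)) = 0
  have h1 : (fun x => (bv ((nf true (clF (A i))).ev x) - 1) ^ 2) = clV (A i) := by
    funext x
    exact clV_eq (A i) x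
  rw [h1, Ex_zero_of_violates (e := i) hO (by omega) (clV_lowDeg (A i)) (w := 3)
    (by rw [card_clSup]) (by omega) (clV_viol (A i))]
  exact Real.sqrt_zero

/-! ### Satisfiable formulas are rare -/

/-- Satisfiability. -/
def Satf (A : Fin m → Cl n) : Prop := ∃ v : Fin n → Prop, ∀ i, (clF (A i)).eval v

lemma satf_iff (A : Fin m → Cl n) :
    Satf A ↔ ∃ x : Fin n → Bool, ∀ i, ∃ j, x ((A i).1 j) = (A i).2 j := by
  classical
  constructor
  · rintro ⟨v, hv⟩
    refine ⟨fun j => decide (v j), fun i => (clF_eval (A i) fun j => decide (v j)).1 ?_⟩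
    have : (fun j => decide (v j) = true) = v := by
      funext j
      simp
    rw [this]
    exact hv i
  · rintro ⟨x, hx⟩
    exact ⟨fun j => x j = true, fun i => (clF_eval (A i) x).2 (hx i)⟩

lemma card_sat_cl (x : Fin n → Bool) :
    (Finset.univ.filter fun c : Cl n => ∃ j, x (c.1 j) = c.2 j).card = n.descFactorial 3 * 7 := by
  classical
  have h0 : (Finset.univ.filter fun c : Cl n => ¬ ∃ j, x (c.1 j) = c.2 j)
      = (Finset.univ : Finset (Fin 3 ↪ Fin n)).image fun v => (v, fun j => !(x (v j))) := by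
    ext c
    simp only [Finset.mem_filter, Finset.mem_univ, true_and, Finset.mem_image, not_exists]
    constructor
    · intro h
      refine ⟨c.1, ?_⟩
      refine Prod.ext rfl ?_
      funext j
      have h6 := h j
      revert h6
      show ¬ x (c.1 j) = c.2 j → (!(x (c.1 j))) = c.2 j
      cases x (c.1 j) <;> cases c.2 j <;> simp
    · rintro ⟨v, rfl⟩ j
      show ¬ x (v j) = !(x (v j))
      cases x (v j) <;> simp
  have h1 : (Finset.univ.filter fun c : Cl n => ¬ ∃ j, x (c.1 j) = c.2 j).card
      = n.descFactorial 3 := by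
    rw [h0, Finset.card_image_of_injective _ (fun v w hvw => (Prod.mk.inj hvw).1),
      Finset.card_univ, Fintype.card_embedding_eq]
    simp
  have h2 := Finset.card_filter_add_card_filter_not (s := (Finset.univ : Finset (Cl n)))
    (fun c => ∃ j, x (c.1 j) = c.2 j)
  rw [h1, Finset.card_univ, card_cl] at h2
  omega

/-- The union bound for satisfiability. -/
lemma card_satf [DecidablePred fun A : Fin m → Cl n => Satf A] :
    (Finset.univ.filter fun A : Fin m → Cl n => Satf A).card
      ≤ 2 ^ n * (n.descFactorial 3 * 7) ^ m := by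
  classical
  have hsub : (Finset.univ.filter fun A : Fin m → Cl n => Satf A) ⊆
      (Finset.univ : Finset (Fin n → Bool)).biUnion fun x =>
        Fintype.piFinset fun _ : Fin m =>
          Finset.univ.filter fun c : Cl n => ∃ j, x (c.1 j) = c.2 j := by
    intro A hA
    obtain ⟨x, hx⟩ := (satf_iff A).1 (Finset.mem_filter.1 hA).2
    rw [Finset.mem_biUnion]
    refine ⟨x, Finset.mem_univ _, ?_⟩
    rw [Fintype.mem_piFinset]
    intro i
    exact Finset.mem_filter.2 ⟨Finset.mem_univ _, hx i⟩
  refine (Finset.card_le_card hsub).trans (Finset.card_biUnion_le.trans (le_of_eq ?_))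
  have h1 : ∀ x ∈ (Finset.univ : Finset (Fin n → Bool)),
      (Fintype.piFinset fun _ : Fin m =>
          Finset.univ.filter fun c : Cl n => ∃ j, x (c.1 j) = c.2 j).card
        = (n.descFactorial 3 * 7) ^ m := by
    intro x _
    rw [Fintype.card_piFinset, Finset.prod_const, card_sat_cl, Finset.card_univ, Fintype.card_fin]
  rw [Finset.sum_congr rfl h1, Finset.sum_const, smul_eq_mul, Finset.card_univ]
  simp

/-- Few formulas with at least `6 n` clauses are satisfiable. -/
theorem few_satf {Δ : ℕ} (hΔ : 6 ≤ Δ) (n : ℕ)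
    [DecidablePred fun A : Fin (Δ * n) → Cl n => Satf A] :
    ((Finset.univ.filter fun A : Fin (Δ * n) → Cl n => Satf A).card : ℝ)
      ≤ (9 / 10) ^ n * (Fintype.card (Fin (Δ * n) → Cl n) : ℝ) := by
  have h0 := card_satf (m := Δ * n) (n := n)
  have h0' : ((Finset.univ.filter fun A : Fin (Δ * n) → Cl n => Satf A).card : ℝ)
      ≤ 2 ^ n * ((n.descFactorial 3 : ℝ) * 7) ^ (Δ * n) := by exact_mod_cast h0
  have htot : (Fintype.card (Fin (Δ * n) → Cl n) : ℝ)
      = ((n.descFactorial 3 : ℝ) * 8) ^ (Δ * n) := by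
    rw [Fintype.card_fun, card_cl, Fintype.card_fin]
    push_cast
    ring
  refine h0'.trans ?_
  rw [htot]
  have e1 : ((n.descFactorial 3 : ℝ) * 7) ^ (Δ * n)
      = ((7 / 8 : ℝ) ^ Δ) ^ n * ((n.descFactorial 3 : ℝ) * 8) ^ (Δ * n) := by
    rw [← pow_mul, ← mul_pow]
    congr 1
    ring
  rw [e1, ← mul_assoc, ← mul_pow]
  apply mul_le_mul_of_nonneg_right _ (by positivity)
  apply pow_le_pow_left₀ (by positivity)
  have h2 : (7 / 8 : ℝ) ^ Δ ≤ (7 / 8) ^ 6 := pow_le_pow_of_le_one (by norm_num) (by norm_num) hΔ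
  have h3 : (2 : ℝ) * (7 / 8) ^ 6 ≤ 9 / 10 := by norm_num
  linarith

end Xor

end GridLine
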