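import Pool.Agent.Work.MP_c07f0d_lc.SD.Par

/-!
# Memory, time and degree
-/

set_option linter.unusedSectionVars false

namespace GridLine

open Finset LineSize FregeEF

lemma sd_run_pos {α : Type} {R : List Rule} {Γ : List (Fm α)} {s T : ℕ} {M : List (Fm α)}
    (h : Run R Γ s T M) {φ : Fm α} (hφ : φ ∈ M) : 1 ≤ s ∧ 1 ≤ T := by
  cases h with
  | start => simp at hφ
  | step h1 h2 h3 =>
    refine ⟨?_, by omega⟩
    have := size_le_lsize hφ
    have := fm_size_pos φ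
    omega

lemma sd_log_bound {T : ℕ} (hT : 1 ≤ T) :
    ((Nat.log 2 (T + 1) + 1 : ℕ) : ℝ) ≤ 3 * Real.log (T + 2) := by
  have hl2 : (0.6931471803 : ℝ) < Real.log 2 := Real.log_two_gt_d9
  have hT1 : (0 : ℝ) < (T : ℝ) + 1 := by positivity
  have hT2 : (0 : ℝ) < (T : ℝ) + 2 := by positivity
  have hTR : (1 : ℝ) ≤ T := by exact_mod_cast hT
  have h1 : (Nat.log 2 (T + 1) : ℝ) * Real.log 2 ≤ Real.log (T + 2) := by
    have h2 : (2 : ℝ) ^ (Nat.log 2 (T + 1)) ≤ T + 1 := by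
      exact_mod_cast Nat.pow_log_le_self 2 (show T + 1 ≠ 0 by omega)
    have h3 := Real.log_le_log (by positivity) (h2.trans (show (T : ℝ) + 1 ≤ T + 2 by linarith))
    rwa [Real.log_pow] at h3
  have h4 : Real.log 2 ≤ Real.log (T + 2) := Real.log_le_log (by norm_num) (by linarith)
  push_cast
  have h5 : (0 : ℝ) ≤ Nat.log 2 (T + 1) := Nat.cast_nonneg _
  nlinarith

lemma sd_one_le_log {T : ℕ} (hT : 1 ≤ T) : 1 ≤ Real.log (T + 2) := by
  have hTR : (1 : ℝ) ≤ T := by exact_mod_cast hT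
  have h3 : Real.exp 1 ≤ (T : ℝ) + 2 := by
    have := Real.exp_one_lt_d9
    linarith
  calc (1 : ℝ) = Real.log (Real.exp 1) := (Real.log_exp 1).symm
    _ ≤ Real.log (T + 2) := Real.log_le_log (Real.exp_pos 1) h3

/-- A refutation in space `s` and time `T` kills every pseudo-expectation of degree
`s ^ (1 / 2 + ε)` times a power of `log T`. -/
theorem space_degree (F : FregeSystem) (ε : ℝ) (hε : 0 < ε) :
    ∃ C : ℕ, ∀ (ι : Type) [Fintype ι] [DecidableEq ι] (P : PE ι), P.E (fun _ => 1) = 1 →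
      ∀ (Γ : List (Fm ι)) (a s T : ℕ) (M : List (Fm ι)), (∀ φ ∈ Γ, φ.size ≤ a) →
      (∀ φ ∈ Γ, P.N (fun x => bv ((nf true φ).ev x) - 1) = 0) →
      Run F.rules Γ s T M → Fm.bot ∈ M →
      (P.cap : ℝ) < (s : ℝ) ^ (1 / 2 + ε) * ((a + 2) * Real.log (T + 2)) ^ C := by
  set N : ℕ := ⌈4 / ε⌉₊ + 1 with hN
  have hN1 : 1 ≤ N := by omega
  obtain ⟨U, hU⟩ := par_main F.rules F.sound N N hN1
  set E1 : ℕ := 2 * N * (N + 1) with hE1
  set E2 : ℕ := 1 + 4 * N + (4 + N) * N with hE2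
  have hE1pos : 0 < E1 := by
    rw [hE1]
    positivity
  have hE1R : (0 : ℝ) < E1 := by exact_mod_cast hE1pos
  have hratio : (E2 : ℝ) / E1 ≤ 1 / 2 + ε := by
    rw [div_le_iff₀ hE1R]
    have h4 : 4 / ε ≤ (N : ℝ) := by
      rw [hN]
      push_cast
      have := Nat.le_ceil (4 / ε)
      linarith
    have h5 : 4 ≤ ε * N := by
      rw [div_le_iff₀ hε] at h4
      linarith
    have hNR : (1 : ℝ) ≤ N := by exact_mod_cast hN1
    rw [hE1, hE2]
    push_cast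
    nlinarith [mul_le_mul_of_nonneg_right h5 (by linarith : (0 : ℝ) ≤ N)]
  refine ⟨(U + 10) * E2, ?_⟩
  intro ι _ _ P h1 Γ a s T M ha hax hrun hbot
  obtain ⟨hs1, hT1⟩ := sd_run_pos hrun hbot
  have hsR : (1 : ℝ) ≤ s := by exact_mod_cast hs1
  have haR : (0 : ℝ) ≤ a := Nat.cast_nonneg a
  set L := Real.log (T + 2) with hL
  have hL1 : 1 ≤ L := sd_one_le_log hT1
  set y : ℝ := (s : ℝ) ^ ((1 : ℝ) / E1) with hy
  have hy1 : 1 ≤ y := Real.one_le_rpow hsR (by positivity)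
  have hyE1 : y ^ E1 = s := by
    rw [hy, ← Real.rpow_natCast, ← Real.rpow_mul (by linarith), one_div,
      inv_mul_cancel₀ hE1R.ne', Real.rpow_one]
  set r : ℕ := ⌈4 * y⌉₊ with hr
  have hr1 : 4 * y ≤ (r : ℝ) := Nat.le_ceil _
  have hr2 : (r : ℝ) ≤ 5 * y := by
    have := (Nat.ceil_lt_add_one (show 0 ≤ 4 * y by linarith)).le
    linarith
  have hr3 : 2 + 2 * s ≤ r ^ E1 := by
    have h6 : (4 * (s : ℝ)) ≤ (r : ℝ) ^ E1 := by
      calc 4 * (s : ℝ) ≤ 4 ^ E1 * s := by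
            refine mul_le_mul_of_nonneg_right ?_ (by linarith)
            calc (4 : ℝ) = 4 ^ 1 := (pow_one _).symm
              _ ≤ 4 ^ E1 := pow_le_pow_right₀ (by norm_num) (by omega)
        _ = (4 * y) ^ E1 := by rw [mul_pow, hyE1]
        _ ≤ (r : ℝ) ^ E1 := pow_le_pow_left₀ (by linarith) hr1 _
    have h7 : 4 * s ≤ r ^ E1 := by exact_mod_cast h6
    omega
  set u : ℕ := U + (a + 1) + (Nat.log 2 (T + 1) + 1) + r with hu
  have hmain := hU u (by omega) ι P h1 Γ s T M (fun φ hφ => by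
      calc φ.size ≤ a := ha φ hφ
        _ < u := by omega
        _ = u ^ 1 := (pow_one u).symm
        _ ≤ u ^ (2 * N) := Nat.pow_le_pow_right (by omega) (by omega)) hax (by
      calc 2 + 2 * s ≤ r ^ E1 := hr3
        _ ≤ u ^ E1 := Nat.pow_le_pow_left (by omega) _) (by
      have h8 : T + 1 < 2 ^ (Nat.log 2 (T + 1) + 1) := Nat.lt_pow_succ_log_self (by norm_num) _
      calc T + 1 ≤ 2 ^ (Nat.log 2 (T + 1) + 1) := h8.le
        _ ≤ 2 ^ u := Nat.pow_le_pow_right (by norm_num) (by omega)) hrun hbot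
  have hcap : (P.cap : ℝ) < (u : ℝ) ^ E2 := by exact_mod_cast hmain
  refine hcap.trans_le ?_
  set X : ℝ := (a + 2) * L with hX
  have hX2 : 2 ≤ X := by
    rw [hX]
    nlinarith
  have haX : (a : ℝ) + 1 ≤ X := by
    rw [hX]
    nlinarith
  have hLX : 2 * L ≤ X := by
    rw [hX]
    nlinarith
  have hUR : (0 : ℝ) ≤ U := Nat.cast_nonneg U
  have hlog := sd_log_bound hT1
  have hu1 : (u : ℝ) ≤ y * (((U : ℝ) + 10) * X) := by
    have e1 : (u : ℝ) = U + (a + 1) + ((Nat.log 2 (T + 1) + 1 : ℕ) : ℝ) + r := by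
      rw [hu]; push_cast; ring
    rw [e1]
    have e2 : (U : ℝ) + (a + 1) + ((Nat.log 2 (T + 1) + 1 : ℕ) : ℝ) + r ≤
        U + X + 3 * L + 5 * y := by linarith
    have e3 : (U : ℝ) ≤ y * (U * X) := by
      have : (U : ℝ) * 1 ≤ U * X := mul_le_mul_of_nonneg_left (by linarith) hUR
      have h9 : (U : ℝ) * X ≤ y * (U * X) := le_mul_of_one_le_left (by positivity) hy1
      linarith
    have e4 : X ≤ y * X := le_mul_of_one_le_left (by linarith) hy1
    have e5 : y * 2 ≤ y * X := mul_le_mul_of_nonneg_left hX2 (by linarith)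
    nlinarith
  have hU10 : (U : ℝ) + 10 ≤ X ^ (U + 9) := by
    have e1 : (U + 9 : ℕ) < 2 ^ (U + 9) := Nat.lt_two_pow_self
    have e2 : ((U : ℝ) + 10) ≤ 2 ^ (U + 9) := by
      have : U + 10 ≤ 2 ^ (U + 9) := by omega
      exact_mod_cast this
    exact e2.trans (pow_le_pow_left₀ (by norm_num) hX2 _)
  have hu2 : (u : ℝ) ≤ y * X ^ (U + 10) := by
    refine hu1.trans (mul_le_mul_of_nonneg_left ?_ (by linarith))
    rw [show U + 10 = U + 9 + 1 by ring, pow_succ]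
    exact mul_le_mul_of_nonneg_right hU10 (by linarith)
  calc (u : ℝ) ^ E2 ≤ (y * X ^ (U + 10)) ^ E2 := pow_le_pow_left₀ (Nat.cast_nonneg u) hu2 _
    _ = y ^ E2 * X ^ ((U + 10) * E2) := by rw [mul_pow, ← pow_mul]
    _ ≤ (s : ℝ) ^ (1 / 2 + ε) * X ^ ((U + 10) * E2) := by
        refine mul_le_mul_of_nonneg_right ?_ (by positivity)
        rw [hy, ← Real.rpow_natCast, ← Real.rpow_mul (by linarith)]
        refine Real.rpow_le_rpow_of_exponent_le hsR ?_
        calc (1 : ℝ) / E1 * E2 = E2 / E1 := by ring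
          _ ≤ 1 / 2 + ε := hratio

end GridLine
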