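import Pool.Agent.Work.MP_c07f0d_lc.SD.Follow

/-!
# The parameters
-/

set_option linter.unusedSectionVars false

namespace GridLine

open Finset LineSize FregeEF

/-- A square root bound. -/
lemma sd_sqrt_bound (u ν : ℕ) : Nat.sqrt (23 * (6 * u ^ (2 * ν))) ≤ 12 * u ^ ν := by
  have h : 23 * (6 * u ^ (2 * ν)) ≤ (12 * u ^ ν) * (12 * u ^ ν) := by
    have e : u ^ (2 * ν) = u ^ ν * u ^ ν := by
      rw [two_mul, pow_add]
    rw [e]
    nlinarith [Nat.zero_le (u ^ ν * u ^ ν)]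
  calc Nat.sqrt (23 * (6 * u ^ (2 * ν))) ≤ Nat.sqrt ((12 * u ^ ν) * (12 * u ^ ν)) :=
        Nat.sqrt_le_sqrt h
    _ = 12 * u ^ ν := Nat.sqrt_eq _

lemma sd_Dg_bound {u ν : ℕ} (hu : 128 ≤ u) : Sk.Dg (u ^ 3) (6 * u ^ (2 * ν)) ≤ u ^ (4 + ν) := by
  unfold Sk.Dg
  have h1 := sd_sqrt_bound u ν
  have hu3 : 1 ≤ u ^ 3 := Nat.one_le_pow _ _ (by omega)
  have huν : 1 ≤ u ^ ν := Nat.one_le_pow _ _ (by omega)
  calc (2 * u ^ 3 + 1) * (2 * Nat.sqrt (23 * (6 * u ^ (2 * ν))) + 1)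
      ≤ (3 * u ^ 3) * (25 * u ^ ν) := Nat.mul_le_mul (by omega) (by omega)
    _ = 75 * (u ^ 3 * u ^ ν) := by ring
    _ ≤ u * (u ^ 3 * u ^ ν) := Nat.mul_le_mul_right _ (by omega)
    _ = u ^ (4 + ν) := by
      rw [pow_add, show (4 : ℕ) = 3 + 1 by rfl, pow_succ]
      ring

lemma sd_dJ_bound {u ν J : ℕ} (hu : 128 ≤ u) :
    dJ (u ^ (2 * ν)) (u ^ 3) J ≤ u ^ (2 * ν + (4 + ν) * J) := by
  unfold dJ
  calc u ^ (2 * ν) * Sk.Dg (u ^ 3) (6 * u ^ (2 * ν)) ^ J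
      ≤ u ^ (2 * ν) * (u ^ (4 + ν)) ^ J :=
        Nat.mul_le_mul_left _ (Nat.pow_le_pow_left (sd_Dg_bound hu) J)
    _ = u ^ (2 * ν + (4 + ν) * J) := by rw [← pow_mul, ← pow_add]

/-- The bound for the error. -/
lemma sd_err {u ν J : ℕ} {Q : ℝ} (hu1 : 1 ≤ u) (hQ : 10 * Q * 400 ^ J ≤ u)
    (hu : 2 + 2 * ν * (4 * J + 3) ≤ u) :
    Q * (((u ^ (2 * ν) : ℕ) : ℝ) ^ (2 * (J + 1)) * 2 ^ u) *
      (10 * ((u ^ (2 * ν) : ℕ) : ℝ) ^ (J + 1) * eJ (u ^ (2 * ν)) (u ^ 3) J) ≤ 1 := by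
  have hu1R : (1 : ℝ) ≤ u := by exact_mod_cast hu1
  have hu2 : (u : ℝ) ≤ 2 ^ u := by exact_mod_cast (Nat.lt_two_pow_self (n := u)).le
  have hm : ((u ^ (2 * ν) : ℕ) : ℝ) = (u : ℝ) ^ (2 * ν) := by push_cast; ring
  rw [hm]
  unfold eJ
  rw [hm]
  have h35 : (3 / 5 : ℝ) ^ (2 * u ^ 3 + 1) ≤ (1 / 2) ^ (u ^ 3) := by
    calc (3 / 5 : ℝ) ^ (2 * u ^ 3 + 1) ≤ (3 / 5 : ℝ) ^ (2 * u ^ 3) :=
          pow_le_pow_of_le_one (by norm_num) (by norm_num) (by omega)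
      _ = ((3 / 5 : ℝ) ^ 2) ^ (u ^ 3) := by rw [← pow_mul]
      _ ≤ (1 / 2) ^ (u ^ 3) := pow_le_pow_left₀ (by norm_num) (by norm_num) _
  have hexp : 2 * u + 2 * ν * (4 * J + 3) * u ≤ u ^ 3 := by
    calc 2 * u + 2 * ν * (4 * J + 3) * u = (2 + 2 * ν * (4 * J + 3)) * u := by ring
      _ ≤ u * u := Nat.mul_le_mul_right _ hu
      _ ≤ u * u * u := Nat.le_mul_of_pos_right _ (by omega)
      _ = u ^ 3 := by ring
  have hupow : (u : ℝ) ^ (2 * ν * (4 * J + 3)) ≤ 2 ^ (2 * ν * (4 * J + 3) * u) := by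
    calc (u : ℝ) ^ (2 * ν * (4 * J + 3)) ≤ (2 ^ u) ^ (2 * ν * (4 * J + 3)) :=
          pow_le_pow_left₀ (by linarith) hu2 _
      _ = 2 ^ (2 * ν * (4 * J + 3) * u) := by rw [← pow_mul, mul_comm u]
  have hcollect : Q * (((u : ℝ) ^ (2 * ν)) ^ (2 * (J + 1)) * 2 ^ u) *
      (10 * ((u : ℝ) ^ (2 * ν)) ^ (J + 1) *
        ((400 * (u : ℝ) ^ (2 * ν)) ^ J * (3 / 5) ^ (2 * u ^ 3 + 1))) =
      (10 * Q * 400 ^ J) * 2 ^ u * (u : ℝ) ^ (2 * ν * (4 * J + 3)) *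
        (3 / 5) ^ (2 * u ^ 3 + 1) := by
    have e1 : (u : ℝ) ^ (2 * ν * (4 * J + 3)) = ((u : ℝ) ^ (2 * ν)) ^ (2 * (J + 1)) *
        ((u : ℝ) ^ (2 * ν)) ^ (J + 1) * ((u : ℝ) ^ (2 * ν)) ^ J := by
      rw [← pow_add, ← pow_add, pow_mul (u : ℝ) (2 * ν)]
      congr 1
      ring
    rw [e1, mul_pow]
    ring
  rw [hcollect]
  have h2u : (0 : ℝ) < 2 ^ u := by positivity
  have hA : (10 * Q * 400 ^ J) * 2 ^ u * (u : ℝ) ^ (2 * ν * (4 * J + 3)) ≤ 2 ^ (u ^ 3) := by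
    calc (10 * Q * 400 ^ J) * 2 ^ u * (u : ℝ) ^ (2 * ν * (4 * J + 3))
        ≤ 2 ^ u * 2 ^ u * 2 ^ (2 * ν * (4 * J + 3) * u) := by
          refine mul_le_mul ?_ hupow (by positivity) (by positivity)
          exact mul_le_mul_of_nonneg_right (hQ.trans hu2) h2u.le
      _ = 2 ^ (2 * u + 2 * ν * (4 * J + 3) * u) := by
          rw [← pow_add, ← pow_add]
          congr 1
          ring
      _ ≤ 2 ^ (u ^ 3) := pow_le_pow_right₀ (by norm_num) hexp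
  calc (10 * Q * 400 ^ J) * 2 ^ u * (u : ℝ) ^ (2 * ν * (4 * J + 3)) * (3 / 5) ^ (2 * u ^ 3 + 1)
      ≤ 2 ^ (u ^ 3) * (1 / 2) ^ (u ^ 3) :=
        mul_le_mul hA h35 (by positivity) (by positivity)
    _ = 1 := by rw [← mul_pow]; norm_num

/-- The main step, in terms of the parameters. -/
theorem par_main (R : List Rule)
    (hsound : ∀ r ∈ R, ∀ v : ℕ → Prop, (∀ A ∈ r.prem, A.eval v) → r.concl.eval v) (ν J : ℕ)
    (hν : 1 ≤ ν) :
    ∃ U : ℕ, ∀ u : ℕ, U ≤ u → ∀ (ι : Type) [Fintype ι] [DecidableEq ι] (P : PE ι),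
      P.E (fun _ => 1) = 1 → ∀ (Γ : List (Fm ι)) (s τ : ℕ) (M : List (Fm ι)),
      (∀ φ ∈ Γ, φ.size < u ^ (2 * ν)) →
      (∀ φ ∈ Γ, P.N (fun x => bv ((nf true φ).ev x) - 1) = 0) →
      2 + 2 * s ≤ u ^ (2 * ν * (J + 1)) → τ + 1 ≤ 2 ^ u →
      Run R Γ s τ M → Fm.bot ∈ M → P.cap < u ^ (1 + 4 * ν + (4 + ν) * J) := by
  obtain ⟨n, a, k, hR⟩ := exists_ruleBd R
  set G : ℝ := (k + 1) * (n + 1) * (8 * n + 9 : ℝ) ^ a with hG
  have hG0 : 0 ≤ G := by positivity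
  have hG1 : 1 ≤ G := by
    have hk0 : (0 : ℝ) ≤ k := Nat.cast_nonneg k
    have hn0 : (0 : ℝ) ≤ n := Nat.cast_nonneg n
    have h1 : (1 : ℝ) ≤ (8 * n + 9 : ℝ) ^ a := one_le_pow₀ (by linarith)
    have h2 : (1 : ℝ) ≤ (k + 1) * (n + 1) := by nlinarith
    rw [hG]
    nlinarith
  refine ⟨128 + ((4 + 2 * a) * (n + 1) + 1 + 18 * (J + 1)) + ⌈10 * (1000 * G) * 400 ^ J⌉₊ +
    (2 + 2 * ν * (4 * J + 3)), ?_⟩
  intro u hu ι _ _ P h1 Γ s τ M hsz hax hsB hτ hrun hbot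
  by_contra hcon
  rw [not_lt] at hcon
  have hu128 : 128 ≤ u := by omega
  have huK : (4 + 2 * a) * (n + 1) + 1 + 18 * (J + 1) ≤ u := by omega
  have hu3 : 2 + 2 * ν * (4 * J + 3) ≤ u := by omega
  have hQ : 10 * (1000 * G) * 400 ^ J ≤ (u : ℝ) := by
    refine (Nat.le_ceil _).trans ?_
    exact_mod_cast (by omega : ⌈10 * (1000 * G) * 400 ^ J⌉₊ ≤ u)
  set m := u ^ (2 * ν) with hm
  set q := u ^ 3 with hq
  set d := dJ m q J with hd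
  have hdb : d ≤ u ^ (2 * ν + (4 + ν) * J) := sd_dJ_bound hu128
  have hm2 : 2 ≤ m := by
    calc 2 ≤ u := by omega
      _ = u ^ 1 := (pow_one u).symm
      _ ≤ u ^ (2 * ν) := Nat.pow_le_pow_right (by omega) (by omega)
  have hmR : (2 : ℝ) ≤ (m : ℝ) := by exact_mod_cast hm2
  have herr := sd_err (ν := ν) (Q := 1000 * G) (by omega) hQ hu3
  rw [← hm, ← hq] at herr
  set e : ℝ := 10 * (m : ℝ) ^ (J + 1) * eJ m q J with he
  have heJ : 0 ≤ eJ m q J := by unfold eJ; positivity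
  have he0 : 0 ≤ e := by positivity
  have hmpow : (1 : ℝ) ≤ (m : ℝ) ^ (J + 1) := one_le_pow₀ (by linarith)
  have h2u : (1 : ℝ) ≤ 2 ^ u := one_le_pow₀ (by norm_num)
  have hq1 : 400 * (m : ℝ) ^ (J + 2) * eJ m q J ≤ 1 := by
    refine le_trans ?_ herr
    have e1 : (m : ℝ) ^ (2 * (J + 1)) = (m : ℝ) ^ (J + 1) * (m : ℝ) ^ (J + 1) := by
      rw [← pow_add]; congr 1; ring
    have e2 : (m : ℝ) ≤ (m : ℝ) ^ (J + 1) := by
      calc (m : ℝ) = (m : ℝ) ^ 1 := (pow_one _).symm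
        _ ≤ (m : ℝ) ^ (J + 1) := pow_le_pow_right₀ (by linarith) (by omega)
    have e3 : (m : ℝ) ≤ (m : ℝ) ^ (2 * (J + 1)) * 2 ^ u := by
      rw [e1]
      calc (m : ℝ) ≤ (m : ℝ) ^ (J + 1) := e2
        _ ≤ (m : ℝ) ^ (J + 1) * (m : ℝ) ^ (J + 1) := le_mul_of_one_le_left (by linarith) hmpow
        _ ≤ _ := le_mul_of_one_le_right (by positivity) h2u
    have e4 : 1 * (m : ℝ) ≤ 1000 * G * ((m : ℝ) ^ (2 * (J + 1)) * 2 ^ u) :=
      mul_le_mul (by linarith) e3 (by linarith) (by positivity)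
    calc 400 * (m : ℝ) ^ (J + 2) * eJ m q J
        = 40 * ((1 * m) * e) := by rw [he, pow_succ (m : ℝ) (J + 1)]; ring
      _ ≤ 40 * ((1000 * G * ((m : ℝ) ^ (2 * (J + 1)) * 2 ^ u)) * e / 40) := by
          refine mul_le_mul_of_nonneg_left ?_ (by norm_num)
          rw [le_div_iff₀ (by norm_num)]
          have e5 : 40 * (1 * (m : ℝ)) ≤ 1000 * G * ((m : ℝ) ^ (2 * (J + 1)) * 2 ^ u) :=
            calc 40 * (1 * (m : ℝ)) ≤ 1000 * G * (m : ℝ) := by nlinarith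
              _ ≤ _ := mul_le_mul_of_nonneg_left e3 (by positivity)
          have := mul_le_mul_of_nonneg_right e5 he0
          linarith
      _ = _ := by ring
  have hcapT : ∀ T : ℕ, T ≤ (4 + 2 * a) * ((n + 1) * d) →
      T + d + (J + 1) * (18 * m * d) ≤ P.cap := by
    intro T hT
    have hmd : d ≤ m * d := Nat.le_mul_of_pos_left _ (by omega)
    calc T + d + (J + 1) * (18 * m * d)
        ≤ (4 + 2 * a) * ((n + 1) * (m * d)) + m * d + (J + 1) * (18 * (m * d)) := by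
          refine Nat.add_le_add (Nat.add_le_add (hT.trans ?_) hmd) (le_of_eq (by ring))
          exact Nat.mul_le_mul_left _ (Nat.mul_le_mul_left _ hmd)
      _ = ((4 + 2 * a) * (n + 1) + 1 + 18 * (J + 1)) * (m * d) := by ring
      _ ≤ u * (u ^ (2 * ν) * u ^ (2 * ν + (4 + ν) * J)) :=
          Nat.mul_le_mul huK (Nat.mul_le_mul_left _ hdb)
      _ = u ^ (1 + 4 * ν + (4 + ν) * J) := by
          rw [← pow_add, ← pow_succ']
          congr 1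
          ring
      _ ≤ P.cap := hcon
  obtain ⟨p, hp, hex⟩ := fm_fam P (m := m) (q := q) (J := J) (T := (4 + 2 * a) * ((n + 1) * d))
    hm2 hq1 (hcapT _ le_rfl)
  have hworld : World P p (m ^ (J + 1)) d ((4 + 2 * a) * ((n + 1) * d)) e := by
    refine ⟨hp, he0, ?_, ?_, h1⟩
    · have := hcapT _ le_rfl
      have h3 : d ≤ (J + 1) * (18 * m * d) := by
        calc d ≤ m * d := Nat.le_mul_of_pos_left _ (by omega)
          _ ≤ 18 * m * d := by rw [mul_assoc]; omega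
          _ ≤ (J + 1) * (18 * m * d) := Nat.le_mul_of_pos_left _ (by omega)
      omega
    · calc 4 * d ≤ (4 + 2 * a) * d := Nat.mul_le_mul_right _ (by omega)
        _ ≤ (4 + 2 * a) * ((n + 1) * d) :=
          Nat.mul_le_mul_left _ (Nat.le_mul_of_pos_left _ (by omega))
  have hmB : m ^ (J + 1) = u ^ (2 * ν * (J + 1)) := by rw [hm, ← pow_mul]
  refine no_run hworld hR hsound le_rfl (s := s) (by rw [hmB]; exact hsB) (Γ := Γ) ?_ hrun hbot ?_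
  · intro φ hφ
    rw [hex φ (hsz φ hφ)]
    exact hax φ hφ
  · refine le_trans ?_ herr
    refine mul_le_mul_of_nonneg_right ?_ he0
    refine mul_le_mul_of_nonneg_left ?_ (by positivity)
    have hs1 : ((s : ℝ) + 1) ≤ (m : ℝ) ^ (J + 1) := by
      have : s + 1 ≤ m ^ (J + 1) := by rw [hmB]; omega
      calc (s : ℝ) + 1 = ((s + 1 : ℕ) : ℝ) := by push_cast; ring
        _ ≤ ((m ^ (J + 1) : ℕ) : ℝ) := by exact_mod_cast this
        _ = (m : ℝ) ^ (J + 1) := by push_cast; ring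
    have hs2 : ((s : ℝ) + 1) ^ 2 ≤ (m : ℝ) ^ (2 * (J + 1)) := by
      calc ((s : ℝ) + 1) ^ 2 ≤ ((m : ℝ) ^ (J + 1)) ^ 2 :=
            pow_le_pow_left₀ (by positivity) hs1 2
        _ = (m : ℝ) ^ (2 * (J + 1)) := by rw [← pow_mul]; congr 1; ring
    have hτR : (τ : ℝ) + 1 ≤ 2 ^ u := by exact_mod_cast hτ
    exact mul_le_mul hs2 hτR (by positivity) (by positivity)

end GridLine
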