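import Pool.Agent.Work.MP_c07f0d_lc.SD.XorPE

/-!
# Random clauses with three variables: expansion
-/

set_option linter.unusedSectionVars false

namespace GridLine

open Finset LineSize

namespace Xor

/-- A clause with three distinct variables among `n`: its literal at place `i` is true when the
variable `c.1 i` has the value `c.2 i`. -/
abbrev Cl (n : ℕ) : Type := (Fin 3 ↪ Fin n) × (Fin 3 → Bool)

variable {n m : ℕ}

/-- The variables of a clause. -/
def clSup (c : Cl n) : Finset (Fin n) := Finset.univ.map c.1

/-- The parity of the signs. -/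
def clRhs (c : Cl n) : Bool := xor (xor (c.2 0) (c.2 1)) (c.2 2)

lemma card_clSup (c : Cl n) : (clSup c).card = 3 := by
  simp [clSup]

/-- The variables of the clauses in `S`. -/
def nbr (A : Fin m → Cl n) (S : Finset (Fin m)) : Finset (Fin n) := S.biUnion fun i => clSup (A i)

/-- Expansion up to size `2 s`. -/
def Expd (A : Fin m → Cl n) (s : ℕ) : Prop :=
  ∀ S : Finset (Fin m), S.Nonempty → S.card ≤ 2 * s → 7 * S.card < 4 * (nbr A S).card

lemma nbr_bdX (A : Fin m → Cl n) (S : Finset (Fin m)) :
    2 * (nbr A S).card ≤ 3 * S.card + (bdX (fun i => clSup (A i)) S).card := by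
  have h1 : ∑ v ∈ nbr A S, (S.filter fun e => v ∈ clSup (A e)).card = 3 * S.card := by
    have h2 : ∀ v, (S.filter fun e => v ∈ clSup (A e)).card
        = ∑ e ∈ S, if v ∈ clSup (A e) then 1 else 0 := by
      intro v
      rw [Finset.card_filter]
    simp only [h2]
    rw [Finset.sum_comm]
    have h3 : ∀ e ∈ S, (∑ v ∈ nbr A S, if v ∈ clSup (A e) then 1 else 0) = 3 := by
      intro e he
      rw [Finset.sum_ite_mem, Finset.sum_const, smul_eq_mul, mul_one]
      have h4 : nbr A S ∩ clSup (A e) = clSup (A e) := by
        apply Finset.inter_eq_right.2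
        exact Finset.subset_biUnion_of_mem (fun i => clSup (A i)) he
      rw [h4, card_clSup]
    rw [Finset.sum_congr rfl h3, Finset.sum_const, smul_eq_mul, mul_comm]
  have h2 : ∀ v ∈ nbr A S, 2 ≤ (S.filter fun e => v ∈ clSup (A e)).card
      + (if v ∈ bdX (fun i => clSup (A i)) S then 1 else 0) := by
    intro v hv
    have hpos : 0 < (S.filter fun e => v ∈ clSup (A e)).card := by
      apply Finset.card_pos.2
      obtain ⟨e, he, hve⟩ := Finset.mem_biUnion.1 hv
      exact ⟨e, Finset.mem_filter.2 ⟨he, hve⟩⟩
    split_ifs with h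
    · omega
    · rw [mem_bdX, Nat.odd_iff] at h
      omega
  have h3 := Finset.sum_le_sum h2
  rw [Finset.sum_const, smul_eq_mul, Finset.sum_add_distrib, h1, Finset.sum_ite_mem,
    Finset.sum_const, smul_eq_mul, mul_one] at h3
  have h4 : (nbr A S ∩ bdX (fun i => clSup (A i)) S).card
      ≤ (bdX (fun i => clSup (A i)) S).card := Finset.card_le_card Finset.inter_subset_right
  omega

lemma Expd.ok {A : Fin m → Cl n} {s T : ℕ} (h : Expd A s) (hT : 4 * T ≤ s) :
    Ok (fun i => clSup (A i)) s T := by
  have key : ∀ S : Finset (Fin m), S.Nonempty → S.card ≤ 2 * s →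
      S.card < 2 * (bdX (fun i => clSup (A i)) S).card := by
    intro S hne hS
    have h1 := h S hne hS
    have h2 := nbr_bdX A S
    omega
  refine ⟨fun S hS h0 => ?_, fun S hS hc => ?_⟩
  · by_contra hne
    have h1 := key S (Finset.nonempty_iff_ne_empty.2 hne) hS
    rw [h0] at h1
    simp at h1
  · by_cases hne : S.Nonempty
    · have h1 := key S hne hS
      omega
    · rw [Finset.not_nonempty_iff_eq_empty.1 hne]
      simp

/-! ### Counting -/

/-- The formulas all of whose clauses in `S` have their variables in `N`. -/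
noncomputable def inside (S : Finset (Fin m)) (N : Finset (Fin n)) : Finset (Fin m → Cl n) :=
  Finset.univ.filter fun A => ∀ i ∈ S, clSup (A i) ⊆ N

lemma card_emb_inside (N : Finset (Fin n)) :
    (Finset.univ.filter fun v : Fin 3 ↪ Fin n => Finset.univ.map v ⊆ N).card
      ≤ N.card.descFactorial 3 := by
  classical
  have h1 : Fintype.card (Fin 3 ↪ {x // x ∈ N}) = N.card.descFactorial 3 := by
    rw [Fintype.card_embedding_eq]
    simp
  rw [← h1, ← Finset.card_univ]
  refine Finset.card_le_card_of_surjOn
    (fun w : Fin 3 ↪ {x // x ∈ N} => w.trans (Function.Embedding.subtype _)) ?_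
  intro v hv
  rw [Finset.mem_coe, Finset.mem_filter] at hv
  have h2 : ∀ i, v i ∈ N := fun i => hv.2 (Finset.mem_map.2 ⟨i, Finset.mem_univ _, rfl⟩)
  refine ⟨⟨fun i => ⟨v i, h2 i⟩, fun i j hij => v.injective (by simpa using hij)⟩, ?_, ?_⟩
  · simp
  · ext i
    rfl

lemma card_cl_inside (N : Finset (Fin n)) :
    (Finset.univ.filter fun c : Cl n => clSup c ⊆ N).card ≤ N.card.descFactorial 3 * 8 := by
  classical
  have h : (Finset.univ.filter fun c : Cl n => clSup c ⊆ N)
      = (Finset.univ.filter fun v : Fin 3 ↪ Fin n => Finset.univ.map v ⊆ N) ×ˢ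
        (Finset.univ : Finset (Fin 3 → Bool)) := by
    ext c
    simp [clSup]
  rw [h, Finset.card_product]
  refine Nat.mul_le_mul (card_emb_inside N) ?_
  simp

lemma card_cl (n : ℕ) : Fintype.card (Cl n) = n.descFactorial 3 * 8 := by
  simp [Cl]

lemma card_inside (S : Finset (Fin m)) (N : Finset (Fin n)) :
    (inside S N).card ≤ (N.card.descFactorial 3 * 8) ^ S.card
      * (n.descFactorial 3 * 8) ^ (m - S.card) := by
  classical
  have h : inside S N = Fintype.piFinset fun i : Fin m =>
      if i ∈ S then (Finset.univ.filter fun c : Cl n => clSup c ⊆ N) else Finset.univ := by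
    ext A
    simp only [inside, Finset.mem_filter, Finset.mem_univ, true_and, Fintype.mem_piFinset]
    refine forall_congr' fun i => ?_
    split_ifs with hi
    · simp [hi]
    · simp [hi]
  rw [h, Fintype.card_piFinset]
  have h2 : ∀ i : Fin m, (if i ∈ S then (Finset.univ.filter fun c : Cl n => clSup c ⊆ N)
      else Finset.univ).card ≤ if i ∈ S then N.card.descFactorial 3 * 8
        else n.descFactorial 3 * 8 := by
    intro i
    split_ifs
    · exact card_cl_inside N
    · rw [Finset.card_univ, card_cl]
  refine (Finset.prod_le_prod' fun i _ => h2 i).trans (le_of_eq ?_)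
  rw [Finset.prod_ite, Finset.prod_const, Finset.prod_const]
  congr 2
  · congr 1
    ext i
    simp
  · have h3 : (Finset.univ.filter fun i : Fin m => i ∉ S) = Sᶜ := by
      ext i
      simp
    rw [h3, Finset.card_compl, Fintype.card_fin]

open Classical in
/-- The formulas which do not expand are covered. -/
lemma not_expd_subset {s : ℕ} (hs : 4 * s ≤ n) :
    (Finset.univ.filter fun A : Fin m → Cl n => ¬ Expd A s) ⊆
      (Finset.range (2 * s)).biUnion fun k =>
        ((Finset.powersetCard (k + 1) (Finset.univ : Finset (Fin m))) ×ˢ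
          (Finset.powersetCard (7 * (k + 1) / 4) (Finset.univ : Finset (Fin n)))).biUnion
            fun p => inside p.1 p.2 := by
  intro A hA
  have hA' := (Finset.mem_filter.1 hA).2
  unfold Expd at hA'
  push Not at hA'
  obtain ⟨S, hne, hS, hN⟩ := hA'
  have hpos := Finset.card_pos.2 hne
  have h1 : (nbr A S).card ≤ 7 * S.card / 4 := by omega
  have h2 : 7 * S.card / 4 ≤ (Finset.univ : Finset (Fin n)).card := by
    rw [Finset.card_univ, Fintype.card_fin]
    omega
  obtain ⟨N, hN1, hN2, hN3⟩ := Finset.exists_subsuperset_card_eq (Finset.subset_univ (nbr A S))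
    h1 h2
  rw [Finset.mem_biUnion]
  refine ⟨S.card - 1, Finset.mem_range.2 (by omega), ?_⟩
  rw [Finset.mem_biUnion]
  have hk : S.card - 1 + 1 = S.card := by omega
  refine ⟨(S, N), ?_, ?_⟩
  · rw [Finset.mem_product, Finset.mem_powersetCard, Finset.mem_powersetCard]
    exact ⟨⟨Finset.subset_univ _, by rw [hk]⟩, ⟨Finset.subset_univ _, by rw [hk]; exact hN3⟩⟩
  · simp only [inside, Finset.mem_filter, Finset.mem_univ, true_and]
    intro i hi
    exact (Finset.subset_biUnion_of_mem (fun i => clSup (A i)) hi).trans hN1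

/-- The union bound. -/
lemma card_not_expd {s : ℕ} (hs : 4 * s ≤ n) [DecidablePred fun A : Fin m → Cl n => ¬ Expd A s] :
    (Finset.univ.filter fun A : Fin m → Cl n => ¬ Expd A s).card ≤
      ∑ k ∈ Finset.range (2 * s), m.choose (k + 1) * n.choose (7 * (k + 1) / 4) *
        (((7 * (k + 1) / 4).descFactorial 3 * 8) ^ (k + 1)
          * (n.descFactorial 3 * 8) ^ (m - (k + 1))) := by
  classical
  have h0 := not_expd_subset (m := m) hs
  have h1 : (Finset.univ.filter fun A : Fin m → Cl n => ¬ Expd A s).card ≤ _ :=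
    Finset.card_le_card (by convert h0)
  refine h1.trans (Finset.card_biUnion_le.trans (Finset.sum_le_sum fun k _ => ?_))
  refine Finset.card_biUnion_le.trans ?_
  have h2 : ∀ p ∈ (Finset.powersetCard (k + 1) (Finset.univ : Finset (Fin m))) ×ˢ
      (Finset.powersetCard (7 * (k + 1) / 4) (Finset.univ : Finset (Fin n))),
      (inside p.1 p.2).card ≤ ((7 * (k + 1) / 4).descFactorial 3 * 8) ^ (k + 1)
          * (n.descFactorial 3 * 8) ^ (m - (k + 1)) := by
    intro p hp
    rw [Finset.mem_product, Finset.mem_powersetCard, Finset.mem_powersetCard] at hp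
    have := card_inside p.1 p.2
    rwa [hp.1.2, hp.2.2] at this
  refine (Finset.sum_le_sum h2).trans (le_of_eq ?_)
  rw [Finset.sum_const, smul_eq_mul, Finset.card_product, Finset.card_powersetCard,
    Finset.card_powersetCard, Finset.card_univ, Finset.card_univ, Fintype.card_fin,
    Fintype.card_fin]

end Xor

end GridLine
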