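import Pool.Agent.Work.MP_c07f0d_lc.SD.RunEDef
import Pool.Agent.Work.MP_c07f0d_lc.LS.LSDefs
import Mathlib.Analysis.SpecialFunctions.Pow.Real

/-!
# Frege and extended Frege refutations of small space: definitions
-/

namespace GridLine

open FregeEF LineSize

namespace Xor

/-- The hypotheses `Γ` have a refutation in `F` with total space at most `n ^ (2 - ε)` and at most
`2 ^ (n ^ δ)` steps, where `n` is the number of variables. -/
def Cheap (F : FregeSystem) (ε δ : ℝ) {n : ℕ} (Γ : List (Fm (Fin n))) : Prop :=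
  ∃ (s T : ℕ) (M : List (Fm (Fin n))), (s : ℝ) ≤ (n : ℝ) ^ (2 - ε) ∧
    (T : ℝ) ≤ 2 ^ ((n : ℝ) ^ δ) ∧ Run F.rules Γ s T M ∧ Fm.bot ∈ M

/-- The hypotheses `Γ` have a refutation in `F` with total space at most `c * n ^ 2` and at most
`c * n ^ 3` steps, where `n` is the number of variables. -/
def SquareSpace (F : FregeSystem) (c : ℕ) {n : ℕ} (Γ : List (Fm (Fin n))) : Prop :=
  ∃ (T : ℕ) (M : List (Fm (Fin n))), T ≤ c * n ^ 3 ∧ Run F.rules Γ (c * n ^ 2) T M ∧ Fm.bot ∈ M

/-- The hypotheses `Γ` have an extended Frege refutation, with the rules of `F`, with total space at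
most `c * n` and at most `c * n ^ 2` steps, where `n` is the number of variables. -/
def LinearSpaceEF (F : FregeSystem) (c : ℕ) {n : ℕ} (Γ : List (Fm (Fin n))) : Prop :=
  ∃ (T k : ℕ) (M : List (Fm (Fin n ⊕ ℕ))), T ≤ c * n ^ 2 ∧
    RunE F.rules (lift Γ) (c * n) T k M ∧ Fm.bot ∈ M

/-- Frege refutations of the hypotheses `Γ` with subquadratic space are exponentially long, while
there are Frege refutations with quadratic space and `c * n ^ 3` steps, and extended Frege
refutations with linear space and `c * n ^ 2` steps. -/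
def Separates (F : FregeSystem) (ε δ : ℝ) (c : ℕ) {n : ℕ} (Γ : List (Fm (Fin n))) : Prop :=
  ¬ Cheap F ε δ Γ ∧ SquareSpace F c Γ ∧ LinearSpaceEF F c Γ

/-- A linear equation `x + y + z = b` over the field with two elements, with three different
variables among `n` variables. -/
abbrev Eqn (n : ℕ) : Type := (Fin 3 ↪ Fin n) × Bool

/-- The formula of an equation. -/
def eqF {n : ℕ} (c : Eqn n) : Fm (Fin n) :=
  if c.2 then xor2 (xor2 (.var (c.1 0)) (.var (c.1 1))) (.var (c.1 2))
  else .neg (xor2 (xor2 (.var (c.1 0)) (.var (c.1 1))) (.var (c.1 2)))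

/-- The formulas of a system of equations. -/
def eqs {n m : ℕ} (B : Fin m → Eqn n) : List (Fm (Fin n)) := List.ofFn fun i => eqF (B i)

end Xor

end GridLine
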