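import Pool.Agent.Work.MP_c07f0d_lc.SD.XorUp
import Pool.Agent.Work.MP_c07f0d_lc.SD.RunDef

/-!
# Frege refutations of quadratic space of linear equations with three variables
-/

set_option linter.unusedSectionVars false

namespace GridLine

open Finset LineSize FregeEF

namespace Xor

section Mem

variable {F : FregeSystem} {α : Type} {Γ : List (Fm α)} {Φ Ψ X : List (Fm α)} {S S' N N' : ℕ}

lemma run_lsize {R : List Rule} {s T : ℕ} {M : List (Fm α)} (h : Run R Γ s T M) :
    lsize M ≤ s := by
  cases h with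
  | start => simp [lsize]
  | step _ _ h => exact h

/-- Erasing. -/
lemma run_erase {R : List Rule} {s T : ℕ} {M M' : List (Fm α)} (h : Run R Γ s T M)
    (h' : M' ⊆ M) (hs : lsize M' ≤ s) : Run R Γ s (T + 1) M' :=
  Run.step h (Or.inl h') hs

/-- With `S` free symbols and `N` steps one can add `Ψ` to every memory which contains `Φ`. -/
def Ad (F : FregeSystem) {α : Type} (Γ Φ Ψ : List (Fm α)) (S N : ℕ) : Prop :=
  ∀ s T M, Run F.rules Γ s T M → (∀ ψ ∈ Φ, ψ ∈ M) → lsize M + S ≤ s →
    ∃ T', T' ≤ T + N ∧ Run F.rules Γ s T' (Ψ ++ M)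

lemma Ad.mono (h : Ad F Γ Φ Ψ S N) (hΦ : ∀ ψ ∈ Φ, ψ ∈ X) (hS : S ≤ S') (hN : N ≤ N') :
    Ad F Γ X Ψ S' N' := by
  intro s T M hM hX hs
  obtain ⟨T', h1, h2⟩ := h s T M hM (fun ψ hψ => hX ψ (hΦ ψ hψ)) (by omega)
  exact ⟨T', by omega, h2⟩

lemma Ad.both (h1 : Ad F Γ Φ Ψ S N) (h2 : Ad F Γ Φ X S' N') {U : ℕ} (hS : S ≤ U)
    (hS' : lsize Ψ + S' ≤ U) : Ad F Γ Φ (Ψ ++ X) U (N + N' + 1) := by
  intro s T M hM hΦ hs
  obtain ⟨T1, a1, b1⟩ := h1 s T M hM hΦ (by omega)
  obtain ⟨T2, a2, b2⟩ := h2 s T1 _ b1 (fun ψ hψ => List.mem_append_right _ (hΦ ψ hψ)) (by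
    rw [lsize_append]
    omega)
  have h3 := run_lsize b2
  refine ⟨T2 + 1, by omega, run_erase b2 ?_ ?_⟩
  · intro ψ hψ
    simp only [List.mem_append] at hψ ⊢
    tauto
  · rw [lsize_append, lsize_append] at h3 ⊢
    omega

lemma Ad.trans (h1 : Ad F Γ Φ Ψ S N) (h2 : Ad F Γ Ψ X S' N') {U : ℕ} (hS : S ≤ U)
    (hS' : lsize Ψ + S' ≤ U) : Ad F Γ Φ X U (N + N' + 1) := by
  intro s T M hM hΦ hs
  obtain ⟨T1, a1, b1⟩ := h1 s T M hM hΦ (by omega)
  obtain ⟨T2, a2, b2⟩ := h2 s T1 _ b1 (fun ψ hψ => List.mem_append_left _ hψ) (by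
    rw [lsize_append]
    omega)
  have h3 := run_lsize b2
  refine ⟨T2 + 1, by omega, run_erase b2 ?_ ?_⟩
  · intro ψ hψ
    simp only [List.mem_append] at hψ ⊢
    tauto
  · rw [lsize_append, lsize_append] at h3
    rw [lsize_append]
    omega

/-- Downloading a hypothesis. -/
lemma Ad.hyp {φ : Fm α} (hφ : φ ∈ Γ) : Ad F Γ [] [φ] φ.size 1 := by
  intro s T M hM _ hs
  refine ⟨T + 1, le_rfl, Run.step hM (Or.inr ⟨φ, Or.inl hφ, fun ψ hψ => ?_⟩) ?_⟩
  · simpa using hψ
  · simp only [List.cons_append, List.nil_append, lsize_cons]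
    omega

lemma Ad.rule {M : ℕ} (hM1 : 1 ≤ M) (prem : List (Fm ℕ)) (concl : Fm ℕ) (θ : List (Fm α))
    (ht : smallTest prem concl = true)
    (hv : ∀ v : ℕ → Prop, (∀ p ∈ prem, p.eval v) → concl.eval v)
    (hθ : ∀ x ∈ θ, x.size ≤ M) :
    Ad F Γ (prem.map fun p => p.subst (sub θ)) [concl.subst (sub θ)] (F.K * M) (2 * F.K) := by
  obtain ⟨L₀, h1, h2, h3⟩ := F.K_spec prem concl ht hv
  have hb : ∀ x, (sub θ x).size ≤ M := by
    intro x
    unfold sub
    by_cases hx : x < θ.length
    · rw [List.getD_eq_getElem?_getD, List.getElem?_eq_getElem hx]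
      exact hθ _ (List.getElem_mem hx)
    · rw [List.getD_eq_getElem?_getD, List.getElem?_eq_none (by omega)]
      simpa [Fm.size] using hM1
  intro s T Mem hMem hΦ hs
  have key : ∀ Q : List (Fm ℕ), IsDeriv F.rules prem Q → lsize Mem + lsize Q * M ≤ s →
      Run F.rules Γ s (T + Q.length) (Q.map (Fm.subst (sub θ)) ++ Mem) := by
    intro Q hQ
    induction hQ with
    | nil => exact fun _ => hMem
    | @hyp Q φ _ hφ ih =>
      intro hsz
      have hsub := lsize_map_subst_le (sub θ) M hM1 (φ :: Q) hb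
      rw [lsize_cons, Nat.add_mul] at hsz
      have h5 := ih (by omega)
      have h6 : T + (φ :: Q).length = (T + Q.length) + 1 := by
        rw [List.length_cons]
        omega
      rw [h6]
      refine Run.step h5 (Or.inl ?_) ?_
      · intro ψ hψ
        rw [List.map_cons, List.cons_append, List.mem_cons] at hψ
        rcases hψ with rfl | hψ
        · exact List.mem_append_right _ (hΦ _ (List.mem_map_of_mem
            (f := fun p => p.subst (sub θ)) hφ))
        · exact hψ
      · rw [lsize_append]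
        rw [lsize_cons, Nat.add_mul] at hsub
        omega
    | @step Q φ _ hi ih =>
      intro hsz
      have hsub := lsize_map_subst_le (sub θ) M hM1 (φ :: Q) hb
      rw [lsize_cons, Nat.add_mul] at hsz
      have h5 := ih (by omega)
      have h6 : T + (φ :: Q).length = (T + Q.length) + 1 := by
        rw [List.length_cons]
        omega
      rw [h6]
      refine Run.step h5 (Or.inr ⟨φ.subst (sub θ), Or.inr ?_, ?_⟩) ?_
      · exact (hi.subst (sub θ)).mono (by
          intro x hx
          exact List.mem_append_left _ hx)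
      · intro ψ hψ
        rw [List.map_cons, List.cons_append, List.mem_cons] at hψ
        exact hψ
      · rw [lsize_append]
        rw [lsize_cons, Nat.add_mul] at hsub
        omega
  have h4 : lsize L₀ * M ≤ F.K * M := Nat.mul_le_mul_right _ h3
  have h5 := key L₀ h1 (by omega)
  have h6 := FregeEF.length_le_lsize L₀
  have h7 := F.K_pos
  have h8 : (concl.subst (sub θ)).size ≤ F.K * M :=
    (Fm.size_subst_le (sub θ) M hM1 concl fun x _ => hb x).trans
      (Nat.mul_le_mul_right _ ((size_le_lsize h2).trans h3))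
  refine ⟨T + L₀.length + 1, by omega, run_erase h5 ?_ ?_⟩
  · intro ψ hψ
    rw [List.cons_append, List.nil_append, List.mem_cons] at hψ
    rcases hψ with rfl | hψ
    · exact List.mem_append_left _ (List.mem_map_of_mem h2)
    · exact List.mem_append_right _ hψ
  · rw [lsize_append, lsize_cons, lsize_nil]
    omega

end Mem

section Trees

variable {F : FregeSystem} {α : Type} [DecidableEq α] {Γ : List (Fm α)}

lemma size_node (a b : XT α) : (XT.node a b).fm.size = 2 * a.fm.size + 2 * b.fm.size + 5 := by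
  simp only [XT.fm, xor2, Fm.size]
  omega

lemma rhs_size (x : α) (t : XT α) : (rhs x t).size ≤ 2 * t.fm.size + 7 := by
  unfold rhs
  split_ifs
  · simp only [xor2, Fm.size, XT.size_kill]
    omega
  · rw [XT.size_kill]
    omega

lemma lsize_equiv (x : α) (t : XT α) :
    lsize [Fm.imp t.fm (rhs x t), .imp (rhs x t) t.fm] ≤ 6 * t.fm.size + 16 := by
  have h := rhs_size x t
  simp only [lsize_cons, lsize_nil, Fm.size]
  omega

lemma ad_equiv (x : α) (t : XT α) :
    Ad F Γ [] [.imp t.fm (rhs x t), .imp (rhs x t) t.fm] (50 * (F.K * t.fm.size))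
      (10 * F.K * t.nodes) := by
  have hK := F.K_pos
  induction t with
  | leaf o =>
    have hrefl : ∀ φ : Fm α, φ.size ≤ 1 →
        Ad F Γ [] [.imp φ φ, .imp φ φ] (50 * (F.K * 1)) (10 * F.K * 1) := by
      intro φ hφ
      have h := Ad.rule (F := F) (Γ := Γ) (M := 1) le_rfl [] (.imp (.var 0) (.var 0)) [φ]
        (by decide) (by intro v _; exact fun h => h) (by simpa using hφ)
      have h2 := Ad.both (U := 50 * (F.K * 1)) h h (by omega) (by
        simp only [Fm.subst, lsize_cons, lsize_nil, Fm.size, sub, List.getD_cons_zero]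
        omega)
      exact h2.mono (X := []) (by simp) le_rfl (by omega)
    cases o with
    | none => exact hrefl _ (by simp [XT.fm, Fm.size])
    | some y =>
      by_cases hyx : y = x
      · subst hyx
        have e : rhs y (XT.leaf (some y)) = xor2 .bot (.var y) := by
          simp [rhs, XT.par, XT.kill, XT.fm]
        rw [e]
        have h1 := Ad.rule (F := F) (Γ := Γ) (M := 1) le_rfl [] (.imp (.var 0) (xor2 .bot (.var 0)))
          [.var y] (by decide) (by
            intro v _
            simp only [xor2, Fm.eval]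
            tauto) (by simp [Fm.size])
        have h2 := Ad.rule (F := F) (Γ := Γ) (M := 1) le_rfl [] (.imp (xor2 .bot (.var 0)) (.var 0))
          [.var y] (by decide) (by
            intro v _
            simp only [xor2, Fm.eval]
            tauto) (by simp [Fm.size])
        have h3 := Ad.both (U := 50 * (F.K * 1)) h1 h2 (by omega) (by
          simp only [Fm.subst, lsize_cons, lsize_nil, Fm.size, sub, List.getD_cons_zero, xor2]
          omega)
        exact h3.mono (X := []) (by simp) (by simp [XT.fm, Fm.size]) (by simp [XT.nodes]; omega)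
      · have e : rhs x (XT.leaf (some y)) = .var y := by
          simp [rhs, XT.par, XT.kill, XT.fm, hyx]
        rw [e]
        exact hrefl (.var y) (le_refl 1)
  | node a b iha ihb =>
    have hz := size_node a b
    set z := (XT.node a b).fm.size with hzdef
    have ha1 := XT.one_le_size a
    have hb1 := XT.one_le_size b
    set za := a.fm.size with hza
    set zb := b.fm.size with hzb
    have la := lsize_equiv x a
    have lb := lsize_equiv x b
    rw [← hza] at la
    rw [← hzb] at lb
    have kz : F.K * z = 2 * (F.K * za) + 2 * (F.K * zb) + 5 * F.K := by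
      rw [hz]
      ring
    have ka : za ≤ F.K * za := Nat.le_mul_of_pos_left _ hK
    have kb : zb ≤ F.K * zb := Nat.le_mul_of_pos_left _ hK
    have hab := Ad.both (U := 50 * (F.K * z)) iha ihb (by omega) (by omega)
    have hθ : ∀ y ∈ [a.fm, (a.kill x).fm, b.fm, (b.kill x).fm, Fm.var x], y.size ≤ z := by
      intro y hy
      simp only [List.mem_cons, List.not_mem_nil, or_false] at hy
      rcases hy with rfl | rfl | rfl | rfl | rfl
      · omega
      · rw [XT.size_kill]; omega
      · omega
      · rw [XT.size_kill]; omega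
      · simp only [Fm.size]; omega
    have hprem : (premS (a.par x) (b.par x)).map (fun p => p.subst
        (sub [a.fm, (a.kill x).fm, b.fm, (b.kill x).fm, Fm.var x]))
        = [.imp a.fm (rhs x a), .imp (rhs x a) a.fm] ++ [.imp b.fm (rhs x b), .imp (rhs x b) b.fm] := by
      unfold premS rhsS rhs
      rcases Bool.eq_false_or_eq_true (a.par x) with h1 | h1 <;>
        rcases Bool.eq_false_or_eq_true (b.par x) with h2 | h2 <;>
        simp [h1, h2, Fm.subst, sub, xor2]
    have hconcl : (conclS (xor (a.par x) (b.par x))).subst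
        (sub [a.fm, (a.kill x).fm, b.fm, (b.kill x).fm, Fm.var x]) = rhs x (XT.node a b) := by
      unfold conclS rhs
      simp only [XT.par]
      rcases Bool.eq_false_or_eq_true (xor (a.par x) (b.par x)) with h1 | h1 <;>
        simp [h1, Fm.subst, sub, xor2, XT.kill, XT.fm]
    have hleft : (xor2 (.var 0) (.var 2) : Fm ℕ).subst
        (sub [a.fm, (a.kill x).fm, b.fm, (b.kill x).fm, Fm.var x]) = (XT.node a b).fm := by
      simp [Fm.subst, sub, xor2, XT.fm]
    have hz1 : 1 ≤ z := by omega
    have r1 := Ad.rule (F := F) (Γ := Γ) hz1 (premS (a.par x) (b.par x)) _ _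
      (testS (a.par x) (b.par x)).1 (fun v h => (validS _ _ v h).1) hθ
    have r2 := Ad.rule (F := F) (Γ := Γ) hz1 (premS (a.par x) (b.par x)) _ _
      (testS (a.par x) (b.par x)).2 (fun v h => (validS _ _ v h).2) hθ
    simp only [Fm.subst, hprem, hconcl, hleft] at r1 r2
    have lt := lsize_equiv x (XT.node a b)
    rw [← hzdef] at lt
    have lt1 : lsize [Fm.imp (XT.node a b).fm (rhs x (XT.node a b))] ≤ 6 * z + 16 := by
      refine le_trans ?_ lt
      simp only [lsize_cons, lsize_nil]
      omega
    have r := Ad.both (U := 23 * (F.K * z)) r1 r2 (by omega) (by omega)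
    have lab : lsize ([Fm.imp a.fm (rhs x a), .imp (rhs x a) a.fm]
        ++ [.imp b.fm (rhs x b), .imp (rhs x b) b.fm]) ≤ 6 * za + 16 + (6 * zb + 16) := by
      rw [lsize_append]
      omega
    have h := Ad.trans (U := 50 * (F.K * z)) hab r (by omega) (by omega)
    refine h.mono (fun _ h => h) le_rfl ?_
    simp only [XT.nodes]
    nlinarith

/-- Modus ponens. -/
lemma ad_mp {M : ℕ} (hM1 : 1 ≤ M) (φ ψ : Fm α) (hφ : φ.size ≤ M) (hψ : ψ.size ≤ M) :
    Ad F Γ [φ, .imp φ ψ] [ψ] (F.K * M) (2 * F.K) := by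
  have h := Ad.rule (F := F) (Γ := Γ) hM1 [.var 0, .imp (.var 0) (.var 1)] (.var 1) [φ, ψ]
    (by decide) (by
      intro v h
      simp only [List.mem_cons, List.not_mem_nil, or_false, forall_eq_or_imp, forall_eq,
        Fm.eval] at h
      exact h.2 h.1) (by
      intro y hy
      simp only [List.mem_cons, List.not_mem_nil, or_false] at hy
      rcases hy with rfl | rfl
      · exact hφ
      · exact hψ)
  simpa [Fm.subst, sub] using h

/-- Removing one variable. -/
lemma run_kill {s T : ℕ} (x : α) (t : XT α) (hp : t.par x = false)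
    (h : Run F.rules Γ s T [t.fm]) (hs : 100 * (F.K * t.fm.size) ≤ s) :
    ∃ T', T' ≤ T + 20 * (F.K * t.fm.size) ∧ Run F.rules Γ s T' [(t.kill x).fm] := by
  have hK := F.K_pos
  have h1 := XT.one_le_size t
  have hn := XT.nodes_le t
  set z := t.fm.size with hz
  have kz : z ≤ F.K * z := Nat.le_mul_of_pos_left _ hK
  have e : rhs x t = (t.kill x).fm := by simp [rhs, hp]
  have la := lsize_equiv x t
  obtain ⟨T1, a1, b1⟩ := ad_equiv (F := F) (Γ := Γ) x t s T _ h (by simp) (by
    rw [lsize_cons, lsize_nil, ← hz]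
    omega)
  rw [e] at b1 la
  obtain ⟨T2, a2, b2⟩ := ad_mp (F := F) (Γ := Γ) h1 t.fm (t.kill x).fm le_rfl
    (by rw [XT.size_kill]) s T1 _ b1 (by
      intro ψ hψ
      simp only [List.mem_cons, List.not_mem_nil, or_false, List.cons_append, List.nil_append]
        at hψ ⊢
      tauto) (by
      rw [lsize_append, lsize_cons t.fm, lsize_nil]
      omega)
  refine ⟨T2 + 1, ?_, run_erase b2 ?_ ?_⟩
  · have h5 : 10 * F.K * t.nodes ≤ 10 * (F.K * z) := by
      rw [mul_assoc]
      exact Nat.mul_le_mul_left _ (Nat.mul_le_mul_left _ hn)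
    have h6 : F.K ≤ F.K * z := Nat.le_mul_of_pos_right _ h1
    omega
  · intro ψ hψ
    simp only [List.mem_cons, List.not_mem_nil, or_false] at hψ
    subst hψ
    simp
  · rw [lsize_cons, lsize_nil, XT.size_kill]
    omega

lemma run_killAll {s : ℕ} (xs : List α) : ∀ (t : XT α) (T : ℕ), (∀ y, t.par y = false) →
    Run F.rules Γ s T [t.fm] → 100 * (F.K * t.fm.size) ≤ s →
    ∃ T', T' ≤ T + xs.length * (20 * (F.K * t.fm.size)) ∧
      Run F.rules Γ s T' [(killAll xs t).fm] := by
  induction xs with
  | nil => exact fun t T _ h _ => ⟨T, by simp, h⟩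
  | cons x xs ih =>
    intro t T hp h hs
    obtain ⟨T1, a1, b1⟩ := run_kill x t (hp x) h hs
    obtain ⟨T2, a2, b2⟩ := ih (t.kill x) T1 (by
      intro y
      rw [XT.par_kill]
      split_ifs
      · rfl
      · exact hp y) b1 (by rw [XT.size_kill]; exact hs)
    rw [XT.size_kill] at a2
    refine ⟨T2, ?_, b2⟩
    rw [List.length_cons, Nat.add_mul]
    omega

lemma ad_neg (t : XT α) (h : ∀ x, ¬ t.Occ x) :
    Ad F Γ [] [.neg t.fm] (10 * (F.K * t.fm.size)) (10 * F.K * t.nodes) := by
  have hK := F.K_pos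
  induction t with
  | leaf o =>
    cases o with
    | none =>
      have h := Ad.rule (F := F) (Γ := Γ) (M := 1) le_rfl [] (.neg .bot) [] (by decide)
        (by intro v _; exact fun h => h) (by simp)
      exact h.mono (X := []) (by simp) (by simp only [XT.fm, Fm.size]; omega)
        (by simp only [XT.nodes]; omega)
    | some y => exact absurd rfl (h y)
  | node a b iha ihb =>
    have hz := size_node a b
    set z := (XT.node a b).fm.size with hzdef
    have ha1 := XT.one_le_size a
    have hb1 := XT.one_le_size b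
    have kz : F.K * z = 2 * (F.K * a.fm.size) + 2 * (F.K * b.fm.size) + 5 * F.K := by
      rw [hz]
      ring
    have ka : a.fm.size ≤ F.K * a.fm.size := Nat.le_mul_of_pos_left _ hK
    have kb : b.fm.size ≤ F.K * b.fm.size := Nat.le_mul_of_pos_left _ hK
    have hab := Ad.both (U := 10 * (F.K * z)) (iha fun x hx => h x (Or.inl hx))
      (ihb fun x hx => h x (Or.inr hx)) (by omega) (by
        simp only [lsize_cons, lsize_nil, Fm.size]
        omega)
    have r := Ad.rule (F := F) (Γ := Γ) (M := z) (by omega) [.neg (.var 0), .neg (.var 1)]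
      (.neg (xor2 (.var 0) (.var 1))) [a.fm, b.fm] (by decide) (by
        intro v h
        simp only [List.mem_cons, List.not_mem_nil, or_false, forall_eq_or_imp, forall_eq,
          Fm.eval, xor2] at h ⊢
        tauto) (by
        intro y hy
        simp only [List.mem_cons, List.not_mem_nil, or_false] at hy
        rcases hy with rfl | rfl
        · omega
        · omega)
    have r' := Ad.trans (U := 10 * (F.K * z)) hab r le_rfl (by
      simp only [lsize_cons, lsize_nil, Fm.size, List.cons_append, List.nil_append]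
      omega)
    refine r'.mono (fun _ h => h) le_rfl ?_
    simp only [XT.nodes]
    nlinarith

lemma litF_size' (p : Bool) (φ : Fm α) : (LineSize.litF p φ).size ≤ φ.size + 1 := by
  unfold LineSize.litF
  split_ifs
  · omega
  · simp only [Fm.size]
    omega

lemma ad_xor2 {M : ℕ} (hM1 : 1 ≤ M) (p q : Bool) (φ ψ : Fm α) (hφ : φ.size ≤ M)
    (hψ : ψ.size ≤ M) :
    Ad F Γ [LineSize.litF p φ, LineSize.litF q ψ] [LineSize.litF (xor p q) (xor2 φ ψ)]
      (F.K * M) (2 * F.K) := by
  have r := Ad.rule (F := F) (Γ := Γ) hM1 [LineSize.litF p (.var 0), LineSize.litF q (.var 1)]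
      (LineSize.litF (xor p q) (xor2 (.var 0) (.var 1))) [φ, ψ]
      (by cases p <;> cases q <;> decide) (by
        intro v h
        cases p <;> cases q <;>
        simp only [LineSize.litF, List.mem_cons, List.not_mem_nil, or_false, forall_eq_or_imp,
          forall_eq, Fm.eval, xor2, Bool.false_eq_true, if_false, if_true, Bool.xor_false,
          Bool.xor_true, Bool.not_false, Bool.not_true] at h ⊢ <;> tauto) (by
        intro y hy
        simp only [List.mem_cons, List.not_mem_nil, or_false] at hy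
        rcases hy with rfl | rfl
        · exact hφ
        · exact hψ)
  have e1 : ∀ (p : Bool) (φ : Fm ℕ) (σ : ℕ → Fm α),
      (LineSize.litF p φ).subst σ = LineSize.litF p (φ.subst σ) := by
    intro p φ σ
    cases p <;> simp [LineSize.litF, Fm.subst]
  simpa [e1, Fm.subst, sub, xor2] using r

/-- The exclusive or of hypotheses. -/
lemma ad_ofList {V : Type} (T : V → XT α) (b : V → Bool) (k : ℕ) :
    ∀ us : List V, us.length ≤ 2 ^ k → (∀ u ∈ us, LineSize.litF (b u) (T u).fm ∈ Γ) →
      Ad F Γ [] [LineSize.litF (valB b us) (XT.ofList k (us.map T)).fm]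
        (10 * (F.K * (XT.ofList k (us.map T)).fm.size)) (10 * F.K * (2 ^ (k + 1) - 1)) := by
  have hK := F.K_pos
  induction k with
  | zero =>
    intro us hus hax
    match us with
    | [] =>
      have h := Ad.rule (F := F) (Γ := Γ) (M := 1) le_rfl [] (.neg .bot) [] (by decide)
        (by intro v _; exact fun h => h) (by simp)
      have h9 : F.K * 1 ≤ 10 * (F.K * 1) := by omega
      exact h.mono (X := []) (by simp) h9 (by omega)
    | [u] =>
      have h := Ad.hyp (F := F) (hax u (by simp))
      have h2 := litF_size' (b u) (T u).fm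
      have h1 := XT.one_le_size (T u)
      have ka : (T u).fm.size ≤ F.K * (T u).fm.size := Nat.le_mul_of_pos_left _ hK
      have e : [LineSize.litF (valB b [u]) (XT.ofList 0 ([u].map T)).fm]
          = [LineSize.litF (b u) (T u).fm] := by
        simp [valB, XT.ofList]
      have e2 : (XT.ofList 0 ([u].map T)) = T u := by simp [XT.ofList]
      rw [e, e2]
      exact h.mono (fun _ h => h) (by omega) (by omega)
    | u :: v :: us => simp at hus
  | succ k ih =>
    intro us hus hax
    have h1 := ih (us.take (2 ^ k)) (by simp) fun u hu => hax u (List.mem_of_mem_take hu)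
    have h2 := ih (us.drop (2 ^ k)) (by rw [List.length_drop, pow_succ] at *; omega)
      fun u hu => hax u (List.mem_of_mem_drop hu)
    have hfm : XT.node (XT.ofList k ((us.take (2 ^ k)).map T))
        (XT.ofList k ((us.drop (2 ^ k)).map T)) = XT.ofList (k + 1) (us.map T) := by
      simp only [XT.ofList, List.map_take, List.map_drop]
    set ta := XT.ofList k ((us.take (2 ^ k)).map T) with hta
    set tb := XT.ofList k ((us.drop (2 ^ k)).map T) with htb
    rw [← hfm]
    have hz := size_node ta tb
    set z := (XT.node ta tb).fm.size with hzdef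
    have ha1 := XT.one_le_size ta
    have hb1 := XT.one_le_size tb
    have kz : F.K * z = 2 * (F.K * ta.fm.size) + 2 * (F.K * tb.fm.size) + 5 * F.K := by
      rw [hz]
      ring
    have ka : ta.fm.size ≤ F.K * ta.fm.size := Nat.le_mul_of_pos_left _ hK
    have kb : tb.fm.size ≤ F.K * tb.fm.size := Nat.le_mul_of_pos_left _ hK
    have la := litF_size' (valB b (us.take (2 ^ k))) ta.fm
    have lb := litF_size' (valB b (us.drop (2 ^ k))) tb.fm
    have hab := Ad.both (U := 10 * (F.K * z)) h1 h2 (by omega) (by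
      simp only [lsize_cons, lsize_nil]
      omega)
    have r := ad_xor2 (F := F) (Γ := Γ) (M := z) (by omega) (valB b (us.take (2 ^ k)))
      (valB b (us.drop (2 ^ k))) ta.fm tb.fm (by omega) (by omega)
    have h3 := Ad.trans (U := 10 * (F.K * z)) hab r le_rfl (by
      simp only [lsize_cons, lsize_nil, List.cons_append, List.nil_append]
      omega)
    have hval : xor (valB b (us.take (2 ^ k))) (valB b (us.drop (2 ^ k))) = valB b us := by
      rw [← valB_append, List.take_append_drop]
    rw [hval] at h3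
    refine h3.mono (fun _ h => h) le_rfl ?_
    have h2k : 1 ≤ 2 ^ (k + 1) := Nat.one_le_two_pow
    obtain ⟨w, hw⟩ : ∃ w, 2 ^ (k + 1) = w + 1 := ⟨2 ^ (k + 1) - 1, by omega⟩
    have e : 2 ^ (k + 1 + 1) - 1 = 2 * w + 1 := by
      rw [pow_succ 2 (k + 1)]
      omega
    have e' : 2 ^ (k + 1) - 1 = w := by omega
    rw [e, e']
    nlinarith

end Trees

variable {n m : ℕ}

/-- Refutations of quadratic space of contradictory systems. -/
theorem space_xor (F : FregeSystem) (A : Fin m → Cl n)
    (h : ¬ ∃ x : Fin n → Bool, ∀ i, chi (clSup (A i)) x = sg (clRhs (A i))) :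
    ∃ T M, T ≤ 11000 * F.K * (m ^ 2 * n) ∧ Run F.rules (xors A) (11000 * F.K * m ^ 2) T M ∧
      Fm.bot ∈ M := by
  classical
  obtain ⟨hm, hn, us, huslen, hbig, hpar, hval⟩ := big_spec A h
  have hK := F.K_pos
  set k := Nat.clog 2 m with hk
  have hkm : 2 ^ k ≤ 2 * m := two_pow_clog_le hm
  set big : XT (Fin n) := XT.ofList k (us.map fun i => xT (A i)) with hbigdef
  have hm2 : 1 ≤ m ^ 2 := Nat.one_le_pow _ _ hm
  set z := big.fm.size with hz
  have hz1 : 1 ≤ z := XT.one_le_size big
  set s := 11000 * F.K * m ^ 2 with hs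
  have kz : F.K * z ≤ 108 * (F.K * m ^ 2) := by
    calc F.K * z ≤ F.K * (108 * m ^ 2) := Nat.mul_le_mul_left _ hbig
      _ = _ := by ring
  have hs' : s = 11000 * (F.K * m ^ 2) := by
    rw [hs]
    ring
  have kz1 : z ≤ F.K * z := Nat.le_mul_of_pos_left _ hK
  have e1 := ad_ofList (F := F) (Γ := xors A) (fun i => xT (A i)) (fun i => clRhs (A i)) k us
    huslen (by
      intro u _
      rw [← xorF_eq]
      exact List.mem_ofFn.mpr ⟨u, rfl⟩)
  rw [← hbigdef, ← hz, hval] at e1
  obtain ⟨T1, a1, b1⟩ := e1 s 0 [] Run.start (by simp) (by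
    rw [lsize_nil]
    omega)
  set xs := (Finset.univ : Finset (Fin n)).toList with hxs
  have hxslen : xs.length = n := by
    rw [hxs, Finset.length_toList, Finset.card_univ, Fintype.card_fin]
  have b1' : Run F.rules (xors A) s T1 [big.fm] := b1
  obtain ⟨T2, a2, b2⟩ := run_killAll xs big T1 hpar b1' (by
    rw [← hz]
    omega)
  rw [← hz, hxslen] at a2
  set t := killAll xs big with ht
  have hsz : t.fm.size = z := size_killAll xs big
  have e3 := ad_neg (F := F) (Γ := xors A) t (by
    intro x hx
    exact occ_killAll xs big x hx (Finset.mem_toList.mpr (Finset.mem_univ _)))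
  rw [hsz] at e3
  obtain ⟨T3, a3, b3⟩ := e3 s T2 _ b2 (by simp) (by
    rw [lsize_cons, lsize_nil, hsz]
    omega)
  have e4 := Ad.rule (F := F) (Γ := xors A) (M := z) hz1 [.var 0, .neg (.var 0)] .bot
    [t.fm] (by decide) (by
      intro v h
      simp only [List.mem_cons, List.not_mem_nil, or_false, forall_eq_or_imp, forall_eq,
        Fm.eval] at h
      exact absurd h.1 h.2) (by
      intro y hy
      simp only [List.mem_cons, List.not_mem_nil, or_false] at hy
      subst hy
      exact hsz.le)
  obtain ⟨T4, a4, b4⟩ := e4 s T3 _ b3 (by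
    intro ψ hψ
    simp only [List.map_cons, List.map_nil, List.mem_cons, List.not_mem_nil, or_false] at hψ
    rcases hψ with rfl | rfl <;> simp [sub, Fm.subst]) (by
    simp only [List.cons_append, List.nil_append, lsize_cons, lsize_nil, Fm.size, hsz]
    omega)
  refine ⟨T4, _, ?_, b4, by simp [Fm.subst]⟩
  have hnodes := (XT.nodes_le t).trans hsz.le
  have g0 : 2 ^ (k + 1) ≤ 4 * m := by
    rw [pow_succ]
    omega
  have g1 : 10 * F.K * (2 ^ (k + 1) - 1) ≤ 40 * (F.K * m) := by
    calc 10 * F.K * (2 ^ (k + 1) - 1) ≤ 10 * F.K * (4 * m) := Nat.mul_le_mul_left _ (by omega)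
      _ = 40 * (F.K * m) := by ring
  have g3 : 10 * F.K * t.nodes ≤ 10 * (F.K * z) := by
    rw [mul_assoc]
    exact Nat.mul_le_mul_left _ (Nat.mul_le_mul_left _ hnodes)
  have g2 : n * (20 * (F.K * z)) ≤ 2160 * (F.K * (m ^ 2 * n)) := by
    calc n * (20 * (F.K * z)) ≤ n * (20 * (108 * (F.K * m ^ 2))) :=
          Nat.mul_le_mul_left _ (Nat.mul_le_mul_left _ kz)
      _ = _ := by ring
  have mm : m ≤ m ^ 2 := by
    calc m = m ^ 1 := (pow_one m).symm
      _ ≤ m ^ 2 := Nat.pow_le_pow_right hm (by norm_num)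
  have k2 : m ^ 2 ≤ m ^ 2 * n := Nat.le_mul_of_pos_right _ hn
  have k3 : F.K * m ^ 2 ≤ F.K * (m ^ 2 * n) := Nat.mul_le_mul_left _ k2
  have k1 : F.K * m ≤ F.K * m ^ 2 := Nat.mul_le_mul_left _ mm
  have k4 : F.K ≤ F.K * m := Nat.le_mul_of_pos_right _ hm
  have k6 : 11000 * F.K * (m ^ 2 * n) = 11000 * (F.K * (m ^ 2 * n)) := by ring
  rw [k6]
  omega

end Xor

end GridLine
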