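import Pool.Agent.Work.MP_c07f0d_lc.SD.Fin3
import Pool.Agent.Work.MP_c07f0d_lc.SD.XorSpace
import Pool.Agent.Work.MP_c07f0d_lc.SD.EfSpace
import Pool.Agent.Work.MP_c07f0d_lc.SD.SepDefs

/-!
# Random clauses and equations with three variables are hard for Frege proofs of small space
-/

set_option linter.unusedSectionVars false

namespace GridLine

open Finset LineSize FregeEF

namespace Xor

/-- The clauses of a formula, as hypotheses. -/
def clauses {n m : ℕ} (A : Fin m → Cl n) : List (Fm (Fin n)) := List.ofFn fun i => clF (A i)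

/-- The bound for the degree in terms of space and time. -/
def SpaceDegree (F : FregeSystem) (ε : ℝ) (C : ℕ) : Prop :=
  ∀ (ι : Type) [Fintype ι] [DecidableEq ι] (P : PE ι), P.E (fun _ => 1) = 1 →
    ∀ (Γ : List (Fm ι)) (a s T : ℕ), (∀ φ ∈ Γ, φ.size ≤ a) →
      (∀ φ ∈ Γ, P.N (fun x => bv ((nf true φ).ev x) - 1) = 0) →
      ∀ M, Run F.rules Γ s T M → Fm.bot ∈ M →
        (P.cap : ℝ) < (s : ℝ) ^ (1 / 2 + ε) * ((a + 2) * Real.log (T + 2)) ^ C

/-- The hypotheses `Γ` have a refutation in `F` with at most `c * n ^ 3` lines of size at most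
`c * n ^ 2`, where `n` is the number of variables. -/
def PolySize (F : FregeSystem) (c : ℕ) {n : ℕ} (Γ : List (Fm (Fin n))) : Prop :=
  ∃ L : List (Fm (Fin n)), IsDeriv F.rules Γ L ∧ Fm.bot ∈ L ∧ L.length ≤ c * n ^ 3 ∧
    ∀ φ ∈ L, φ.size ≤ c * n ^ 2

/-- The formula is unsatisfiable, its clauses are hard, its equations are hard in small space but
have refutations of polynomial size, also with quadratic space, and extended Frege refutations with
linear space and quadratically many steps. -/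
def Hard (F : FregeSystem) (ε δ : ℝ) (c : ℕ) {n m : ℕ} (A : Fin m → Cl n) : Prop :=
  ¬ Satf A ∧ ¬ Cheap F ε δ (clauses A) ∧ ¬ Cheap F ε δ (xors A) ∧ PolySize F c (xors A) ∧
    SquareSpace F c (xors A) ∧ LinearSpaceEF F c (xors A)

lemma nine_tenths {n : ℕ} (hn : 1 ≤ n) : (9 / 10 : ℝ) ^ n ≤ 9 / n := by
  have hn0 : (0 : ℝ) < n := by exact_mod_cast hn
  have h1 : 1 + (n : ℝ) * (1 / 9) ≤ (1 + 1 / 9) ^ n :=
    one_add_mul_le_pow (by norm_num) n
  have h2 : (9 / 10 : ℝ) ^ n * (1 + 1 / 9) ^ n = 1 := by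
    rw [← mul_pow]
    norm_num
  have h3 : (0 : ℝ) < (9 / 10 : ℝ) ^ n := by positivity
  rw [le_div_iff₀ hn0]
  nlinarith

/-- A solution of the equations satisfies the clauses. -/
lemma satf_of_sol {n m : ℕ} {A : Fin m → Cl n}
    (h : ∃ x : Fin n → Bool, ∀ i, chi (clSup (A i)) x = sg (clRhs (A i))) : Satf A := by
  obtain ⟨x, hx⟩ := h
  rw [satf_iff]
  refine ⟨x, fun i => ?_⟩
  by_contra hcon
  push Not at hcon
  have h1 := hx i
  rw [chi_clSup] at h1
  have h4 : ∀ j, sg (x ((A i).1 j)) = - sg ((A i).2 j) := by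
    intro j
    have h6 := hcon j
    revert h6
    cases x ((A i).1 j) <;> cases (A i).2 j <;> simp [sg]
  rw [h4, h4, h4] at h1
  unfold clRhs at h1
  rw [sg_xor, sg_xor] at h1
  have h5 : ∀ b : Bool, sg b = 1 ∨ sg b = -1 := by
    intro b
    cases b <;> simp [sg]
  rcases h5 ((A i).2 0) with h6 | h6 <;> rcases h5 ((A i).2 1) with h7 | h7 <;>
    rcases h5 ((A i).2 2) with h8 | h8 <;> rw [h6, h7, h8] at h1 <;> norm_num at h1

lemma run_mono {α : Type} {R : List Rule} {Γ M : List (Fm α)} {s s' T : ℕ} (h : Run R Γ s T M)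
    (hs : s ≤ s') : Run R Γ s' T M := by
  induction h with
  | start => exact Run.start
  | step _ h1 h2 ih => exact Run.step ih h1 (h2.trans hs)

lemma runE_mono {α : Type} {R : List Rule} {Γ M : List (Fm (α ⊕ ℕ))} {s s' T k : ℕ}
    (h : RunE R Γ s T k M) (hs : s ≤ s') : RunE R Γ s' T k M := by
  induction h with
  | start => exact RunE.start
  | erase _ h1 h2 ih => exact ih.erase h1 (h2.trans hs)
  | step φ _ h1 h2 h3 h4 ih => exact ih.step φ h1 h2 h3 (h4.trans hs)
  | ext φ _ h1 h2 h3 ih => exact ih.ext φ h1 h2 (h3.trans hs)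

open Classical in
/-- Random formulas with `Δ n` clauses. -/
theorem random3 (F : FregeSystem) {ε : ℝ} (hε : 0 < ε) {C : ℕ} (hSD : SpaceDegree F (ε / 8) C)
    {Δ : ℕ} (hΔ : 6 ≤ Δ) : ∃ δ : ℝ, 0 < δ ∧ ∃ c : ℕ, ∀ n : ℕ, 1 ≤ n →
      ((Finset.univ.filter fun A : Fin (Δ * n) → Cl n => ¬ Hard F ε δ c A).card : ℝ)
        ≤ c / n * (Fintype.card (Fin (Δ * n) → Cl n) : ℝ) := by
  set K : ℕ := (54 * Δ) ^ 4 with hK
  have hK1 : 1 ≤ K := Nat.one_le_pow _ _ (by omega)
  obtain ⟨δ, hδ, n₀, hn₀, hmain⟩ := fin3_arith hε C K 26 hK1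
  set c : ℕ := n₀ + 64 * K + 9 + 400 * F.K * Δ ^ 2 + 11000 * F.K * Δ ^ 2 + 300 * F.K * Δ with hc
  have hcR : ((n₀ + 64 * K + 9 : ℕ) : ℝ) ≤ c := by
    exact_mod_cast (by omega : n₀ + 64 * K + 9 ≤ c)
  have hKR : (K : ℝ) = (54 * Δ : ℝ) ^ 4 := by
    rw [hK]
    push_cast
    ring
  push_cast at hcR
  refine ⟨δ, hδ, c, fun n hn => ?_⟩
  have hn0 : (0 : ℝ) < n := by exact_mod_cast hn
  set tot : ℝ := (Fintype.card (Fin (Δ * n) → Cl n) : ℝ) with htot
  have htot0 : 0 ≤ tot := by positivity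
  have hK0 : (0 : ℝ) ≤ K := Nat.cast_nonneg _
  have hn₀0 : (0 : ℝ) ≤ n₀ := Nat.cast_nonneg _
  by_cases hsmall : n < n₀
  · have h1 : ((Finset.univ.filter fun A : Fin (Δ * n) → Cl n => ¬ Hard F ε δ c A).card : ℝ)
        ≤ tot := by
      rw [htot, ← Finset.card_univ]
      exact_mod_cast Finset.card_le_card (Finset.filter_subset _ _)
    refine h1.trans ?_
    have h2 : (1 : ℝ) ≤ c / n := by
      rw [le_div_iff₀ hn0, one_mul]
      have h3 : (n : ℝ) ≤ n₀ := by exact_mod_cast hsmall.le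
      linarith
    nlinarith
  · push Not at hsmall
    have hnK : 768 * K ≤ n := hn₀.trans hsmall
    set q := n / (256 * K) with hq
    have hq1 : q * (256 * K) ≤ n := Nat.div_mul_le_self _ _
    have hq3 : 3 ≤ q := (Nat.le_div_iff_mul_le (by omega)).2 (by omega)
    have hcond : 32 * (54 * Δ) ^ 4 * (4 * q + 1) ≤ n := by
      rw [← hK]
      nlinarith
    have hsub : (Finset.univ.filter fun A : Fin (Δ * n) → Cl n => ¬ Hard F ε δ c A) ⊆
        (Finset.univ.filter fun A : Fin (Δ * n) → Cl n => ¬ Expd A (4 * q)) ∪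
        (Finset.univ.filter fun A : Fin (Δ * n) → Cl n => Satf A) := by
      intro A hA
      have hA' := (Finset.mem_filter.1 hA).2
      rw [Finset.mem_union, Finset.mem_filter, Finset.mem_filter]
      by_contra hcon
      push Not at hcon
      obtain ⟨hE, hS⟩ := hcon
      have hE := hE (Finset.mem_univ _)
      have hS := hS (Finset.mem_univ _)
      obtain ⟨P, hcap, hone, hax, hax'⟩ := exists_pe' hE (T := q) le_rfl hq3
      have key : ∀ Γ : List (Fm (Fin n)), (∀ φ ∈ Γ, φ.size ≤ 26) →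
          (∀ φ ∈ Γ, P.N (fun x => bv ((nf true φ).ev x) - 1) = 0) → ¬ Cheap F ε δ Γ := by
        rintro Γ hΓ hP ⟨s, T, M, hs, hT, hrun, hbot⟩
        have h1 := hSD (Fin n) P hone Γ 26 s T hΓ hP M hrun hbot
        have h2 := hmain n hsmall s T hs hT
        rw [hcap] at h1
        exact absurd (h1.trans_le h2) (lt_irrefl _)
      apply hA'
      have hunsat : ¬ ∃ x : Fin n → Bool, ∀ i, chi (clSup (A i)) x = sg (clRhs (A i)) :=
        fun h => hS (satf_of_sol h)
      refine ⟨hS, ?_, ?_, ?_, ?_, ?_⟩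
      · refine key _ ?_ hax
        intro φ hφ
        obtain ⟨i, rfl⟩ := List.mem_ofFn.1 hφ
        exact (clF_size _).trans (by omega)
      · refine key _ ?_ hax'
        intro φ hφ
        obtain ⟨i, rfl⟩ := List.mem_ofFn.1 hφ
        exact xorF_size _
      · obtain ⟨L, h1, h2, h3, h4⟩ := upper_xor F A hunsat
        have hcK : 400 * F.K * Δ ^ 2 ≤ c := by omega
        refine ⟨L, h1, h2, h3.trans ?_, fun φ hφ => (h4 φ hφ).trans ?_⟩
        · calc 400 * F.K * ((Δ * n) ^ 2 * n) = 400 * F.K * Δ ^ 2 * n ^ 3 := by ring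
            _ ≤ c * n ^ 3 := Nat.mul_le_mul_right _ hcK
        · calc 400 * F.K * (Δ * n) ^ 2 = 400 * F.K * Δ ^ 2 * n ^ 2 := by ring
            _ ≤ c * n ^ 2 := Nat.mul_le_mul_right _ hcK
      · obtain ⟨T, M, h1, h2, h3⟩ := space_xor F A hunsat
        have hcK : 11000 * F.K * Δ ^ 2 ≤ c := by omega
        refine ⟨T, M, h1.trans ?_, run_mono h2 ?_, h3⟩
        · calc 11000 * F.K * ((Δ * n) ^ 2 * n) = 11000 * F.K * Δ ^ 2 * n ^ 3 := by ring
            _ ≤ c * n ^ 3 := Nat.mul_le_mul_right _ hcK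
        · calc 11000 * F.K * (Δ * n) ^ 2 = 11000 * F.K * Δ ^ 2 * n ^ 2 := by ring
            _ ≤ c * n ^ 2 := Nat.mul_le_mul_right _ hcK
      · obtain ⟨T, k, M, h1, h2, h3⟩ := ef_xor F A hunsat
        have hcK : 300 * F.K * Δ ≤ c := by omega
        have hΔ1 : F.K ≤ F.K * Δ := Nat.le_mul_of_pos_right _ (by omega)
        have hcK' : 300 * F.K ≤ c := by
          have : 300 * F.K * Δ = 300 * (F.K * Δ) := by ring
          omega
        refine ⟨T, k, M, h1.trans ?_, runE_mono h2 (Nat.mul_le_mul_right _ hcK'), h3⟩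
        calc 300 * F.K * (Δ * n * n) = 300 * F.K * Δ * n ^ 2 := by ring
          _ ≤ c * n ^ 2 := Nat.mul_le_mul_right _ hcK
    have h1 := few_not_expd (Δ := Δ) (n := n) (s := 4 * q) (by omega) hcond
    have h2 := few_satf hΔ n
    have h3 := nine_tenths hn
    have h4 : ((Finset.univ.filter fun A : Fin (Δ * n) → Cl n => ¬ Hard F ε δ c A).card : ℝ)
        ≤ ((Finset.univ.filter fun A : Fin (Δ * n) → Cl n => ¬ Expd A (4 * q)).card : ℝ)
          + ((Finset.univ.filter fun A : Fin (Δ * n) → Cl n => Satf A).card : ℝ) := by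
      exact_mod_cast (Finset.card_le_card hsub).trans (Finset.card_union_le _ _)
    refine h4.trans ?_
    calc ((Finset.univ.filter fun A : Fin (Δ * n) → Cl n => ¬ Expd A (4 * q)).card : ℝ)
          + ((Finset.univ.filter fun A : Fin (Δ * n) → Cl n => Satf A).card : ℝ)
        ≤ 64 * (54 * Δ : ℝ) ^ 4 / n * tot + 9 / n * tot := by
          apply add_le_add h1
          exact h2.trans (mul_le_mul_of_nonneg_right h3 htot0)
      _ = (64 * K + 9) / n * tot := by
          rw [hKR]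
          ring
      _ ≤ _ := by
          apply mul_le_mul_of_nonneg_right _ htot0
          apply div_le_div_of_nonneg_right _ hn0.le
          linarith

/-- A derivation is a run. -/
lemma run_of_isDeriv {α : Type} {R : List Rule} {Γ L : List (Fm α)} (h : IsDeriv R Γ L) :
    ∀ s, lsize L ≤ s → Run R Γ s L.length L := by
  induction h with
  | nil => exact fun s _ => Run.start
  | @hyp L φ hL hφ ih =>
    intro s hs
    have h1 : lsize L ≤ s := le_trans (by simp [lsize]) hs
    exact Run.step (ih s h1) (Or.inr ⟨φ, Or.inl hφ, fun ψ hψ => List.mem_cons.1 hψ⟩) hs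
  | @step L φ hL hφ ih =>
    intro s hs
    have h1 : lsize L ≤ s := le_trans (by simp [lsize]) hs
    exact Run.step (ih s h1) (Or.inr ⟨φ, Or.inr hφ, fun ψ hψ => List.mem_cons.1 hψ⟩) hs

lemma Fm_size_pos {α : Type} (φ : Fm α) : 1 ≤ φ.size := by
  cases φ <;> simp [Fm.size]

lemma length_le_lsize {α : Type} (L : List (Fm α)) : L.length ≤ lsize L := by
  induction L with
  | nil => simp [lsize]
  | cons φ L ih =>
    have := Fm_size_pos φ
    simp only [lsize, List.map_cons, List.sum_cons, List.length_cons] at ih ⊢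
    omega

end Xor

end GridLine
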