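import Pool.Agent.Work.MP_c07f0d_lc.SD.Rand3

/-!
# Random clauses with three variables: almost all systems expand
-/

set_option linter.unusedSectionVars false

namespace GridLine

open Finset LineSize

namespace Xor

lemma choose_bound (N : ℕ) {k : ℕ} (hk : 1 ≤ k) :
    (N.choose k : ℝ) ≤ (3 * N / k) ^ k := by
  have hk0 : (0 : ℝ) < k := by exact_mod_cast hk
  have h1 : (N.choose k : ℝ) ≤ (N : ℝ) ^ k / (k.factorial : ℝ) := Nat.choose_le_pow_div k N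
  have h2 : (k : ℝ) ^ k / (k.factorial : ℝ) ≤ 3 ^ k := by
    have h3 := Real.pow_div_factorial_le_exp (k : ℝ) hk0.le k
    have h4 : Real.exp (k : ℝ) ≤ 3 ^ k := by
      rw [← Real.exp_one_rpow, Real.rpow_natCast]
      exact pow_le_pow_left₀ (Real.exp_pos _).le Real.exp_one_lt_three.le k
    exact h3.trans h4
  have hf : (0 : ℝ) < (k.factorial : ℝ) := by exact_mod_cast k.factorial_pos
  have h5 : (1 : ℝ) / (k.factorial : ℝ) ≤ 3 ^ k / (k : ℝ) ^ k := by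
    rw [div_le_div_iff₀ hf (by positivity)]
    rw [div_le_iff₀ hf] at h2
    linarith
  calc (N.choose k : ℝ) ≤ (N : ℝ) ^ k / (k.factorial : ℝ) := h1
    _ = (N : ℝ) ^ k * (1 / (k.factorial : ℝ)) := by ring
    _ ≤ (N : ℝ) ^ k * (3 ^ k / (k : ℝ) ^ k) := mul_le_mul_of_nonneg_left h5 (by positivity)
    _ = (3 * N / k) ^ k := by
      rw [div_pow, mul_pow]
      ring

lemma desc_ratio {t n : ℕ} (h : t ≤ n) :
    t.descFactorial 3 * n ^ 3 ≤ n.descFactorial 3 * t ^ 3 := by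
  by_cases ht : t < 3
  · rw [Nat.descFactorial_of_lt ht]
    simp
  · push Not at ht
    obtain ⟨a, rfl⟩ : ∃ a, t = a + 3 := ⟨t - 3, by omega⟩
    obtain ⟨c, rfl⟩ : ∃ c, n = a + 3 + c := ⟨n - (a + 3), by omega⟩
    have e1 : (a + 3).descFactorial 3 = (a + 3) * (a + 2) * (a + 1) := by
      simp [Nat.descFactorial_succ]
      ring
    have e2 : (a + 3 + c).descFactorial 3 = (a + 3 + c) * (a + 2 + c) * (a + 1 + c) := by
      simp only [Nat.descFactorial_succ, Nat.descFactorial_zero, mul_one]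
      have h1 : a + 3 + c - 2 = a + 1 + c := by omega
      have h2 : a + 3 + c - 1 = a + 2 + c := by omega
      rw [h1, h2]
      simp
      ring
    rw [e1, e2]
    have h1 : (a + 2) * (a + 3 + c) ≤ (a + 2 + c) * (a + 3) := by nlinarith
    have h2 : (a + 1) * (a + 3 + c) ≤ (a + 1 + c) * (a + 3) := by nlinarith
    calc (a + 3) * (a + 2) * (a + 1) * (a + 3 + c) ^ 3
        = ((a + 3) * (a + 3 + c)) * (((a + 2) * (a + 3 + c)) * ((a + 1) * (a + 3 + c))) := by ring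
      _ ≤ ((a + 3) * (a + 3 + c)) * (((a + 2 + c) * (a + 3)) * ((a + 1 + c) * (a + 3))) :=
          Nat.mul_le_mul_left _ (Nat.mul_le_mul h1 h2)
      _ = _ := by ring

/-- The bound for one term, in normalised form. -/
lemma term_norm {Δ n k : ℕ} (hΔ : 1 ≤ Δ) (hn : 32 * (54 * Δ) ^ 4 * (k / 4 + 1) ≤ n) :
    ((Δ * n).choose (k + 1) : ℝ) * (n.choose (7 * (k + 1) / 4) : ℝ) *
        (((7 * (k + 1) / 4 : ℕ) : ℝ) / n) ^ (3 * (k + 1))
      ≤ (8 * (54 * Δ : ℝ) ^ 4 * ((k / 4 + 1 : ℕ) : ℝ) / n) ^ (k / 4 + 1) := by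
  set j := k / 4 + 1 with hj
  set t := 7 * (k + 1) / 4 with ht
  have hkj : k + 1 ≤ 4 * j := by omega
  have ht1 : 1 ≤ t := by omega
  have htk : t ≤ 2 * (k + 1) := by omega
  have ht3 : (k + 1) + j ≤ 3 * (k + 1) - t := by omega
  have ht4 : t ≤ 3 * (k + 1) := by omega
  have hB1 : 1 ≤ (54 * Δ) ^ 4 := Nat.one_le_pow _ _ (by omega)
  have hn1 : 32 * j ≤ n := by
    calc 32 * j ≤ 32 * (54 * Δ) ^ 4 * j := by
          rw [mul_assoc]
          exact Nat.mul_le_mul_left _ (Nat.le_mul_of_pos_left _ (by omega))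
      _ ≤ n := hn
  have hn0 : (0 : ℝ) < n := by
    have : 0 < n := by omega
    exact_mod_cast this
  have hk0 : (0 : ℝ) < ((k + 1 : ℕ) : ℝ) := by positivity
  have ht0 : (0 : ℝ) < (t : ℝ) := by exact_mod_cast ht1
  have hD0 : (1 : ℝ) ≤ (Δ : ℝ) := by exact_mod_cast hΔ
  have h1 := choose_bound (Δ * n) (k := k + 1) (by omega)
  have h2 := choose_bound n (k := t) ht1
  have hsmall : 2 * ((k + 1 : ℕ) : ℝ) / n ≤ 1 := by
    rw [div_le_one hn0]
    have : 2 * (k + 1) ≤ n := by omega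
    exact_mod_cast this
  have htn : (t : ℝ) / n ≤ 2 * ((k + 1 : ℕ) : ℝ) / n := by
    apply div_le_div_of_nonneg_right _ hn0.le
    exact_mod_cast htk
  -- split the power
  have e3 : ((t : ℝ) / n) ^ (3 * (k + 1)) = ((t : ℝ) / n) ^ t * ((t : ℝ) / n) ^ (3 * (k + 1) - t) := by
    rw [← pow_add]
    congr 1
    omega
  have h3 : ((t : ℝ) / n) ^ (3 * (k + 1) - t) ≤ (2 * ((k + 1 : ℕ) : ℝ) / n) ^ ((k + 1) + j) := by
    calc ((t : ℝ) / n) ^ (3 * (k + 1) - t) ≤ (2 * ((k + 1 : ℕ) : ℝ) / n) ^ (3 * (k + 1) - t) :=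
          pow_le_pow_left₀ (by positivity) htn _
      _ ≤ _ := pow_le_pow_of_le_one (by positivity) hsmall ht3
  have h4 : ((Δ * n).choose (k + 1) : ℝ) * (n.choose t : ℝ) * ((t : ℝ) / n) ^ (3 * (k + 1))
      ≤ (3 * ((Δ * n : ℕ) : ℝ) / ((k + 1 : ℕ) : ℝ)) ^ (k + 1) * (3 * (n : ℝ) / t) ^ t *
        (((t : ℝ) / n) ^ t * (2 * ((k + 1 : ℕ) : ℝ) / n) ^ ((k + 1) + j)) := by
    rw [e3]
    apply mul_le_mul
    · exact mul_le_mul h1 h2 (by positivity) (by positivity)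
    · exact mul_le_mul_of_nonneg_left h3 (by positivity)
    · positivity
    · positivity
  have e5 : (3 * (n : ℝ) / t) ^ t * ((t : ℝ) / n) ^ t = 3 ^ t := by
    rw [← mul_pow]
    congr 1
    field_simp
  have e6 : (3 * ((Δ * n : ℕ) : ℝ) / ((k + 1 : ℕ) : ℝ)) ^ (k + 1)
        * (2 * ((k + 1 : ℕ) : ℝ) / n) ^ (k + 1) = (6 * (Δ : ℝ)) ^ (k + 1) := by
    rw [← mul_pow]
    congr 1
    push_cast
    field_simp
    norm_num
  have e7 : (3 * ((Δ * n : ℕ) : ℝ) / ((k + 1 : ℕ) : ℝ)) ^ (k + 1) * (3 * (n : ℝ) / t) ^ t *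
        (((t : ℝ) / n) ^ t * (2 * ((k + 1 : ℕ) : ℝ) / n) ^ ((k + 1) + j))
      = (6 * (Δ : ℝ)) ^ (k + 1) * 3 ^ t * (2 * ((k + 1 : ℕ) : ℝ) / n) ^ j := by
    rw [pow_add (2 * ((k + 1 : ℕ) : ℝ) / n) (k + 1) j, ← e5, ← e6]
    ring
  rw [e7] at h4
  refine h4.trans ?_
  have h8 : (3 : ℝ) ^ t ≤ 9 ^ (k + 1) := by
    calc (3 : ℝ) ^ t ≤ 3 ^ (2 * (k + 1)) := pow_le_pow_right₀ (by norm_num) htk
      _ = 9 ^ (k + 1) := by rw [pow_mul]; norm_num
  have h9 : (6 * (Δ : ℝ)) ^ (k + 1) * 3 ^ t ≤ ((54 * Δ : ℝ) ^ 4) ^ j := by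
    calc (6 * (Δ : ℝ)) ^ (k + 1) * 3 ^ t ≤ (6 * (Δ : ℝ)) ^ (k + 1) * 9 ^ (k + 1) :=
          mul_le_mul_of_nonneg_left h8 (by positivity)
      _ = (54 * Δ : ℝ) ^ (k + 1) := by rw [← mul_pow]; congr 1; ring
      _ ≤ (54 * Δ : ℝ) ^ (4 * j) := pow_le_pow_right₀ (by linarith) hkj
      _ = _ := by rw [pow_mul]
  have h10 : (2 * ((k + 1 : ℕ) : ℝ) / n) ^ j ≤ (8 * (j : ℝ) / n) ^ j := by
    apply pow_le_pow_left₀ (by positivity)
    apply div_le_div_of_nonneg_right _ hn0.le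
    have : 2 * (k + 1) ≤ 8 * j := by omega
    exact_mod_cast this
  calc (6 * (Δ : ℝ)) ^ (k + 1) * 3 ^ t * (2 * ((k + 1 : ℕ) : ℝ) / n) ^ j
      ≤ ((54 * Δ : ℝ) ^ 4) ^ j * (8 * (j : ℝ) / n) ^ j :=
        mul_le_mul h9 h10 (by positivity) (by positivity)
    _ = _ := by
      rw [← mul_pow]
      congr 1
      ring

lemma two_pow_bound (i : ℕ) : ((i + 1 : ℕ) : ℝ) ≤ 2 ^ i := by
  have : i + 1 ≤ 2 ^ i := Nat.lt_two_pow_self
  exact_mod_cast this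

/-- The term bound in geometric form. -/
lemma term_geo {Δ n k : ℕ} (hΔ : 1 ≤ Δ) (hn : 32 * (54 * Δ) ^ 4 * (k / 4 + 1) ≤ n) :
    (8 * (54 * Δ : ℝ) ^ 4 * ((k / 4 + 1 : ℕ) : ℝ) / n) ^ (k / 4 + 1)
      ≤ (8 * (54 * Δ : ℝ) ^ 4 / n) * (1 / 2) ^ (k / 4) := by
  have hD0 : (1 : ℝ) ≤ (Δ : ℝ) := by exact_mod_cast hΔ
  have hB1 : 1 ≤ (54 * Δ) ^ 4 := Nat.one_le_pow _ _ (by omega)
  have hn0' : 0 < n := by
    have : 32 * 1 * 1 ≤ 32 * (54 * Δ) ^ 4 * (k / 4 + 1) :=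
      Nat.mul_le_mul (Nat.mul_le_mul_left _ hB1) (by omega)
    omega
  have hn0 : (0 : ℝ) < n := by exact_mod_cast hn0'
  have hq : 8 * (54 * Δ : ℝ) ^ 4 * ((k / 4 + 1 : ℕ) : ℝ) / n ≤ 1 / 4 := by
    rw [div_le_iff₀ hn0]
    have h : (32 : ℝ) * (54 * Δ : ℝ) ^ 4 * ((k / 4 + 1 : ℕ) : ℝ) ≤ n := by exact_mod_cast hn
    linarith
  rw [pow_succ]
  have h1 : (8 * (54 * Δ : ℝ) ^ 4 * ((k / 4 + 1 : ℕ) : ℝ) / n) ^ (k / 4) ≤ (1 / 4) ^ (k / 4) :=
    pow_le_pow_left₀ (by positivity) hq _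
  have h2 := two_pow_bound (k / 4)
  calc (8 * (54 * Δ : ℝ) ^ 4 * ((k / 4 + 1 : ℕ) : ℝ) / n) ^ (k / 4)
        * (8 * (54 * Δ : ℝ) ^ 4 * ((k / 4 + 1 : ℕ) : ℝ) / n)
      ≤ (1 / 4) ^ (k / 4) * (8 * (54 * Δ : ℝ) ^ 4 * 2 ^ (k / 4) / n) := by
        apply mul_le_mul h1 _ (by positivity) (by positivity)
        apply div_le_div_of_nonneg_right _ hn0.le
        exact mul_le_mul_of_nonneg_left h2 (by positivity)
    _ = (8 * (54 * Δ : ℝ) ^ 4 / n) * ((1 / 4) ^ (k / 4) * 2 ^ (k / 4)) := by ring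
    _ = (8 * (54 * Δ : ℝ) ^ 4 / n) * (1 / 2) ^ (k / 4) := by
        rw [← mul_pow]
        norm_num

lemma sum_quarter (g : ℕ → ℝ) (J : ℕ) :
    ∑ k ∈ Finset.range (4 * J), g (k / 4) = 4 * ∑ i ∈ Finset.range J, g i := by
  induction J with
  | zero => simp
  | succ J ih =>
    rw [show 4 * (J + 1) = 4 * J + 1 + 1 + 1 + 1 by ring, Finset.sum_range_succ,
      Finset.sum_range_succ, Finset.sum_range_succ, Finset.sum_range_succ, ih,
      Finset.sum_range_succ]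
    have h0 : 4 * J / 4 = J := by omega
    have h1 : (4 * J + 1) / 4 = J := by omega
    have h2 : (4 * J + 1 + 1) / 4 = J := by omega
    have h3 : (4 * J + 1 + 1 + 1) / 4 = J := by omega
    rw [h0, h1, h2, h3]
    ring

lemma sum_half (J : ℕ) : ∑ i ∈ Finset.range J, (1 / 2 : ℝ) ^ i ≤ 2 := by
  have h : ∀ J : ℕ, ∑ i ∈ Finset.range J, (1 / 2 : ℝ) ^ i = 2 - 2 * (1 / 2) ^ J := by
    intro J
    induction J with
    | zero => simp
    | succ J ih =>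
      rw [Finset.sum_range_succ, ih, pow_succ]
      ring
  rw [h]
  have : (0 : ℝ) ≤ 2 * (1 / 2) ^ J := by positivity
  linarith

/-- Almost all formulas expand. -/
theorem few_not_expd {Δ n s : ℕ} (hΔ : 1 ≤ Δ) (hn : 32 * (54 * Δ) ^ 4 * (s + 1) ≤ n)
    [DecidablePred fun A : Fin (Δ * n) → Cl n => ¬ Expd A s] :
    ((Finset.univ.filter fun A : Fin (Δ * n) → Cl n => ¬ Expd A s).card : ℝ)
      ≤ 64 * (54 * Δ : ℝ) ^ 4 / n * (Fintype.card (Fin (Δ * n) → Cl n) : ℝ) := by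
  have hB1 : 1 ≤ (54 * Δ) ^ 4 := Nat.one_le_pow _ _ (by omega)
  have hns : 32 * (s + 1) ≤ n := by
    calc 32 * (s + 1) ≤ 32 * (54 * Δ) ^ 4 * (s + 1) := by
          rw [mul_assoc]
          exact Nat.mul_le_mul_left _ (Nat.le_mul_of_pos_left _ (by omega))
      _ ≤ n := hn
  have hn0 : (0 : ℝ) < n := by
    have : 0 < n := by omega
    exact_mod_cast this
  have hN : 0 < n.descFactorial 3 := Nat.descFactorial_pos.2 (by omega)
  have hNR : (0 : ℝ) < (n.descFactorial 3 : ℝ) := by exact_mod_cast hN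
  have htot : (Fintype.card (Fin (Δ * n) → Cl n) : ℝ)
      = ((n.descFactorial 3 : ℝ) * 8) ^ (Δ * n) := by
    rw [Fintype.card_fun, card_cl, Fintype.card_fin]
    push_cast
    ring
  have h0 := card_not_expd (m := Δ * n) (s := s) (n := n) (by omega)
  have h0' : ((Finset.univ.filter fun A : Fin (Δ * n) → Cl n => ¬ Expd A s).card : ℝ) ≤
      ∑ k ∈ Finset.range (2 * s), ((Δ * n).choose (k + 1) : ℝ) *
        (n.choose (7 * (k + 1) / 4) : ℝ) *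
        (((((7 * (k + 1) / 4).descFactorial 3 : ℕ) : ℝ) * 8) ^ (k + 1)
          * ((n.descFactorial 3 : ℝ) * 8) ^ (Δ * n - (k + 1))) := by
    exact_mod_cast h0
  refine h0'.trans ?_
  have hterm : ∀ k ∈ Finset.range (2 * s), ((Δ * n).choose (k + 1) : ℝ) *
        (n.choose (7 * (k + 1) / 4) : ℝ) *
        (((((7 * (k + 1) / 4).descFactorial 3 : ℕ) : ℝ) * 8) ^ (k + 1)
          * ((n.descFactorial 3 : ℝ) * 8) ^ (Δ * n - (k + 1)))
      ≤ ((8 * (54 * Δ : ℝ) ^ 4 / n) * (1 / 2) ^ (k / 4))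
        * ((n.descFactorial 3 : ℝ) * 8) ^ (Δ * n) := by
    intro k hk
    have hk' := Finset.mem_range.1 hk
    by_cases hkm : Δ * n < k + 1
    · rw [Nat.choose_eq_zero_of_lt hkm]
      simp only [Nat.cast_zero, zero_mul]
      positivity
    · push Not at hkm
      have hnk : 32 * (54 * Δ) ^ 4 * (k / 4 + 1) ≤ n :=
        (Nat.mul_le_mul_left _ (by omega)).trans hn
      have h1 := (term_norm hΔ hnk).trans (term_geo hΔ hnk)
      set t := 7 * (k + 1) / 4 with ht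
      have htn : t ≤ n := by omega
      have h2 : ((t.descFactorial 3 : ℕ) : ℝ) ≤ (n.descFactorial 3 : ℝ) * ((t : ℝ) / n) ^ 3 := by
        have h3 : ((t.descFactorial 3 : ℕ) : ℝ) * (n : ℝ) ^ 3
            ≤ (n.descFactorial 3 : ℝ) * (t : ℝ) ^ 3 := by exact_mod_cast desc_ratio htn
        rw [div_pow, ← mul_div_assoc, le_div_iff₀ (by positivity)]
        exact h3
      have h4 : (((t.descFactorial 3 : ℕ) : ℝ) * 8) ^ (k + 1)
          ≤ ((n.descFactorial 3 : ℝ) * 8) ^ (k + 1) * ((t : ℝ) / n) ^ (3 * (k + 1)) := by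
        rw [pow_mul, ← mul_pow]
        apply pow_le_pow_left₀ (by positivity)
        nlinarith
      have e5 : ((n.descFactorial 3 : ℝ) * 8) ^ (Δ * n)
          = ((n.descFactorial 3 : ℝ) * 8) ^ (k + 1)
            * ((n.descFactorial 3 : ℝ) * 8) ^ (Δ * n - (k + 1)) := by
        rw [← pow_add]
        congr 1
        omega
      calc ((Δ * n).choose (k + 1) : ℝ) * (n.choose t : ℝ) *
          ((((t.descFactorial 3 : ℕ) : ℝ) * 8) ^ (k + 1)
            * ((n.descFactorial 3 : ℝ) * 8) ^ (Δ * n - (k + 1)))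
          ≤ ((Δ * n).choose (k + 1) : ℝ) * (n.choose t : ℝ) *
          ((((n.descFactorial 3 : ℝ) * 8) ^ (k + 1) * ((t : ℝ) / n) ^ (3 * (k + 1)))
            * ((n.descFactorial 3 : ℝ) * 8) ^ (Δ * n - (k + 1))) := by
            apply mul_le_mul_of_nonneg_left _ (by positivity)
            exact mul_le_mul_of_nonneg_right h4 (by positivity)
        _ = (((Δ * n).choose (k + 1) : ℝ) * (n.choose t : ℝ) * ((t : ℝ) / n) ^ (3 * (k + 1)))
            * ((n.descFactorial 3 : ℝ) * 8) ^ (Δ * n) := by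
            rw [e5]
            ring
        _ ≤ _ := mul_le_mul_of_nonneg_right h1 (by positivity)
  refine (Finset.sum_le_sum hterm).trans ?_
  rw [← Finset.sum_mul, htot]
  apply mul_le_mul_of_nonneg_right _ (by positivity)
  rw [← Finset.mul_sum]
  have h5 : ∑ k ∈ Finset.range (2 * s), (1 / 2 : ℝ) ^ (k / 4) ≤ 8 := by
    calc ∑ k ∈ Finset.range (2 * s), (1 / 2 : ℝ) ^ (k / 4)
        ≤ ∑ k ∈ Finset.range (4 * s), (1 / 2 : ℝ) ^ (k / 4) :=
          Finset.sum_le_sum_of_subset_of_nonneg (Finset.range_mono (by omega))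
            (fun _ _ _ => by positivity)
      _ = 4 * ∑ i ∈ Finset.range s, (1 / 2 : ℝ) ^ i := sum_quarter (fun i => (1 / 2 : ℝ) ^ i) s
      _ ≤ 8 := by
        have := sum_half s
        linarith
  calc 8 * (54 * Δ : ℝ) ^ 4 / n * ∑ k ∈ Finset.range (2 * s), (1 / 2 : ℝ) ^ (k / 4)
      ≤ 8 * (54 * Δ : ℝ) ^ 4 / n * 8 := mul_le_mul_of_nonneg_left h5 (by positivity)
    _ = 64 * (54 * Δ : ℝ) ^ 4 / n := by ring

end Xor

end GridLine
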