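import Pool.Agent.Work.MP_c07f0d_lc.SD.Fam

/-!
# Approximants of instances of schematic formulas
-/

set_option linter.unusedSectionVars false

namespace GridLine

open Finset LineSize FregeEF

variable {ι : Type} [Fintype ι] [DecidableEq ι]

/-- The truth value of a schematic formula. -/
def tv (n : ℕ) : Fm ℕ → (Fin n → Bool) → Bool
  | .var i => fun v => if h : i < n then v ⟨i, h⟩ else false
  | .bot => fun _ => false
  | .neg φ => fun v => !(tv n φ v)
  | .and φ ψ => fun v => tv n φ v && tv n ψ v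
  | .or φ ψ => fun v => tv n φ v || tv n ψ v
  | .imp φ ψ => fun v => !(tv n φ v) || tv n ψ v

lemma tv_eval (n : ℕ) (v : Fin n → Bool) (φ : Fm ℕ) :
    tv n φ v = true ↔ φ.eval (fun i => ∃ h : i < n, v ⟨i, h⟩ = true) := by
  induction φ with
  | var i =>
    simp only [tv, Fm.eval]
    by_cases h : i < n
    · simp [h]
    · simp [h]
  | bot => simp [tv, Fm.eval]
  | neg φ ih =>
    simp only [tv, Fm.eval, ← ih]
    cases tv n φ v <;> simp
  | and φ ψ ih1 ih2 =>
    simp only [tv, Fm.eval, ← ih1, ← ih2]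
    cases tv n φ v <;> cases tv n ψ v <;> simp
  | or φ ψ ih1 ih2 =>
    simp only [tv, Fm.eval, ← ih1, ← ih2]
    cases tv n φ v <;> cases tv n ψ v <;> simp
  | imp φ ψ ih1 ih2 =>
    simp only [tv, Fm.eval, ← ih1, ← ih2]
    cases tv n φ v <;> cases tv n ψ v <;> simp

/-- The truth value as a real number. -/
noncomputable def tr (n : ℕ) (φ : Fm ℕ) : (Fin n → Bool) → ℝ := fun v => bv (tv n φ v)

lemma abs_bv_le (b : Bool) : |bv b| ≤ 1 := by cases b <;> simp [bv]

lemma abs_tr_le (n : ℕ) (φ : Fm ℕ) (v : Fin n → Bool) : |tr n φ v| ≤ 1 := abs_bv_le _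

/-- The functions substituted for the metavariables. -/
noncomputable def rz (p : Fm ι → (ι → Bool) → ℝ) (B n : ℕ) (σ : ℕ → Fm ι) :
    Fin n → (ι → Bool) → ℝ :=
  fun i => if (σ i).size ≤ B then p (σ i) else fun _ => 0

/-- The product step. -/
lemma prod_close {P : PE ι} {t D : ℕ} {e c1 c2 c3 : ℝ} {f g F G H : (ι → Bool) → ℝ}
    (hf : P.Bd (t + D) f (1 + e)) (he : 0 ≤ e) (hc1 : 0 ≤ c1)
    (hF : P.Bd (t + D) (fun x => f x - F x) c1) (hG : P.Bd t (fun x => g x - G x) c2)
    (hGn : P.Bd t G 2) (hFG : P.Bd t (fun x => F x * G x - H x) c3)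
    (df : LowDeg D f) (dg : LowDeg D g) (dF : LowDeg D F) (dG : LowDeg D G) (dH : LowDeg D H)
    (hcap : t + 2 * D ≤ P.cap) :
    P.Bd t (fun x => f x * g x - H x) ((1 + e) * c2 + c1 * 2 + c3) := by
  have h1 : P.Bd t (fun x => f x * (g x - G x)) ((1 + e) * c2) :=
    hf.mul hG (dg.sub dG) (by linarith)
  have h2 : P.Bd t (fun x => (f x - F x) * G x) (c1 * 2) := hF.mul hGn dG hc1
  have d1 : LowDeg (2 * D) (fun x => f x * (g x - G x)) := by
    rw [two_mul]; exact df.mul (dg.sub dG)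
  have d2 : LowDeg (2 * D) (fun x => (f x - F x) * G x) := by
    rw [two_mul]; exact (df.sub dF).mul dG
  have d3 : LowDeg (2 * D) (fun x => F x * G x - H x) :=
    (by rw [two_mul]; exact dF.mul dG : LowDeg (2 * D) (fun x => F x * G x)).sub
      (dH.mono (by omega))
  have h4 := (h1.add h2 d1 d2 hcap).add hFG (d1.add d2) d3 hcap
  exact h4.congr' fun x => by ring

section

variable {P : PE ι} {p : Fm ι → (ι → Bool) → ℝ} {B d T n : ℕ} {e : ℝ} {σ : ℕ → Fm ι}

lemma rz_deg (hp : FmFam P p B d T e) (i : Fin n) : LowDeg d (rz p B n σ i) := by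
  unfold rz
  split_ifs with h
  · exact hp.deg _ h
  · exact LowDeg.const d 0

lemma rz_idem (hp : FmFam P p B d T e) (he : 0 ≤ e) (i : Fin n) :
    P.Bd T (fun x => rz p B n σ i x ^ 2 - rz p B n σ i x) e := by
  unfold rz
  split_ifs with h
  · exact hp.idem _ h
  · exact ((PE.Bd.zero (P := P) T).congr' fun x => by simp).mono le_rfl he

lemma mle_tr_deg (hp : FmFam P p B d T e) (g : (Fin n → Bool) → ℝ) :
    LowDeg ((n + 1) * d) (mle g (rz p B n σ)) := by
  have h := mle_lowDeg' g (fun i => rz_deg (σ := σ) hp i)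
  rw [Fintype.card_fin] at h
  exact h.mono (Nat.mul_le_mul_right _ (by omega))

lemma one_add_two_pow_le (he : 0 ≤ e) (hn : (n : ℝ) * e ≤ 1 / 800) : (1 + 2 * e) ^ (2 * n) ≤ 2 := by
  have h := one_add_pow_le (ε := 2 * e) (by linarith) (k := 2 * n) (by push_cast; linarith)
  linarith

lemma mle_bd (hp : FmFam P p B d T e) (he : 0 ≤ e) (hn : (n : ℝ) * e ≤ 1 / 800)
    (hcap : T + 2 * d ≤ P.cap) {t : ℕ} (ht : t + n * d ≤ T) {g : (Fin n → Bool) → ℝ}
    (hg : ∀ v, |g v| ≤ 1) : P.Bd t (mle g (rz p B n σ)) 2 := by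
  refine (mle_norm g (rz p B n σ) (fun i => rz_deg hp i) (fun i => rz_idem hp he i) he
    (by rw [Fintype.card_fin]; exact ht) hcap hg).mono le_rfl ?_
  rw [Fintype.card_fin, one_mul]
  refine le_trans ?_ (one_add_two_pow_le he hn)
  exact pow_le_pow_right₀ (by linarith) (by omega)

lemma mle_prod_bd (hp : FmFam P p B d T e) (he : 0 ≤ e) (hn : (n : ℝ) * e ≤ 1 / 800)
    (hcap : T + 2 * d ≤ P.cap) {t : ℕ} (ht : t + 2 * (n * d) ≤ T) {g h : (Fin n → Bool) → ℝ}
    (hg : ∀ v, |g v| ≤ 1) (hh : ∀ v, |h v| ≤ 1) :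
    P.Bd t (fun x => mle g (rz p B n σ) x * mle h (rz p B n σ) x
      - mle (fun v => g v * h v) (rz p B n σ) x) (8 * n * e) := by
  refine (mle_mul g h (rz p B n σ) (fun i => rz_deg hp i) (fun i => rz_idem hp he i) he
    (by rw [Fintype.card_fin]; exact ht) hcap hg hh).mono le_rfl ?_
  rw [Fintype.card_fin]
  have := one_add_two_pow_le (n := n) he hn
  have h1 : 0 ≤ 4 * 1 * 1 * e * (n : ℝ) := by positivity
  have := mul_le_mul_of_nonneg_left this h1
  linarith

lemma p_bd (hp : FmFam P p B d T e) (he : 0 ≤ e) (hcap : T + 2 * d ≤ P.cap) {t : ℕ} (ht : t ≤ T)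
    {φ : Fm ι} (hφ : φ.size ≤ B) : P.Bd t (p φ) (1 + e) :=
  (PE.Bd.idem (hp.deg φ hφ) (hp.idem φ hφ) he hcap).mono ht le_rfl

lemma p_bd' (hp : FmFam P p B d T e) (he : 0 ≤ e) (hcap : T + 2 * d ≤ P.cap) {t : ℕ} (ht : t ≤ T)
    {φ : Fm ι} (hφ : φ.size ≤ B) : P.Bd t (fun x => 1 - p φ x) (1 + e) :=
  (PE.Bd.one_sub_idem (hp.deg φ hφ) (hp.idem φ hφ) he hcap).mono ht le_rfl

lemma rule_ar1 {K X Y e : ℝ} {n : ℕ} (hK : K = 8 * n + 9) (he : 0 ≤ e) (he1 : e ≤ 1 / 800)
    (hX : 1 ≤ X) (hY : 1 ≤ Y) :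
    e + (X * e + Y * e + ((1 + e) * (Y * e) + X * e * 2 + 8 * n * e)) ≤ K * (X * Y) * e := by
  have hn : (0 : ℝ) ≤ n := Nat.cast_nonneg n
  have hXY : X ≤ X * Y := le_mul_of_one_le_right (by linarith) hY
  have hYX : Y ≤ X * Y := le_mul_of_one_le_left (by linarith) hX
  have h1 : 1 ≤ X * Y := hX.trans hXY
  have h2 : (n : ℝ) ≤ n * (X * Y) := le_mul_of_one_le_right hn h1
  have h3 : (1 + e) * (Y * e) ≤ 2 * (Y * e) :=
    mul_le_mul_of_nonneg_right (by linarith) (by positivity)
  have h4 : e + (X * e + Y * e + (2 * (Y * e) + X * e * 2 + 8 * n * e))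
      = (1 + 3 * X + 3 * Y + 8 * n) * e := by ring
  have h5 : 1 + 3 * X + 3 * Y + 8 * n ≤ K * (X * Y) := by
    rw [hK]
    nlinarith
  calc _ ≤ e + (X * e + Y * e + (2 * (Y * e) + X * e * 2 + 8 * n * e)) := by linarith
    _ = (1 + 3 * X + 3 * Y + 8 * n) * e := h4
    _ ≤ K * (X * Y) * e := mul_le_mul_of_nonneg_right h5 he

/-- The approximant of an instance of a schematic formula is close to the multilinear extension
of its truth table, evaluated at the approximants of the substituted formulas. -/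
lemma subst_close (hp : FmFam P p B d T e) (he : 0 ≤ e) (he1 : e ≤ 1 / 800)
    (hn : (n : ℝ) * e ≤ 1 / 800) (hcap : T + 2 * d ≤ P.cap) :
    ∀ (A : Fm ℕ), (∀ i, A.Occurs i → i < n) → (A.subst σ).size ≤ B → ∀ t,
      t + A.size * (2 * ((n + 1) * d)) ≤ T →
      P.Bd t (fun x => p (A.subst σ) x - mle (tr n A) (rz p B n σ) x)
        ((8 * n + 9 : ℝ) ^ A.size * e) := by
  have hn0 : (0 : ℝ) ≤ n := Nat.cast_nonneg n
  have hK1 : (1 : ℝ) ≤ 8 * n + 9 := by linarith
  have hKs : ∀ k : ℕ, (1 : ℝ) ≤ (8 * n + 9 : ℝ) ^ k := fun k => one_le_pow₀ hK1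
  set z := rz p B n σ with hz
  set D := (n + 1) * d with hD
  have hnD : n * d ≤ D := Nat.mul_le_mul_right _ (by omega)
  have hdD : d ≤ D := Nat.le_mul_of_pos_left _ (by omega)
  intro A
  induction A with
  | var i =>
    intro hocc hs t _
    have hi : i < n := hocc i rfl
    refine ((PE.Bd.zero (P := P) t).congr' fun x => ?_).mono le_rfl (by positivity)
    have h1 : (tr n (.var i)) = fun v => bv (v ⟨i, hi⟩) := by
      funext v
      simp [tr, tv, hi]
    rw [h1, mle_coord]
    simp only [Fm.subst] at hs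
    have h2 : z ⟨i, hi⟩ = p (σ i) := by
      rw [hz]
      simp [rz, hs]
    rw [h2]
    simp [Fm.subst]
  | bot =>
    intro _ _ t _
    refine ((PE.Bd.zero (P := P) t).congr' fun x => ?_).mono le_rfl (by positivity)
    have h1 : (tr n .bot) = fun _ => 0 := by
      funext v
      simp [tr, tv, bv]
    rw [h1, mle_const]
    simp [Fm.subst, hp.bot']
  | neg φ ih =>
    intro hocc hs t ht
    simp only [Fm.subst, Fm.size] at hs ht ⊢
    rw [add_mul, one_mul] at ht
    have h1 := ih hocc (by omega) t (by omega)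
    have h2 := (hp.neg' (φ.subst σ) hs).mono (t' := t) (by omega) le_rfl
    have dp := (hp.deg (φ.subst σ) (by omega)).mono hdD
    have dpn := (hp.deg (.neg (φ.subst σ)) hs).mono hdD
    have dm := mle_tr_deg (σ := σ) hp (tr n φ)
    have h3 := h2.sub h1 (dpn.sub ((LowDeg.const D 1).sub dp)) (dp.sub dm) (by omega)
    refine (h3.congr' fun x => ?_).mono le_rfl ?_
    · have h4 : (tr n (.neg φ)) = fun v => (fun _ => (1 : ℝ)) v - tr n φ v := by
        funext v
        simp only [tr, tv]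
        cases tv n φ v <;> simp [bv]
      rw [h4, mle_sub, mle_const]
      ring
    · have := hKs φ.size
      rw [pow_succ]
      nlinarith [mul_nonneg (zero_le_one.trans this) he,
        mul_nonneg (mul_nonneg (zero_le_one.trans this) he) hn0]
  | and φ ψ ih1 ih2 =>
    intro hocc hs t ht
    simp only [Fm.subst, Fm.size] at hs ht ⊢
    rw [add_mul, add_mul, one_mul] at ht
    have hg1 : 1 ≤ φ.size := by cases φ <;> simp [Fm.size]
    have hg2 : 1 ≤ ψ.size := by cases ψ <;> simp [Fm.size]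
    have i1 := ih1 (fun i hi => hocc i (Or.inl hi)) (by omega) (t + D) (by omega)
    have i2 := ih2 (fun i hi => hocc i (Or.inr hi)) (by omega) t (by omega)
    have h2 := (hp.and' (φ.subst σ) (ψ.subst σ) hs).mono (t' := t) (by omega) le_rfl
    have dp1 := (hp.deg (φ.subst σ) (by omega)).mono hdD
    have dp2 := (hp.deg (ψ.subst σ) (by omega)).mono hdD
    have dp := (hp.deg (.and (φ.subst σ) (ψ.subst σ)) hs).mono hdD
    have dm1 := mle_tr_deg (σ := σ) hp (tr n φ)
    have dm2 := mle_tr_deg (σ := σ) hp (tr n ψ)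
    have dm := mle_tr_deg (σ := σ) hp (fun v => tr n φ v * tr n ψ v)
    have h3 := prod_close (p_bd hp he hcap (t := t + D) (by omega) (φ := φ.subst σ) (by omega)) he
      (by have := hKs φ.size; positivity) i1 i2
      (mle_bd hp he hn hcap (by omega) (abs_tr_le n ψ))
      (mle_prod_bd hp he hn hcap (by omega) (abs_tr_le n φ) (abs_tr_le n ψ))
      dp1 dp2 dm1 dm2 dm (by omega)
    have d2D : LowDeg (2 * D) (fun x => p (φ.subst σ) x * p (ψ.subst σ) x) := by
      rw [two_mul]; exact dp1.mul dp2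
    have h4 := h2.add h3 ((dp.mono (by omega)).sub d2D) (d2D.sub (dm.mono (by omega)))
      (by omega)
    refine (h4.congr' fun x => ?_).mono le_rfl ?_
    · have h5 : (tr n (.and φ ψ)) = fun v => tr n φ v * tr n ψ v := by
        funext v
        simp only [tr, tv]
        cases tv n φ v <;> cases tv n ψ v <;> simp [bv]
      rw [h5]
      ring
    · have := rule_ar1 (n := n) rfl he he1 (hKs φ.size) (hKs ψ.size)
      rw [show φ.size + ψ.size + 1 = 1 + (φ.size + ψ.size) by ring, pow_add _ 1, pow_add, pow_one]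
      have a1 := mul_nonneg (zero_le_one.trans (hKs φ.size)) he
      have a2 := mul_nonneg (zero_le_one.trans (hKs ψ.size)) he
      linarith
  | or φ ψ ih1 ih2 =>
    intro hocc hs t ht
    simp only [Fm.subst, Fm.size] at hs ht ⊢
    rw [add_mul, add_mul, one_mul] at ht
    have hg1 : 1 ≤ φ.size := by cases φ <;> simp [Fm.size]
    have hg2 : 1 ≤ ψ.size := by cases ψ <;> simp [Fm.size]
    have i1 := ih1 (fun i hi => hocc i (Or.inl hi)) (by omega) (t + D) (by omega)
    have i2 := ih2 (fun i hi => hocc i (Or.inr hi)) (by omega) t (by omega)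
    have h2 := (hp.or' (φ.subst σ) (ψ.subst σ) hs).mono (t' := t) (by omega) le_rfl
    have dp1 := (hp.deg (φ.subst σ) (by omega)).mono hdD
    have dp2 := (hp.deg (ψ.subst σ) (by omega)).mono hdD
    have dp := (hp.deg (.or (φ.subst σ) (ψ.subst σ)) hs).mono hdD
    have dm1 := mle_tr_deg (σ := σ) hp (tr n φ)
    have dm2 := mle_tr_deg (σ := σ) hp (tr n ψ)
    have dm := mle_tr_deg (σ := σ) hp (fun v => tr n φ v * tr n ψ v)
    have h3 := prod_close (p_bd hp he hcap (t := t + D) (by omega) (φ := φ.subst σ) (by omega)) he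
      (by have := hKs φ.size; positivity) i1 i2
      (mle_bd hp he hn hcap (by omega) (abs_tr_le n ψ))
      (mle_prod_bd hp he hn hcap (by omega) (abs_tr_le n φ) (abs_tr_le n ψ))
      dp1 dp2 dm1 dm2 dm (by omega)
    have d2D : LowDeg (2 * D) (fun x => p (φ.subst σ) x * p (ψ.subst σ) x) := by
      rw [two_mul]; exact dp1.mul dp2
    have i1' := i1.mono (t' := t) (by omega) le_rfl
    have h6 := i1'.add i2 (dp1.sub dm1) (dp2.sub dm2) (by omega)
    have h7 := h6.sub h3 (((dp1.sub dm1).add (dp2.sub dm2)).mono (show D ≤ 2 * D by omega))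
      (d2D.sub (dm.mono (by omega))) (by omega)
    have h4 := h2.add h7 ((dp.mono (by omega)).sub (((dp1.add dp2).mono (by omega)).sub d2D))
      ((((dp1.sub dm1).add (dp2.sub dm2)).mono (show D ≤ 2 * D by omega)).sub
        (d2D.sub (dm.mono (by omega)))) (by omega)
    refine (h4.congr' fun x => ?_).mono le_rfl ?_
    · have h5 : (tr n (.or φ ψ)) = fun v => (fun w => tr n φ w + tr n ψ w) v
          - (fun w => tr n φ w * tr n ψ w) v := by
        funext v
        simp only [tr, tv]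
        cases tv n φ v <;> cases tv n ψ v <;> simp [bv]
      rw [h5, mle_sub, mle_add]
      ring
    · have := rule_ar1 (n := n) rfl he he1 (hKs φ.size) (hKs ψ.size)
      rw [show φ.size + ψ.size + 1 = 1 + (φ.size + ψ.size) by ring, pow_add _ 1, pow_add, pow_one]
      linarith
  | imp φ ψ ih1 ih2 =>
    intro hocc hs t ht
    simp only [Fm.subst, Fm.size] at hs ht ⊢
    rw [add_mul, add_mul, one_mul] at ht
    have hg1 : 1 ≤ φ.size := by cases φ <;> simp [Fm.size]
    have hg2 : 1 ≤ ψ.size := by cases ψ <;> simp [Fm.size]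
    have i1 := ih1 (fun i hi => hocc i (Or.inl hi)) (by omega) (t + D) (by omega)
    have i2 := ih2 (fun i hi => hocc i (Or.inr hi)) (by omega) t (by omega)
    have h2 := (hp.imp' (φ.subst σ) (ψ.subst σ) hs).mono (t' := t) (by omega) le_rfl
    have dp1 := (hp.deg (φ.subst σ) (by omega)).mono hdD
    have dp2 := (hp.deg (ψ.subst σ) (by omega)).mono hdD
    have dp := (hp.deg (.imp (φ.subst σ) (ψ.subst σ)) hs).mono hdD
    have dm1 := mle_tr_deg (σ := σ) hp (tr n φ)
    have dm2 := mle_tr_deg (σ := σ) hp (tr n ψ)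
    have dm := mle_tr_deg (σ := σ) hp (fun v => tr n φ v * tr n ψ v)
    have h3 := prod_close (p_bd hp he hcap (t := t + D) (by omega) (φ := φ.subst σ) (by omega)) he
      (by have := hKs φ.size; positivity) i1 i2
      (mle_bd hp he hn hcap (by omega) (abs_tr_le n ψ))
      (mle_prod_bd hp he hn hcap (by omega) (abs_tr_le n φ) (abs_tr_le n ψ))
      dp1 dp2 dm1 dm2 dm (by omega)
    have d2D : LowDeg (2 * D) (fun x => p (φ.subst σ) x * p (ψ.subst σ) x) := by
      rw [two_mul]; exact dp1.mul dp2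
    have i1' := i1.mono (t' := t) (by omega) le_rfl
    have h7 := h3.sub i1' (d2D.sub (dm.mono (by omega)))
      ((dp1.sub dm1).mono (show D ≤ 2 * D by omega)) (by omega)
    have h4 := h2.add h7
      ((dp.mono (by omega)).sub (((LowDeg.const (2 * D) 1).sub (dp1.mono (by omega))).add d2D))
      ((d2D.sub (dm.mono (by omega))).sub ((dp1.sub dm1).mono (show D ≤ 2 * D by omega)))
      (by omega)
    refine (h4.congr' fun x => ?_).mono le_rfl ?_
    · have h5 : (tr n (.imp φ ψ)) = fun v => (fun w => (fun _ => (1 : ℝ)) w - tr n φ w) v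
          + (fun w => tr n φ w * tr n ψ w) v := by
        funext v
        simp only [tr, tv]
        cases tv n φ v <;> cases tv n ψ v <;> simp [bv]
      rw [h5, mle_add, mle_sub, mle_const]
      ring
    · have := rule_ar1 (n := n) rfl he he1 (hKs φ.size) (hKs ψ.size)
      rw [show φ.size + ψ.size + 1 = 1 + (φ.size + ψ.size) by ring, pow_add _ 1, pow_add, pow_one]
      have a2 := mul_nonneg (zero_le_one.trans (hKs ψ.size)) he
      linarith

end

end GridLine
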