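import Pool.Agent.Work.MP_c07f0d_lc.SD.RunDef

/-!
# Extended Frege proofs with memory
-/

namespace FregeEF

/-- All extension variables in the formula have an index less than `k`.  (The variables are the
elements `Sum.inl i`, the extension variables are the elements `Sum.inr j`.) -/
def Below {α : Type} (k : ℕ) (φ : Fm (α ⊕ ℕ)) : Prop := ∀ j, φ.Occurs (Sum.inr j) → j < k

/-- The formulas in the original variables, as formulas in the original variables and the
extension variables. -/
def lift {α : Type} (Γ : List (Fm α)) : List (Fm (α ⊕ ℕ)) :=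
  Γ.map (Fm.subst fun i => .var (Sum.inl i))

/-- `RunE R Γ s T k M`: starting from the empty memory, `T` steps lead to the memory `M`, and no
memory on the way has more than `s` symbols.  In each step formulas are erased and at most one
formula is added, which is a hypothesis from `Γ`, or follows from formulas in memory by one
application of a rule of `R`, or is an extension axiom `q ↔ φ`, where `q` is the extension variable
with index `k`; `k` is the number of extension axioms introduced before, and no formula used before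
and not the formula `φ` contains `q`. -/
inductive RunE {α : Type} (R : List Rule) (Γ : List (Fm (α ⊕ ℕ))) (s : ℕ) :
    ℕ → ℕ → List (Fm (α ⊕ ℕ)) → Prop
  | start : RunE R Γ s 0 0 []
  | erase {T k : ℕ} {M M' : List (Fm (α ⊕ ℕ))} : RunE R Γ s T k M → M' ⊆ M → lsize M' ≤ s →
      RunE R Γ s (T + 1) k M'
  | step {T k : ℕ} {M M' : List (Fm (α ⊕ ℕ))} (φ : Fm (α ⊕ ℕ)) : RunE R Γ s T k M → Below k φ →
      (φ ∈ Γ ∨ Infers R M φ) → (∀ ψ ∈ M', ψ = φ ∨ ψ ∈ M) → lsize M' ≤ s →
      RunE R Γ s (T + 1) k M'
  | ext {T k : ℕ} {M M' : List (Fm (α ⊕ ℕ))} (φ : Fm (α ⊕ ℕ)) : RunE R Γ s T k M → Below k φ →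
      (∀ ψ ∈ M', ψ = Fm.iff (.var (Sum.inr k)) φ ∨ ψ ∈ M) → lsize M' ≤ s →
      RunE R Γ s (T + 1) (k + 1) M'

end FregeEF
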