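import Pool.Agent.Work.MP_c07f0d_lc.SD.Rand3Main

/-!
# Random linear equations separate Frege and extended Frege proofs of small space
-/

set_option linter.unusedSectionVars false

namespace GridLine

open Finset LineSize FregeEF

namespace Xor

/-! ### Counting -/

/-- The equation of a clause. -/
def toEqn {n : ℕ} (c : Cl n) : Eqn n := (c.1, clRhs c)

lemma xors_eq {n m : ℕ} (A : Fin m → Cl n) : xors A = eqs fun i => toEqn (A i) := rfl

/-- Clauses as equations with two further bits. -/
def clEquiv (n : ℕ) : Cl n ≃ Eqn n × (Bool × Bool) where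
  toFun c := (toEqn c, (c.2 1, c.2 2))
  invFun p := (p.1.1, ![xor (xor p.1.2 p.2.1) p.2.2, p.2.1, p.2.2])
  left_inv c := by
    obtain ⟨v, b⟩ := c
    refine Prod.ext rfl ?_
    funext i
    simp only [toEqn, clRhs]
    fin_cases i
    · show xor (xor (xor (xor (b 0) (b 1)) (b 2)) (b 1)) (b 2) = b 0
      cases b 0 <;> cases b 1 <;> cases b 2 <;> rfl
    · rfl
    · rfl
  right_inv p := by
    obtain ⟨⟨v, r⟩, ⟨s, t⟩⟩ := p
    refine Prod.ext (Prod.ext rfl ?_) rfl
    show xor (xor (xor (xor r s) t) s) t = r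
    cases r <;> cases s <;> cases t <;> rfl

lemma card_transfer {n m : ℕ} (P : (Fin m → Eqn n) → Prop)
    [DecidablePred fun A : Fin m → Cl n => P fun i => toEqn (A i)]
    [DecidablePred fun B : Fin m → Eqn n => P B] :
    (Finset.univ.filter fun A : Fin m → Cl n => P fun i => toEqn (A i)).card
      = (Finset.univ.filter fun B : Fin m → Eqn n => P B).card * 4 ^ m := by
  have h := Finset.card_equiv (s := Finset.univ.filter fun A : Fin m → Cl n =>
      P fun i => toEqn (A i))
    (t := (Finset.univ.filter fun B : Fin m → Eqn n => P B) ×ˢ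
      (Finset.univ : Finset (Fin m → Bool × Bool)))
    ((Equiv.arrowCongr (Equiv.refl _) (clEquiv n)).trans (Equiv.arrowProdEquivProdArrow _ _ _)) (by
      intro A
      simp only [Finset.mem_filter, Finset.mem_univ, true_and, Finset.mem_product, and_true]
      rfl)
  rw [h, Finset.card_product, Finset.card_univ]
  congr 1
  simp

lemma card_total {n m : ℕ} : Fintype.card (Fin m → Cl n) = Fintype.card (Fin m → Eqn n) * 4 ^ m := by
  classical
  have h := card_transfer (n := n) (m := m) fun _ => True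
  simpa using h

/-! ### Solvable systems are rare -/

/-- The system of equations has a solution. -/
def Sol {n m : ℕ} (A : Fin m → Cl n) : Prop :=
  ∃ x : Fin n → Bool, ∀ i, chi (clSup (A i)) x = sg (clRhs (A i))

open Classical in
lemma card_sol_cl {n : ℕ} (x : Fin n → Bool) :
    (Finset.univ.filter fun c : Cl n => chi (clSup c) x = sg (clRhs c)).card
      = n.descFactorial 3 * 4 := by
  have h1 : (Finset.univ.filter fun c : Cl n => chi (clSup c) x = sg (clRhs c)).card
      = (Finset.univ : Finset ((Fin 3 ↪ Fin n) × (Bool × Bool))).card := by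
    symm
    refine Finset.card_bij (fun p _ => (clEquiv n).symm ((p.1, decide (chi (clSup
      ((clEquiv n).symm ((p.1, true), p.2))) x = -1)), p.2)) ?_ ?_ ?_
    · intro p _
      rw [Finset.mem_filter]
      refine ⟨Finset.mem_univ _, ?_⟩
      have e1 : clSup ((clEquiv n).symm ((p.1, decide (chi (clSup
          ((clEquiv n).symm ((p.1, true), p.2))) x = -1)), p.2))
          = clSup ((clEquiv n).symm ((p.1, true), p.2)) := rfl
      have e2 : clRhs ((clEquiv n).symm ((p.1, decide (chi (clSup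
          ((clEquiv n).symm ((p.1, true), p.2))) x = -1)), p.2))
          = decide (chi (clSup ((clEquiv n).symm ((p.1, true), p.2))) x = -1) :=
        congrArg (fun q : Eqn n × (Bool × Bool) => q.1.2) ((clEquiv n).apply_symm_apply _)
      rw [e1, e2]
      rcases chi_pm (clSup ((clEquiv n).symm ((p.1, true), p.2))) x with h | h
      · rw [h]
        norm_num [sg]
      · rw [h]
        norm_num [sg]
    · intro p _ q _ hpq
      have h2 := (clEquiv n).symm.injective hpq
      have h3 := congrArg (fun q : Eqn n × (Bool × Bool) => (q.1.1, q.2)) h2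
      exact h3
    · intro c hc
      have hc' := (Finset.mem_filter.1 hc).2
      refine ⟨(c.1, (c.2 1, c.2 2)), Finset.mem_univ _, ?_⟩
      rw [Equiv.symm_apply_eq]
      have e1 : clSup ((clEquiv n).symm ((c.1, true), (c.2 1, c.2 2))) = clSup c := rfl
      refine Prod.ext (Prod.ext rfl ?_) rfl
      show decide (chi (clSup ((clEquiv n).symm ((c.1, true), (c.2 1, c.2 2)))) x = -1) = clRhs c
      rw [e1, hc']
      cases clRhs c <;> norm_num [sg]
  rw [h1, Finset.card_univ]
  simp

open Classical in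
/-- The union bound. -/
lemma card_sol {n m : ℕ} :
    (Finset.univ.filter fun A : Fin m → Cl n => Sol A).card
      ≤ 2 ^ n * (n.descFactorial 3 * 4) ^ m := by
  have hsub : (Finset.univ.filter fun A : Fin m → Cl n => Sol A) ⊆
      (Finset.univ : Finset (Fin n → Bool)).biUnion fun x =>
        Fintype.piFinset fun _ : Fin m =>
          Finset.univ.filter fun c : Cl n => chi (clSup c) x = sg (clRhs c) := by
    intro A hA
    obtain ⟨x, hx⟩ := (Finset.mem_filter.1 hA).2
    rw [Finset.mem_biUnion]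
    refine ⟨x, Finset.mem_univ _, ?_⟩
    rw [Fintype.mem_piFinset]
    intro i
    exact Finset.mem_filter.2 ⟨Finset.mem_univ _, hx i⟩
  refine (Finset.card_le_card hsub).trans (Finset.card_biUnion_le.trans (le_of_eq ?_))
  have h1 : ∀ x ∈ (Finset.univ : Finset (Fin n → Bool)),
      (Fintype.piFinset fun _ : Fin m =>
          Finset.univ.filter fun c : Cl n => chi (clSup c) x = sg (clRhs c)).card
        = (n.descFactorial 3 * 4) ^ m := by
    intro x _
    rw [Fintype.card_piFinset, Finset.prod_const, card_sol_cl, Finset.card_univ, Fintype.card_fin]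
  rw [Finset.sum_congr rfl h1, Finset.sum_const, smul_eq_mul, Finset.card_univ]
  simp

open Classical in
/-- Few systems with at least `2 n` equations have a solution. -/
theorem few_sol {Δ : ℕ} (hΔ : 2 ≤ Δ) {n : ℕ} (hn : 1 ≤ n) :
    ((Finset.univ.filter fun A : Fin (Δ * n) → Cl n => Sol A).card : ℝ)
      ≤ 9 / n * (Fintype.card (Fin (Δ * n) → Cl n) : ℝ) := by
  have h0 := card_sol (m := Δ * n) (n := n)
  have h0' : ((Finset.univ.filter fun A : Fin (Δ * n) → Cl n => Sol A).card : ℝ)
      ≤ 2 ^ n * ((n.descFactorial 3 : ℝ) * 4) ^ (Δ * n) := by exact_mod_cast h0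
  have htot : (Fintype.card (Fin (Δ * n) → Cl n) : ℝ)
      = ((n.descFactorial 3 : ℝ) * 8) ^ (Δ * n) := by
    rw [Fintype.card_fun, card_cl, Fintype.card_fin]
    push_cast
    ring
  refine h0'.trans ?_
  rw [htot]
  have e1 : ((n.descFactorial 3 : ℝ) * 4) ^ (Δ * n)
      = ((1 / 2 : ℝ) ^ Δ) ^ n * ((n.descFactorial 3 : ℝ) * 8) ^ (Δ * n) := by
    rw [← pow_mul, ← mul_pow]
    congr 1
    ring
  rw [e1, ← mul_assoc, ← mul_pow]
  apply mul_le_mul_of_nonneg_right _ (by positivity)
  refine le_trans ?_ (nine_tenths hn)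
  apply pow_le_pow_left₀ (by positivity)
  have h2 : (1 / 2 : ℝ) ^ Δ ≤ (1 / 2) ^ 2 := pow_le_pow_of_le_one (by norm_num) (by norm_num) hΔ
  norm_num at h2 ⊢
  linarith

open Classical in
/-- Random systems of equations, in terms of clauses. -/
theorem sep_cl (F : FregeSystem) {ε : ℝ} (hε : 0 < ε) {C : ℕ} (hSD : SpaceDegree F (ε / 8) C)
    {Δ : ℕ} (hΔ : 2 ≤ Δ) : ∃ δ : ℝ, 0 < δ ∧ ∃ c : ℕ, ∀ n : ℕ, 1 ≤ n →
      ((Finset.univ.filter fun A : Fin (Δ * n) → Cl n => ¬ Separates F ε δ c (xors A)).card : ℝ)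
        ≤ c / n * (Fintype.card (Fin (Δ * n) → Cl n) : ℝ) := by
  set K : ℕ := (54 * Δ) ^ 4 with hK
  have hK1 : 1 ≤ K := Nat.one_le_pow _ _ (by omega)
  obtain ⟨δ, hδ, n₀, hn₀, hmain⟩ := fin3_arith hε C K 26 hK1
  set c : ℕ := n₀ + 64 * K + 9 + 11000 * F.K * Δ ^ 2 + 300 * F.K * Δ with hc
  have hcR : ((n₀ + 64 * K + 9 : ℕ) : ℝ) ≤ c := by
    exact_mod_cast (by omega : n₀ + 64 * K + 9 ≤ c)
  have hKR : (K : ℝ) = (54 * Δ : ℝ) ^ 4 := by
    rw [hK]
    push_cast
    ring
  push_cast at hcR
  refine ⟨δ, hδ, c, fun n hn => ?_⟩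
  have hn0 : (0 : ℝ) < n := by exact_mod_cast hn
  set tot : ℝ := (Fintype.card (Fin (Δ * n) → Cl n) : ℝ) with htot
  have htot0 : 0 ≤ tot := by positivity
  have hK0 : (0 : ℝ) ≤ K := Nat.cast_nonneg _
  have hn₀0 : (0 : ℝ) ≤ n₀ := Nat.cast_nonneg _
  by_cases hsmall : n < n₀
  · have h1 : ((Finset.univ.filter fun A : Fin (Δ * n) → Cl n =>
        ¬ Separates F ε δ c (xors A)).card : ℝ) ≤ tot := by
      rw [htot, ← Finset.card_univ]
      exact_mod_cast Finset.card_le_card (Finset.filter_subset _ _)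
    refine h1.trans ?_
    have h2 : (1 : ℝ) ≤ c / n := by
      rw [le_div_iff₀ hn0, one_mul]
      have h3 : (n : ℝ) ≤ n₀ := by exact_mod_cast hsmall.le
      linarith
    nlinarith
  · push Not at hsmall
    have hnK : 768 * K ≤ n := hn₀.trans hsmall
    set q := n / (256 * K) with hq
    have hq1 : q * (256 * K) ≤ n := Nat.div_mul_le_self _ _
    have hq3 : 3 ≤ q := (Nat.le_div_iff_mul_le (by omega)).2 (by omega)
    have hcond : 32 * (54 * Δ) ^ 4 * (4 * q + 1) ≤ n := by
      rw [← hK]
      nlinarith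
    have hsub : (Finset.univ.filter fun A : Fin (Δ * n) → Cl n =>
        ¬ Separates F ε δ c (xors A)) ⊆
        (Finset.univ.filter fun A : Fin (Δ * n) → Cl n => ¬ Expd A (4 * q)) ∪
        (Finset.univ.filter fun A : Fin (Δ * n) → Cl n => Sol A) := by
      intro A hA
      have hA' := (Finset.mem_filter.1 hA).2
      rw [Finset.mem_union, Finset.mem_filter, Finset.mem_filter]
      by_contra hcon
      push Not at hcon
      obtain ⟨hE, hS⟩ := hcon
      have hE := hE (Finset.mem_univ _)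
      have hS : ¬ ∃ x : Fin n → Bool, ∀ i, chi (clSup (A i)) x = sg (clRhs (A i)) :=
        hS (Finset.mem_univ _)
      obtain ⟨P, hcap, hone, -, hax'⟩ := exists_pe' hE (T := q) le_rfl hq3
      apply hA'
      refine ⟨?_, ?_, ?_⟩
      · rintro ⟨s, T, M, hs, hT, hrun, hbot⟩
        have h1 := hSD (Fin n) P hone (xors A) 26 s T (by
          intro φ hφ
          obtain ⟨i, rfl⟩ := List.mem_ofFn.1 hφ
          exact xorF_size _) hax' M hrun hbot
        have h2 := hmain n hsmall s T hs hT
        rw [hcap] at h1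
        exact absurd (h1.trans_le h2) (lt_irrefl _)
      · obtain ⟨T, M, h1, h2, h3⟩ := space_xor F A hS
        have hcK : 11000 * F.K * Δ ^ 2 ≤ c := by omega
        refine ⟨T, M, h1.trans ?_, run_mono h2 ?_, h3⟩
        · calc 11000 * F.K * ((Δ * n) ^ 2 * n) = 11000 * F.K * Δ ^ 2 * n ^ 3 := by ring
            _ ≤ c * n ^ 3 := Nat.mul_le_mul_right _ hcK
        · calc 11000 * F.K * (Δ * n) ^ 2 = 11000 * F.K * Δ ^ 2 * n ^ 2 := by ring
            _ ≤ c * n ^ 2 := Nat.mul_le_mul_right _ hcK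
      · obtain ⟨T, k, M, h1, h2, h3⟩ := ef_xor F A hS
        have hcK : 300 * F.K * Δ ≤ c := by omega
        have hΔ1 : F.K ≤ F.K * Δ := Nat.le_mul_of_pos_right _ (by omega)
        have hcK' : 300 * F.K ≤ c := by
          have : 300 * F.K * Δ = 300 * (F.K * Δ) := by ring
          omega
        refine ⟨T, k, M, h1.trans ?_, runE_mono h2 (Nat.mul_le_mul_right _ hcK'), h3⟩
        calc 300 * F.K * (Δ * n * n) = 300 * F.K * Δ * n ^ 2 := by ring
          _ ≤ c * n ^ 2 := Nat.mul_le_mul_right _ hcK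
    have h1 := few_not_expd (Δ := Δ) (n := n) (s := 4 * q) (by omega) hcond
    have h2 := few_sol hΔ hn
    have h4 : ((Finset.univ.filter fun A : Fin (Δ * n) → Cl n =>
        ¬ Separates F ε δ c (xors A)).card : ℝ)
        ≤ ((Finset.univ.filter fun A : Fin (Δ * n) → Cl n => ¬ Expd A (4 * q)).card : ℝ)
          + ((Finset.univ.filter fun A : Fin (Δ * n) → Cl n => Sol A).card : ℝ) := by
      exact_mod_cast (Finset.card_le_card hsub).trans (Finset.card_union_le _ _)
    refine h4.trans ?_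
    calc ((Finset.univ.filter fun A : Fin (Δ * n) → Cl n => ¬ Expd A (4 * q)).card : ℝ)
          + ((Finset.univ.filter fun A : Fin (Δ * n) → Cl n => Sol A).card : ℝ)
        ≤ 64 * (54 * Δ : ℝ) ^ 4 / n * tot + 9 / n * tot := add_le_add h1 h2
      _ = (64 * K + 9) / n * tot := by
          rw [hKR]
          ring
      _ ≤ _ := by
          apply mul_le_mul_of_nonneg_right _ htot0
          apply div_le_div_of_nonneg_right _ hn0.le
          linarith

open Classical in
/-- Random systems of equations. -/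
theorem sep_main (F : FregeSystem) {ε : ℝ} (hε : 0 < ε) {C : ℕ} (hSD : SpaceDegree F (ε / 8) C)
    {Δ : ℕ} (hΔ : 2 ≤ Δ) : ∃ δ : ℝ, 0 < δ ∧ ∃ c : ℕ, ∀ n : ℕ, 1 ≤ n →
      ((Finset.univ.filter fun B : Fin (Δ * n) → Eqn n => ¬ Separates F ε δ c (eqs B)).card : ℝ)
        ≤ c / n * (Fintype.card (Fin (Δ * n) → Eqn n) : ℝ) := by
  obtain ⟨δ, hδ, c, h⟩ := sep_cl F hε hSD hΔ
  refine ⟨δ, hδ, c, fun n hn => ?_⟩
  have h1 : ((Finset.univ.filter fun A : Fin (Δ * n) → Cl n =>
      ¬ Separates F ε δ c (eqs fun i => toEqn (A i))).card : ℝ)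
      ≤ c / n * (Fintype.card (Fin (Δ * n) → Cl n) : ℝ) := h n hn
  have h2 := card_transfer (n := n) (m := Δ * n) fun B => ¬ Separates F ε δ c (eqs B)
  have h3 := card_total (n := n) (m := Δ * n)
  rw [h2, h3] at h1
  push_cast at h1
  have h5 : (0 : ℝ) < 4 ^ (Δ * n) := by positivity
  rw [← mul_assoc] at h1
  exact le_of_mul_le_mul_right h1 h5

end Xor

end GridLine
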