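import Pool.Agent.Work.MP_c07f0d_lc.SD.Rule

/-!
# Soundness of the rules for the approximants
-/

set_option linter.unusedSectionVars false

namespace GridLine

open Finset LineSize FregeEF

variable {ι : Type} [Fintype ι] [DecidableEq ι]

variable {P : PE ι} {p : Fm ι → (ι → Bool) → ℝ} {B d T n : ℕ} {e : ℝ} {σ : ℕ → Fm ι}

/-- Removing the premises one by one. -/
lemma prem_bound (hp : FmFam P p B d T e) (he : 0 ≤ e) (hn : (n : ℝ) * e ≤ 1 / 800)
    (hcap : T + 2 * d ≤ P.cap) (hT : 4 * ((n + 1) * d) ≤ T)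
    {u : (ι → Bool) → ℝ} (hu : LowDeg d u) {δ κ : ℝ} :
    ∀ (pr : List (Fm ℕ)),
      (∀ A ∈ pr, P.Bd d (fun x => p (A.subst σ) x - mle (tr n A) (rz p B n σ) x) κ) →
      (∀ A ∈ pr, P.N (fun x => (1 - p (A.subst σ) x) * u x) ≤ δ) →
      (∀ A ∈ pr, (A.subst σ).size ≤ B) →
      ∀ g : (Fin n → Bool) → ℝ, (∀ v, |g v| ≤ 1) →
      (∀ v, (∀ A ∈ pr, tv n A v = true) → g v = 0) →
      P.N (fun x => mle g (rz p B n σ) x * u x)
        ≤ pr.length * (2 * δ + (2 * κ + 8 * n * e) * P.N u) := by
  set z := rz p B n σ with hz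
  set D := (n + 1) * d with hD
  have hdD : d ≤ D := Nat.le_mul_of_pos_left _ (by omega)
  have hnD : n * d ≤ D := Nat.mul_le_mul_right _ (by omega)
  intro pr
  induction pr with
  | nil =>
    intro _ _ _ g _ hg0
    have h1 : g = fun _ => 0 := by
      funext v
      exact hg0 v (by simp)
    have h2 : (fun x => mle g z x * u x) = fun _ => 0 := by
      funext x
      rw [h1, mle_const]
      ring
    rw [h2, PE.N_zero]
    simp
  | cons A pr ih =>
    intro hcl hpr hsz g hg hg0
    have clA := hcl A (by simp)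
    have prA := hpr A (by simp)
    have szA := hsz A (by simp)
    have ih' := ih (fun A hA => hcl A (by simp [hA])) (fun A hA => hpr A (by simp [hA]))
      (fun A hA => hsz A (by simp [hA])) (fun v => g v * tr n A v) (fun v => by
        rw [abs_mul]
        exact mul_le_one₀ (hg v) (abs_nonneg _) (abs_tr_le n A v)) (fun v hv => by
        cases hA : tv n A v with
        | true =>
          have : g v = 0 := hg0 v (by
            intro A' hA'
            rcases List.mem_cons.mp hA' with rfl | h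
            · exact hA
            · exact hv A' h)
          rw [this, zero_mul]
        | false => simp [tr, hA, bv])
    have dz := mle_tr_deg (σ := σ) (n := n) hp
    have dpA : LowDeg D (p (A.subst σ)) := (hp.deg _ szA).mono hdD
    -- the four terms
    set f1 : (ι → Bool) → ℝ := fun x => mle (fun v => g v * tr n A v) z x * u x with hf1
    set f2 : (ι → Bool) → ℝ := fun x => mle g z x * ((1 - p (A.subst σ) x) * u x) with hf2
    set f3 : (ι → Bool) → ℝ :=
      fun x => mle g z x * (p (A.subst σ) x - mle (tr n A) z x) * u x with hf3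
    set f4 : (ι → Bool) → ℝ := fun x => (mle g z x * mle (fun v => 1 - tr n A v) z x -
      mle (fun v => g v * (fun v => 1 - tr n A v) v) z x) * u x with hf4
    have hsum : (fun x => mle g z x * u x) = fun x => f1 x + ((f2 x + f3 x) - f4 x) := by
      funext x
      simp only [hf1, hf2, hf3, hf4]
      have e1 : mle (fun v => g v * (fun v => 1 - tr n A v) v) z x
          = mle g z x - mle (fun v => g v * tr n A v) z x := by
        rw [← mle_sub]
        congr 1
        funext v
        ring
      have e2 : mle (fun v => 1 - tr n A v) z x = 1 - mle (tr n A) z x := by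
        have := mle_sub (fun _ => (1 : ℝ)) (tr n A) z x
        rw [mle_const] at this
        exact this
      rw [e1, e2]
      ring
    have d1 : LowDeg P.cap f1 := ((dz _).mul hu).mono (by omega)
    have d2 : LowDeg P.cap f2 :=
      ((dz _).mul (((LowDeg.const D 1).sub dpA).mul hu)).mono (by omega)
    have d3 : LowDeg P.cap f3 := (((dz _).mul (dpA.sub (dz _))).mul hu).mono (by omega)
    have d4 : LowDeg P.cap f4 :=
      ((((dz _).mul (dz _)).sub ((dz _).mono (show D ≤ D + D by omega))).mul hu).mono (by omega)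
    have n2 : P.N f2 ≤ 2 * δ := by
      have hb := mle_bd (σ := σ) hp he hn hcap (t := 2 * d) (by omega) hg
      refine (hb (fun x => (1 - p (A.subst σ) x) * u x) ?_).trans ?_
      · rw [two_mul]
        exact ((LowDeg.const d 1).sub (hp.deg _ szA)).mul hu
      · exact mul_le_mul_of_nonneg_left prA (by norm_num)
    have n3 : P.N f3 ≤ 2 * κ * P.N u := by
      have hb := mle_bd (σ := σ) hp he hn hcap (t := d + D) (by omega) hg
      exact (hb.mul clA (dpA.sub (dz _)) (by norm_num)) u hu
    have hg1 : ∀ v, |1 - tr n A v| ≤ 1 := by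
      intro v
      unfold tr
      cases tv n A v <;> simp [bv]
    have n4 : P.N f4 ≤ 8 * n * e * P.N u :=
      (mle_prod_bd (σ := σ) hp he hn hcap (t := d) (by omega) hg hg1) u hu
    rw [hsum]
    have s1 := PE.N_add_le d1 ((d2.add d3).sub d4)
    have s2 := PE.N_sub_le (d2.add d3) d4
    have s3 := PE.N_add_le d2 d3
    rw [List.length_cons]
    push_cast
    have : P.N (fun x => f1 x + (f2 x + f3 x - f4 x)) ≤
        (pr.length * (2 * δ + (2 * κ + 8 * n * e) * P.N u)) +
        (2 * δ + 2 * κ * P.N u + 8 * n * e * P.N u) := by linarith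
    linarith

/-- One application of a rule. -/
lemma rule_bound (hp : FmFam P p B d T e) (he : 0 ≤ e) (he1 : e ≤ 1 / 800)
    (hn : (n : ℝ) * e ≤ 1 / 800)
    (hcap : T + 2 * d ≤ P.cap) {a k : ℕ} (hT : (4 + 2 * a) * ((n + 1) * d) ≤ T)
    {u : (ι → Bool) → ℝ} (hu : LowDeg d u) {δ : ℝ} (hδ : 0 ≤ δ) (r : Rule)
    (hr : ∀ v : ℕ → Prop, (∀ A ∈ r.prem, A.eval v) → r.concl.eval v)
    (hk : r.prem.length ≤ k)
    (ho : ∀ A ∈ r.prem, ∀ i, A.Occurs i → i < n) (ho' : ∀ i, r.concl.Occurs i → i < n)
    (ha : ∀ A ∈ r.prem, A.size ≤ a) (ha' : r.concl.size ≤ a)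
    (hsz : ∀ A ∈ r.prem, (A.subst σ).size ≤ B) (hsz' : (r.concl.subst σ).size ≤ B)
    (hpr : ∀ A ∈ r.prem, P.N (fun x => (1 - p (A.subst σ) x) * u x) ≤ δ) :
    P.N (fun x => (1 - p (r.concl.subst σ) x) * u x) ≤
      k * (2 * δ + (2 * ((8 * n + 9 : ℝ) ^ a * e) + 8 * n * e) * P.N u) +
        (8 * n + 9 : ℝ) ^ a * e * P.N u := by
  have hn0 : (0 : ℝ) ≤ n := Nat.cast_nonneg n
  have hK1 : (1 : ℝ) ≤ 8 * n + 9 := by linarith
  set z := rz p B n σ with hz
  set D := (n + 1) * d with hD
  have hdD : d ≤ D := Nat.le_mul_of_pos_left _ (by omega)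
  have haD : ∀ b : ℕ, b ≤ a → b * (2 * D) ≤ 2 * a * D := fun b hb => by
    calc b * (2 * D) ≤ a * (2 * D) := Nat.mul_le_mul_right _ hb
      _ = 2 * a * D := by ring
  have hT' : 4 * D + 2 * a * D ≤ T := by rw [← add_mul]; exact hT
  have hclose : ∀ A : Fm ℕ, (∀ i, A.Occurs i → i < n) → A.size ≤ a → (A.subst σ).size ≤ B →
      P.Bd d (fun x => p (A.subst σ) x - mle (tr n A) z x) ((8 * n + 9 : ℝ) ^ a * e) := by
    intro A h1 h2 h3
    have h4 := haD A.size h2
    have h5 : d + A.size * (2 * D) ≤ T := by omega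
    refine (subst_close hp he he1 hn hcap A h1 h3 d h5).mono le_rfl ?_
    exact mul_le_mul_of_nonneg_right (pow_le_pow_right₀ hK1 h2) he
  have h0 := hclose r.concl ho' ha' hsz'
  have hg1 : ∀ v, |1 - tr n r.concl v| ≤ 1 := by
    intro v
    unfold tr
    cases tv n r.concl v <;> simp [bv]
  have h1 := prem_bound (σ := σ) hp he hn hcap (by omega) hu r.prem
    (fun A hA => hclose A (ho A hA) (ha A hA) (hsz A hA)) hpr hsz
    (fun v => 1 - tr n r.concl v) hg1 (fun v hv => by
      have h2 := (tv_eval n v r.concl).mpr (hr _ fun A hA => (tv_eval n v A).mp (hv A hA))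
      simp [tr, h2, bv])
  have dz := mle_tr_deg (σ := σ) (n := n) hp
  have dC : LowDeg D (p (r.concl.subst σ)) := (hp.deg _ hsz').mono hdD
  have hrw : (fun x => (1 - p (r.concl.subst σ) x) * u x) = fun x =>
      mle (fun v => 1 - tr n r.concl v) z x * u x
        - (p (r.concl.subst σ) x - mle (tr n r.concl) z x) * u x := by
    funext x
    have := mle_sub (fun _ => (1 : ℝ)) (tr n r.concl) z x
    rw [mle_const] at this
    rw [this]
    ring
  rw [hrw]
  have s1 := PE.N_sub_le (P := P) (f := fun x => mle (fun v => 1 - tr n r.concl v) z x * u x)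
    (g := fun x => (p (r.concl.subst σ) x - mle (tr n r.concl) z x) * u x)
    (((dz _).mul hu).mono (by omega)) (((dC.sub (dz _)).mul hu).mono (by omega))
  have s2 := h0 u hu
  have hlen : (r.prem.length : ℝ) ≤ k := by exact_mod_cast hk
  have hu0 := P.N_nonneg u
  have hpos : 0 ≤ 2 * δ + (2 * ((8 * n + 9 : ℝ) ^ a * e) + 8 * n * e) * P.N u := by positivity
  have s3 := mul_le_mul_of_nonneg_right hlen hpos
  linarith

end GridLine
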