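import Pool.Agent.Work.MP_c07f0d_lc.SD.Inst
import Pool.Agent.Work.MP_c07f0d_lc.LS.Upper2

/-!
# Random linear equations with three variables
-/

set_option linter.unusedSectionVars false

namespace GridLine

open Finset LineSize FregeEF

namespace Xor

variable {n m : ℕ}

/-- The exclusive or of the three variables of a clause. -/
def xF (c : Cl n) : Fm (Fin n) :=
  xor2 (xor2 (.var (c.1 0)) (.var (c.1 1))) (.var (c.1 2))

/-- The equation of a clause: the exclusive or of its variables is the exclusive or of its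
signs. -/
def xorF (c : Cl n) : Fm (Fin n) := if clRhs c then xF c else .neg (xF c)

/-- The equations of a formula, as hypotheses. -/
def xors (A : Fin m → Cl n) : List (Fm (Fin n)) := List.ofFn fun i => xorF (A i)

lemma xF_size (c : Cl n) : (xF c).size = 25 := by
  simp [xF, xor2, Fm.size]

lemma xorF_size (c : Cl n) : (xorF c).size ≤ 26 := by
  unfold xorF
  split_ifs
  · rw [xF_size]; omega
  · simp only [Fm.size]
    rw [xF_size]

lemma sv_xF (c : Cl n) (x : Fin n → Bool) : sv x (xF c) = chi (clSup c) x := by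
  rw [xF, sv_xor2, sv_xor2, sv_var, sv_var, sv_var, chi_clSup]

lemma xorF_eval (c : Cl n) (x : Fin n → Bool) :
    (xorF c).eval (fun j => x j = true) ↔ chi (clSup c) x = sg (clRhs c) := by
  rw [← sv_xF]
  unfold xorF sv
  cases h : clRhs c with
  | true =>
    simp only [if_true, sg]
    split_ifs with h1
    · simp [h1]
    · simp only [h1, false_iff]
      norm_num
  | false =>
    simp only [Bool.false_eq_true, if_false, sg, Fm.eval]
    split_ifs with h1
    · simp only [h1, not_true, false_iff]
      norm_num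
    · simp [h1]

lemma chi_pm {ι : Type} [Fintype ι] [DecidableEq ι] (U : Finset ι) (x : ι → Bool) :
    chi U x = 1 ∨ chi U x = -1 := by
  have h : chi U x * chi U x = 1 := by
    rw [chi_mul]
    simp
  have h2 : (chi U x - 1) * (chi U x + 1) = 0 := by linear_combination h
  rcases mul_eq_zero.1 h2 with h3 | h3
  · left; linarith
  · right; linarith

/-- The indicator that an equation is violated. -/
lemma xorV_eq (c : Cl n) (x : Fin n → Bool) :
    (bv ((nf true (xorF c)).ev x) - 1) ^ 2 = 1 / 2 + (-(sg (clRhs c)) / 2) * chi (clSup c) x := by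
  have h1 := (nf_ev x (xorF c)).1.trans (xorF_eval c x)
  have h2 := sg_mul_self (clRhs c)
  cases hy : (nf true (xorF c)).ev x with
  | true =>
    rw [h1.1 hy]
    simp only [bv, if_true]
    linear_combination (1 / 2 : ℝ) * h2
  | false =>
    have h3 : chi (clSup c) x = - sg (clRhs c) := by
      have h4 : ¬ chi (clSup c) x = sg (clRhs c) := by
        intro h
        rw [h1.2 h] at hy
        exact Bool.noConfusion hy
      rcases chi_pm (clSup c) x with h5 | h5 <;> cases h6 : clRhs c <;>
        simp_all [sg]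
    rw [h3]
    simp only [bv, Bool.false_eq_true, if_false]
    linear_combination (-(1 / 2) : ℝ) * h2

lemma xorV_viol (c : Cl n) (x : Fin n → Bool) :
    (1 / 2 + (-(sg (clRhs c)) / 2) * chi (clSup c) x) = 0 ∨ chi (clSup c) x = - sg (clRhs c) := by
  have h2 := sg_mul_self (clRhs c)
  rcases chi_pm (clSup c) x with h5 | h5 <;> cases h6 : clRhs c <;>
    (simp_all [sg]; try norm_num)

lemma xorV_lowDeg (c : Cl n) :
    LowDeg 3 (fun x : Fin n → Bool => 1 / 2 + (-(sg (clRhs c)) / 2) * chi (clSup c) x) := by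
  have h := LowDeg.chi (clSup c)
  rw [card_clSup] at h
  exact (LowDeg.const 3 (1 / 2)).add (h.const_mul _)

/-- The pseudo-expectation of an expanding formula satisfies all its clauses and equations. -/
theorem exists_pe' {A : Fin m → Cl n} {s T : ℕ} (h : Expd A s) (hT : 4 * T ≤ s) (h3 : 3 ≤ T) :
    ∃ P : PE (Fin n), P.cap = T ∧ P.E (fun _ => 1) = 1 ∧
      (∀ φ ∈ List.ofFn (fun i => clF (A i)), P.N (fun x => bv ((nf true φ).ev x) - 1) = 0) ∧
      (∀ φ ∈ xors A, P.N (fun x => bv ((nf true φ).ev x) - 1) = 0) := by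
  have hO := h.ok hT
  refine ⟨pe (fun i => clSup (A i)) (fun i => clRhs (A i)) s T hO, rfl, Ex_one hO, ?_, ?_⟩
  · intro φ hφ
    obtain ⟨i, rfl⟩ := List.mem_ofFn.1 hφ
    show Real.sqrt (Ex (fun i => clSup (A i)) (fun i => clRhs (A i)) s
      (fun x => (bv ((nf true (clF (A i))).ev x) - 1) ^ 2)) = 0
    have h1 : (fun x => (bv ((nf true (clF (A i))).ev x) - 1) ^ 2) = clV (A i) := by
      funext x
      exact clV_eq (A i) x
    rw [h1, Ex_zero_of_violates (e := i) hO (by omega) (clV_lowDeg (A i)) (w := 3)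
      (by rw [card_clSup]) (by omega) (clV_viol (A i))]
    exact Real.sqrt_zero
  · intro φ hφ
    obtain ⟨i, rfl⟩ := List.mem_ofFn.1 hφ
    show Real.sqrt (Ex (fun i => clSup (A i)) (fun i => clRhs (A i)) s
      (fun x => (bv ((nf true (xorF (A i))).ev x) - 1) ^ 2)) = 0
    have h1 : (fun x => (bv ((nf true (xorF (A i))).ev x) - 1) ^ 2)
        = fun x => 1 / 2 + (-(sg (clRhs (A i))) / 2) * chi (clSup (A i)) x := by
      funext x
      exact xorV_eq (A i) x
    rw [h1, Ex_zero_of_violates (e := i) hO (by omega) (xorV_lowDeg (A i)) (w := 3)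
      (by rw [card_clSup]) (by omega) (xorV_viol (A i))]
    exact Real.sqrt_zero

/-! ### Contradictory systems have a contradictory sum -/

lemma prod_chi {κ ι : Type} [Fintype κ] [DecidableEq κ] [Fintype ι] [DecidableEq ι]
    (sup : κ → Finset ι) (x : ι → Bool) (S : Finset κ) :
    ∏ i ∈ S, chi (sup i) x = chi (bdX sup S) x := by
  induction S using Finset.induction_on with
  | empty => rw [bdX_empty]; simp
  | insert i S hi ih =>
    rw [Finset.prod_insert hi, ih, chi_mul, ← bdX_single sup i, ← bdX_symmDiff]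
    congr 2
    ext j
    simp only [Finset.mem_symmDiff, Finset.mem_singleton, Finset.mem_insert]
    constructor
    · tauto
    · rintro (rfl | h)
      · exact Or.inl ⟨rfl, hi⟩
      · exact Or.inr ⟨h, fun h2 => hi (h2 ▸ h)⟩

/-- If a system of linear equations over the field with two elements has no solution then some of
its equations add up to a contradiction. -/
theorem exists_contradictory {κ ι : Type} [Fintype κ] [DecidableEq κ] [Fintype ι] [DecidableEq ι]
    (sup : κ → Finset ι) (b : κ → Bool)
    (h : ¬ ∃ x : ι → Bool, ∀ i, chi (sup i) x = sg (b i)) :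
    ∃ S : Finset κ, (∀ x, ∏ i ∈ S, chi (sup i) x = 1) ∧ ∏ i ∈ S, sg (b i) = -1 := by
  by_contra hcon
  have hpm : ∀ S : Finset κ, ∏ i ∈ S, sg (b i) = 1 ∨ ∏ i ∈ S, sg (b i) = -1 := by
    intro S
    exact chi_pm S b
  have key : ∀ S : Finset κ, bdX sup S = ∅ → ∏ i ∈ S, sg (b i) = 1 := by
    intro S hS
    rcases hpm S with h1 | h1
    · exact h1
    · exact absurd ⟨S, fun x => by rw [prod_chi, hS]; simp, h1⟩ hcon
  have h0 : ∑ x : ι → Bool, ∏ i, (1 + sg (b i) * chi (sup i) x) = 0 := by
    apply Finset.sum_eq_zero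
    intro x _
    have h1 : ∃ i, chi (sup i) x ≠ sg (b i) := by
      by_contra h2
      push Not at h2
      exact h ⟨x, h2⟩
    obtain ⟨i, hi⟩ := h1
    apply Finset.prod_eq_zero (Finset.mem_univ i)
    rcases chi_pm (sup i) x with h5 | h5 <;> cases h6 : b i <;> simp_all [sg]
  have h1 : ∑ x : ι → Bool, ∏ i, (1 + sg (b i) * chi (sup i) x)
      = ∑ S : Finset κ, (∏ i ∈ S, sg (b i)) *
        (if bdX sup S = ∅ then (2 : ℝ) ^ Fintype.card ι else 0) := by
    have e : ∀ x : ι → Bool, ∏ i, (1 + sg (b i) * chi (sup i) x)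
        = ∑ S : Finset κ, (∏ i ∈ S, sg (b i)) * chi (bdX sup S) x := by
      intro x
      rw [Finset.prod_one_add, Finset.powerset_univ]
      refine Finset.sum_congr rfl fun S _ => ?_
      rw [Finset.prod_mul_distrib, prod_chi]
    rw [Finset.sum_congr rfl fun x _ => e x, Finset.sum_comm]
    refine Finset.sum_congr rfl fun S _ => ?_
    rw [← Finset.mul_sum, sum_chi]
  have h2 : (0 : ℝ) < ∑ S : Finset κ, (∏ i ∈ S, sg (b i)) *
        (if bdX sup S = ∅ then (2 : ℝ) ^ Fintype.card ι else 0) := by
    apply Finset.sum_pos'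
    · intro S _
      by_cases hS : bdX sup S = ∅
      · rw [if_pos hS, key S hS]
        positivity
      · rw [if_neg hS, mul_zero]
    · refine ⟨∅, Finset.mem_univ _, ?_⟩
      rw [if_pos (bdX_empty sup)]
      simp
  rw [← h1, h0] at h2
  exact lt_irrefl _ h2

end Xor

end GridLine
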