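import Pool.Agent.Work.MP_c07f0d_lc.TL.Pse

/-!
# The pseudo-expectation of an expanding system of parity equations
-/

set_option linter.unusedSectionVars false

namespace GridLine

open Finset LineSize

namespace Xor

variable {κ ι : Type} [Fintype κ] [DecidableEq κ] [Fintype ι] [DecidableEq ι]

/-- The variables which occur in an odd number of the equations of `S`. -/
def bdX (sup : κ → Finset ι) (S : Finset κ) : Finset ι :=
  Finset.univ.filter fun v => Odd (S.filter fun e => v ∈ sup e).card

lemma mem_bdX {sup : κ → Finset ι} {S : Finset κ} {v : ι} :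
    v ∈ bdX sup S ↔ Odd (S.filter fun e => v ∈ sup e).card := by
  simp [bdX]

lemma sdc {α : Type*} [DecidableEq α] (A B C : Finset α) :
    symmDiff (symmDiff A B) (symmDiff C B) = symmDiff A C := by
  ext x
  simp only [Finset.mem_symmDiff]
  tauto

lemma odd_card_symmDiff {α : Type*} [DecidableEq α] (A B : Finset α) :
    Odd (symmDiff A B).card ↔ ¬ (Odd A.card ↔ Odd B.card) := by
  have h1 : (symmDiff A B).card + 2 * (A ∩ B).card = A.card + B.card := by
    have h2 : (symmDiff A B).card = (A \ B).card + (B \ A).card := by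
      rw [Finset.symmDiff_def, Finset.card_union_of_disjoint]
      exact disjoint_sdiff_sdiff
    have h3 := Finset.card_sdiff_add_card_inter A B
    have h4 := Finset.card_sdiff_add_card_inter B A
    rw [Finset.inter_comm B A] at h4
    omega
  rw [Nat.odd_iff, Nat.odd_iff, Nat.odd_iff]
  omega

lemma bdX_symmDiff (sup : κ → Finset ι) (S S' : Finset κ) :
    bdX sup (symmDiff S S') = symmDiff (bdX sup S) (bdX sup S') := by
  ext v
  rw [Finset.mem_symmDiff, mem_bdX, mem_bdX, mem_bdX]
  have h : (symmDiff S S').filter (fun e => v ∈ sup e)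
      = symmDiff (S.filter fun e => v ∈ sup e) (S'.filter fun e => v ∈ sup e) := by
    ext e
    simp only [Finset.mem_filter, Finset.mem_symmDiff]
    tauto
  rw [h, odd_card_symmDiff]
  tauto

lemma bdX_empty (sup : κ → Finset ι) : bdX sup ∅ = ∅ := by
  ext v
  simp [mem_bdX]

lemma bdX_single (sup : κ → Finset ι) (e : κ) : bdX sup {e} = sup e := by
  ext v
  rw [mem_bdX]
  by_cases h : v ∈ sup e
  · have : ({e} : Finset κ).filter (fun e => v ∈ sup e) = {e} := by
      rw [Finset.filter_singleton, if_pos h]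
    rw [this]
    simp [h]
  · have : ({e} : Finset κ).filter (fun e => v ∈ sup e) = ∅ := by
      rw [Finset.filter_singleton, if_neg h]
    rw [this]
    simp [h]

/-- The functional. -/
noncomputable def Ex (sup : κ → Finset ι) (b : κ → Bool) (s : ℕ) (f : (ι → Bool) → ℝ) : ℝ :=
  ∑ S : Finset κ, if S.card ≤ s then chi S b * fc f (bdX sup S) else 0

variable {sup : κ → Finset ι} {b : κ → Bool} {s T : ℕ}

lemma Ex_add (f g : (ι → Bool) → ℝ) :
    Ex sup b s (fun y => f y + g y) = Ex sup b s f + Ex sup b s g := by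
  unfold Ex
  rw [← Finset.sum_add_distrib]
  refine Finset.sum_congr rfl fun U _ => ?_
  split_ifs
  · rw [fc_add]
    ring
  · ring

lemma Ex_const_mul (a : ℝ) (f : (ι → Bool) → ℝ) :
    Ex sup b s (fun y => a * f y) = a * Ex sup b s f := by
  unfold Ex
  rw [Finset.mul_sum]
  refine Finset.sum_congr rfl fun U _ => ?_
  split_ifs
  · rw [fc_const_mul]
    ring
  · ring

lemma Ex_sum {τ : Type*} (t : Finset τ) (f : τ → (ι → Bool) → ℝ) :
    Ex sup b s (fun y => ∑ k ∈ t, f k y) = ∑ k ∈ t, Ex sup b s (f k) := by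
  unfold Ex
  rw [Finset.sum_comm]
  refine Finset.sum_congr rfl fun U _ => ?_
  split_ifs
  · rw [fc_sum, Finset.mul_sum]
  · simp

/-- Expansion: small nonempty sets of equations have a nonempty sum, and the sum of a set of
middle size has many variables. -/
structure Ok (sup : κ → Finset ι) (s T : ℕ) : Prop where
  inj : ∀ S : Finset κ, S.card ≤ 2 * s → bdX sup S = ∅ → S = ∅
  clo : ∀ S : Finset κ, S.card ≤ 2 * s → (bdX sup S).card ≤ 2 * T → S.card ≤ s

lemma Ex_chi_of (h : Ok sup s T) {S : Finset κ} (hS : S.card ≤ s) :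
    Ex sup b s (chi (bdX sup S)) = chi S b := by
  unfold Ex
  rw [Finset.sum_eq_single S]
  · rw [if_pos hS, fc_chi, if_pos rfl, mul_one]
  · intro S' _ hne
    split_ifs with h1
    · rw [fc_chi, if_neg, mul_zero]
      intro h2
      apply hne
      have h3 : symmDiff S' S = ∅ := by
        apply h.inj
        · have := card_symmDiff_le S' S
          omega
        · rw [bdX_symmDiff, h2, symmDiff_self]
          rfl
      exact symmDiff_eq_bot.1 h3
    · rfl
  · intro h1
    exact absurd (Finset.mem_univ S) h1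

lemma Ex_chi_not {U : Finset ι} (h : ∀ S : Finset κ, S.card ≤ s → bdX sup S ≠ U) :
    Ex sup b s (chi U) = 0 := by
  unfold Ex
  refine Finset.sum_eq_zero fun S _ => ?_
  split_ifs with h1
  · rw [fc_chi, if_neg (h S h1), mul_zero]
  · rfl

/-- Equivalence of characters. -/
def Eqv (sup : κ → Finset ι) (s : ℕ) (A B : Finset ι) : Prop :=
  ∃ S : Finset κ, S.card ≤ s ∧ bdX sup S = symmDiff A B

lemma Eqv.refl (A : Finset ι) : Eqv sup s A A :=
  ⟨∅, by simp, by rw [bdX_empty, symmDiff_self]; rfl⟩

lemma Eqv.symm {A B : Finset ι} (h : Eqv sup s A B) : Eqv sup s B A := by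
  obtain ⟨S, h1, h2⟩ := h
  exact ⟨S, h1, by rw [h2, symmDiff_comm]⟩

lemma Eqv.trans (hO : Ok sup s T) {A B C : Finset ι} (hA : A.card ≤ T) (hC : C.card ≤ T)
    (h : Eqv sup s A B) (h' : Eqv sup s B C) : Eqv sup s A C := by
  obtain ⟨S, h1, h2⟩ := h
  obtain ⟨S', h1', h2'⟩ := h'
  have h3 : bdX sup (symmDiff S S') = symmDiff A C := by
    rw [bdX_symmDiff, h2, h2', symmDiff_comm B C]
    exact sdc A B C
  refine ⟨symmDiff S S', hO.clo _ ?_ ?_, h3⟩
  · have := card_symmDiff_le S S'
    omega
  · rw [h3]
    have := card_symmDiff_le A C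
    omega

lemma Ex_chi_mul (hO : Ok sup s T) {A B C : Finset ι} (hA : A.card ≤ T) (hC : C.card ≤ T)
    (h : Eqv sup s A B) (h' : Eqv sup s C B) :
    Ex sup b s (chi (symmDiff A B)) * Ex sup b s (chi (symmDiff C B))
      = Ex sup b s (chi (symmDiff A C)) := by
  obtain ⟨S, h1, h2⟩ := h
  obtain ⟨S', h1', h2'⟩ := h'
  have h3 : bdX sup (symmDiff S S') = symmDiff A C := by
    rw [bdX_symmDiff, h2, h2']
    exact sdc A B C
  have h4 : (symmDiff S S').card ≤ s := by
    refine hO.clo _ ?_ ?_
    · have := card_symmDiff_le S S'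
      omega
    · rw [h3]
      have := card_symmDiff_le A C
      omega
  rw [← h2, ← h2', ← h3, Ex_chi_of hO h1, Ex_chi_of hO h1', Ex_chi_of hO h4, chi_mul]

lemma Ex_chi_not_eqv {A B : Finset ι} (h : ¬ Eqv sup s A B) :
    Ex sup b s (chi (symmDiff A B)) = 0 :=
  Ex_chi_not fun S h1 h2 => h ⟨S, h1, h2⟩

open Classical in
/-- The size of a class. -/
noncomputable def cl (sup : κ → Finset ι) (s T : ℕ) (A : Finset ι) : Finset (Finset ι) :=
  Finset.univ.filter fun B => B.card ≤ T ∧ Eqv sup s A B

lemma cl_eq (hO : Ok sup s T) {A B : Finset ι} (hA : A.card ≤ T) (hB : B.card ≤ T)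
    (h : Eqv sup s A B) : cl sup s T A = cl sup s T B := by
  ext C
  simp only [cl, Finset.mem_filter, Finset.mem_univ, true_and]
  constructor
  · rintro ⟨h1, h2⟩
    exact ⟨h1, h.symm.trans hO hB h1 h2⟩
  · rintro ⟨h1, h2⟩
    exact ⟨h1, h.trans hO hA h1 h2⟩

lemma cl_pos {A : Finset ι} (hA : A.card ≤ T) : 0 < (cl sup s T A).card := by
  apply Finset.card_pos.2
  refine ⟨A, ?_⟩
  simp only [cl, Finset.mem_filter, Finset.mem_univ, true_and]
  exact ⟨hA, Eqv.refl A⟩

/-- The pairing of two characters. -/
lemma pair (hO : Ok sup s T) {A C : Finset ι} (hA : A.card ≤ T) (hC : C.card ≤ T) :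
    Ex sup b s (chi (symmDiff A C)) = ∑ B ∈ Finset.univ.filter (fun B : Finset ι => B.card ≤ T),
      (1 / ((cl sup s T B).card : ℝ)) *
        (Ex sup b s (chi (symmDiff A B)) * Ex sup b s (chi (symmDiff C B))) := by
  classical
  by_cases hAC : Eqv sup s A C
  · have hterm : ∀ B ∈ Finset.univ.filter (fun B : Finset ι => B.card ≤ T),
        (1 / ((cl sup s T B).card : ℝ)) *
        (Ex sup b s (chi (symmDiff A B)) * Ex sup b s (chi (symmDiff C B)))
        = if B ∈ cl sup s T A then
            (1 / ((cl sup s T A).card : ℝ)) * Ex sup b s (chi (symmDiff A C)) else 0 := by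
      intro B hB
      have hBT : B.card ≤ T := (Finset.mem_filter.1 hB).2
      by_cases h1 : Eqv sup s A B
      · have h2 : B ∈ cl sup s T A := by
          simp only [cl, Finset.mem_filter, Finset.mem_univ, true_and]
          exact ⟨hBT, h1⟩
        rw [if_pos h2, ← cl_eq hO hA hBT h1,
          Ex_chi_mul hO hA hC h1 (hAC.symm.trans hO hC hBT h1)]
      · have h2 : B ∉ cl sup s T A := by
          simp only [cl, Finset.mem_filter, Finset.mem_univ, true_and]
          exact fun h => h1 h.2
        rw [if_neg h2, Ex_chi_not_eqv h1]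
        ring
    rw [Finset.sum_congr rfl hterm, Finset.sum_ite_mem]
    have h3 : (Finset.univ.filter (fun B : Finset ι => B.card ≤ T)) ∩ cl sup s T A
        = cl sup s T A := by
      apply Finset.inter_eq_right.2
      intro B hB
      simp only [cl, Finset.mem_filter, Finset.mem_univ, true_and] at hB ⊢
      exact hB.1
    rw [h3, Finset.sum_const, nsmul_eq_mul]
    have h4 : ((cl sup s T A).card : ℝ) ≠ 0 := by
      have := cl_pos (sup := sup) (s := s) (T := T) hA
      positivity
    field_simp
  · rw [Ex_chi_not_eqv hAC]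
    symm
    refine Finset.sum_eq_zero fun B hB => ?_
    have hBT : B.card ≤ T := (Finset.mem_filter.1 hB).2
    by_cases h1 : Eqv sup s A B
    · have h2 : ¬ Eqv sup s C B := fun h2 => hAC (h1.trans hO hA hC h2.symm)
      rw [Ex_chi_not_eqv h2]
      ring
    · rw [Ex_chi_not_eqv h1]
      ring

/-- The coefficient at a class. -/
noncomputable def cc (sup : κ → Finset ι) (b : κ → Bool) (s : ℕ) (f : (ι → Bool) → ℝ)
    (B : Finset ι) : ℝ :=
  ∑ A : Finset ι, fc f A * Ex sup b s (chi (symmDiff A B))

/-- The inner product is a sum over the classes. -/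
theorem Ex_mul (hO : Ok sup s T) {f g : (ι → Bool) → ℝ} (hf : LowDeg T f) (hg : LowDeg T g) :
    Ex sup b s (fun x => f x * g x)
      = ∑ B ∈ Finset.univ.filter (fun B : Finset ι => B.card ≤ T),
        (1 / ((cl sup s T B).card : ℝ)) * (cc sup b s f B * cc sup b s g B) := by
  have h1 : (fun x => f x * g x) = fun x => ∑ A : Finset ι, ∑ C : Finset ι,
      (fc f A * fc g C) * chi (symmDiff A C) x := by
    funext x
    rw [← walsh f x, ← walsh g x, Finset.sum_mul_sum]
    refine Finset.sum_congr rfl fun A _ => Finset.sum_congr rfl fun C _ => ?_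
    rw [← chi_mul]
    ring
  have h2 : Ex sup b s (fun x => f x * g x) = ∑ A : Finset ι, ∑ C : Finset ι,
      (fc f A * fc g C) * Ex sup b s (chi (symmDiff A C)) := by
    rw [h1, Ex_sum]
    refine Finset.sum_congr rfl fun A _ => ?_
    rw [Ex_sum]
    refine Finset.sum_congr rfl fun C _ => ?_
    rw [Ex_const_mul]
  have h3 : ∀ A C : Finset ι, (fc f A * fc g C) * Ex sup b s (chi (symmDiff A C)) =
      ∑ B ∈ Finset.univ.filter (fun B : Finset ι => B.card ≤ T),
        (1 / ((cl sup s T B).card : ℝ)) * ((fc f A * Ex sup b s (chi (symmDiff A B))) *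
        (fc g C * Ex sup b s (chi (symmDiff C B)))) := by
    intro A C
    by_cases hA : A.card ≤ T
    · by_cases hC : C.card ≤ T
      · rw [pair hO hA hC, Finset.mul_sum]
        refine Finset.sum_congr rfl fun B _ => ?_
        ring
      · rw [hg C (by omega)]
        simp
    · rw [hf A (by omega)]
      simp
  rw [h2]
  simp only [h3]
  have h4 : ∀ A : Finset ι, ∑ C : Finset ι,
      ∑ B ∈ Finset.univ.filter (fun B : Finset ι => B.card ≤ T),
        (1 / ((cl sup s T B).card : ℝ)) * ((fc f A * Ex sup b s (chi (symmDiff A B))) *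
        (fc g C * Ex sup b s (chi (symmDiff C B)))) =
      ∑ B ∈ Finset.univ.filter (fun B : Finset ι => B.card ≤ T),
        (1 / ((cl sup s T B).card : ℝ)) * ((fc f A * Ex sup b s (chi (symmDiff A B))) *
          cc sup b s g B) := by
    intro A
    rw [Finset.sum_comm]
    refine Finset.sum_congr rfl fun B _ => ?_
    rw [← Finset.mul_sum, ← Finset.mul_sum]
    rfl
  simp only [h4]
  rw [Finset.sum_comm]
  refine Finset.sum_congr rfl fun B _ => ?_
  rw [← Finset.mul_sum, ← Finset.sum_mul]
  rfl

/-- The pseudo-expectation of an expanding system. -/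
noncomputable def pe (sup : κ → Finset ι) (b : κ → Bool) (s T : ℕ) (hO : Ok sup s T) : PE ι where
  E := Ex sup b s
  cap := T
  add' := fun f g => Ex_add f g
  smul' := fun a f => Ex_const_mul a f
  psd := by
    intro f hf
    have h1 : (fun x => f x ^ 2) = fun x => f x * f x := by
      funext x
      rw [sq]
    rw [h1, Ex_mul hO hf hf]
    exact Finset.sum_nonneg fun B _ => mul_nonneg (by positivity) (mul_self_nonneg _)

lemma Ex_one (hO : Ok sup s T) : Ex sup b s (fun _ => 1) = 1 := by
  have h2 := Ex_chi_of (b := b) hO (S := ∅) (by simp)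
  rw [bdX_empty, chi_empty] at h2
  have h3 : chi (∅ : Finset ι) = fun _ => (1 : ℝ) := by
    funext x
    exact chi_empty x
  rw [h3] at h2
  exact h2

/-- Multiplication by the character of an equation. -/
lemma Ex_mul_sup (hO : Ok sup s T) (hs : 1 ≤ s) {D w : ℕ} {f : (ι → Bool) → ℝ} (hf : LowDeg D f)
    {e : κ} (he : (sup e).card ≤ w) (hT : D + w ≤ 2 * T) :
    Ex sup b s (fun x => f x * chi (sup e) x) = sg (b e) * Ex sup b s f := by
  have hsingle : chi ({e} : Finset κ) b = sg (b e) := by simp [chi]
  have hre : Ex sup b s f = ∑ S : Finset κ, if (symmDiff S {e}).card ≤ s then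
      chi (symmDiff S {e}) b * fc f (bdX sup (symmDiff S {e})) else 0 := by
    unfold Ex
    refine (Finset.sum_nbij' (fun U => symmDiff U {e}) (fun U => symmDiff U {e})
        (by simp) (by simp) ?_ ?_ ?_)
    · intro U _
      simp
    · intro U _
      simp
    · intro U _
      have hUU : symmDiff (symmDiff U {e}) {e} = U := by simp
      rw [hUU]
  rw [hre, Finset.mul_sum]
  unfold Ex
  refine Finset.sum_congr rfl fun S _ => ?_
  rw [fc_mul_chi, bdX_symmDiff, bdX_single]
  by_cases hdeg : (symmDiff (bdX sup S) (sup e)).card ≤ D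
  · have hc1 : S.card ≤ (symmDiff S {e}).card + 1 := by
      have := card_le_symmDiff S {e}
      rwa [Finset.card_singleton] at this
    have hc2 : (symmDiff S {e}).card ≤ S.card + 1 := by
      have := card_symmDiff_le S {e}
      rwa [Finset.card_singleton] at this
    have hb1 : (bdX sup S).card ≤ D + w := by
      have := card_le_symmDiff (bdX sup S) (sup e)
      omega
    have hb2 : (bdX sup (symmDiff S {e})).card ≤ D := by
      rw [bdX_symmDiff, bdX_single]
      exact hdeg
    have hiff : S.card ≤ s ↔ (symmDiff S {e}).card ≤ s := by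
      constructor
      · intro h1
        exact hO.clo _ (by omega) (by omega)
      · intro h1
        exact hO.clo _ (by omega) (by omega)
    by_cases h1 : S.card ≤ s
    · rw [if_pos h1, if_pos (hiff.1 h1), ← chi_mul, hsingle]
      have := sg_mul_self (b e)
      linear_combination (-(chi S b * fc f (symmDiff (bdX sup S) (sup e)))) * this
    · rw [if_neg h1, if_neg (fun h => h1 (hiff.2 h)), mul_zero]
  · rw [hf _ (by omega)]
    simp

/-- A function of low degree which vanishes on the solutions of one equation has expectation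
zero. -/
lemma Ex_zero_of_violates (hO : Ok sup s T) (hs : 1 ≤ s) {D w : ℕ} {f : (ι → Bool) → ℝ}
    (hf : LowDeg D f) {e : κ} (he : (sup e).card ≤ w) (hT : D + w ≤ 2 * T)
    (hv : ∀ x, f x = 0 ∨ chi (sup e) x = - sg (b e)) : Ex sup b s f = 0 := by
  have h1 : (fun x => f x * chi (sup e) x) = fun x => (- sg (b e)) * f x := by
    funext x
    rcases hv x with h | h
    · rw [h]; ring
    · rw [h]; ring
  have h2 := Ex_mul_sup (b := b) hO hs hf he hT
  rw [h1, Ex_const_mul] at h2
  have h3 := sg_mul_self (b e)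
  have h4 : sg (b e) * (sg (b e) * Ex sup b s f) = sg (b e) * (-sg (b e) * Ex sup b s f) := by
    rw [h2]
  nlinarith

end Xor

end GridLine
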